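import Pool.Agent.Lib.MP_393ee6_an.Defs

/-!
The concrete data: eleven directions and seven wells.
-/

open MeasureTheory Matrix

namespace Pool.Agent.Lib.MP_393ee6_an

/-- The directions: `(1,0)`, `(0,1)`, `(1,1)`, `(1,2)`, ..., `(1,9)`. -/
def dir (j : Fin 11) (a : Fin 2) : ℝ :=
  if j.val = 1 then (if a = 0 then 0 else 1)
  else (if a = 0 then 1 else (j.val - 1 : ℕ))

/-- The seven wells: the points of `{0,1}^3` different from `(1,1,1)` (binary digits of `k`). -/
def well (k : Fin 7) (i : Fin 3) : ℝ := if (k.val / 2 ^ i.val) % 2 = 1 then 1 else 0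

/-- The field whose `j`-th column is `y j` times the direction `dir j`. -/
def fld (y : Fin 11 → ℝ) : Sn 11 := fun i => y i.2 * dir i.2 i.1

/-- Coordinates `y` of the field in the well `k` and the phase `σ = ± 1`: the columns `0,1,2` carry
the well, column `3 + k` carries `σ`, column `10` carries `1`. -/
def goodY (k : Fin 7) (σ : ℝ) : Fin 11 → ℝ := fun j =>
  if h : j.val < 3 then well k ⟨j.val, h⟩
  else if j.val = 3 + k.val then σ
  else if j.val = 10 then 1 else 0

/-- The mean field: `(m, m, m)` in the columns `0, 1, 2`, `0` in the columns `3, ..., 9` and `1` in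
the column `10`. -/
def meanY (m : ℝ) : Fin 11 → ℝ := fun j =>
  if j.val < 3 then m else if j.val = 10 then 1 else 0

end Pool.Agent.Lib.MP_393ee6_an
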