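import Pool.Agent.Lib.MP_393ee6_an.Fun
import Pool.Agent.Lib.MP_393ee6_an.Data

/-!
The certificate `Gc` in the variables `v` (three), `s` (seven) and `t`.
-/

open Finset

namespace Pool.Agent.Lib.MP_393ee6_an

theorem well_cases (k : Fin 7) (i : Fin 3) : well k i = 0 ∨ well k i = 1 := by
  unfold well; split_ifs <;> simp

theorem well_zero (k : Fin 7) : well k 0 = 0 ∨ well k 1 = 0 ∨ well k 2 = 0 := by
  fin_cases k <;> simp [well]

theorem well_abs (k : Fin 7) (i : Fin 3) : |well k i| ≤ 1 := by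
  rcases well_cases k i with h | h <;> rw [h] <;> norm_num

/-- `A s`, where the columns of `A` are the wells. -/
def As (s : Fin 7 → ℝ) (i : Fin 3) : ℝ := ∑ k, well k i * s k

noncomputable def gh (v : Fin 3 → ℝ) (s : Fin 7 → ℝ) : ℝ :=
  g0 (v 0) (v 1) (v 2) - 3 / 1000 - (1 / 3200) * (v 0 ^ 2 + v 1 ^ 2 + v 2 ^ 2)
    - (1 / 10000) * ((∑ k, s k ^ 2) + 35)

/-- The certificate. -/
noncomputable def Gc (v : Fin 3 → ℝ) (s : Fin 7 → ℝ) (t : ℝ) : ℝ :=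
  (1 - t ^ 2) * gh v s + (1 / 100) * (v 0 ^ 2 + v 1 ^ 2 + v 2 ^ 2)
    + 500 * (H (t * v 0 - As s 0) + H (t * v 1 - As s 1) + H (t * v 2 - As s 2))
    + 10 ^ 21 * ((∑ k, s k) - t) ^ 2

noncomputable def sv (v : Fin 3 → ℝ) (i : Fin 3) : ℝ :=
  if i = 0 then sl (v 0) (v 1) (v 2) else if i = 1 then sl (v 1) (v 0) (v 2)
  else sl (v 2) (v 0) (v 1)

noncomputable def pv (v : Fin 3 → ℝ) (s : Fin 7 → ℝ) (t : ℝ) (i : Fin 3) : ℝ :=
  (1 - t ^ 2) * (sv v i - 2 * (1 / 3200) * v i) + 2 * (1 / 100) * v i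
    + 2 * 500 * t * pr (t * v i - As s i)

noncomputable def ps (v : Fin 3 → ℝ) (s : Fin 7 → ℝ) (t : ℝ) (k : Fin 7) : ℝ :=
  (1 - t ^ 2) * (-2 * (1 / 10000) * s k)
    - 2 * 500 * ∑ i, well k i * pr (t * v i - As s i) + 2 * 10 ^ 21 * ((∑ k, s k) - t)

noncomputable def pt (v : Fin 3 → ℝ) (s : Fin 7 → ℝ) (t : ℝ) : ℝ :=
  -2 * t * gh v s + 2 * 500 * ∑ i, pr (t * v i - As s i) * v i
    - 2 * 10 ^ 21 * ((∑ k, s k) - t)

/-- The remainder of a step. -/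
noncomputable def Rem (v d : Fin 3 → ℝ) (s r : Fin 7 → ℝ) (t e : ℝ) : ℝ :=
  Gc (v + d) (s + r) (t + e) - Gc v s t
    - ((∑ i, pv v s t i * d i) + (∑ k, ps v s t k * r k) + pt v s t * e)

/-- `H`-remainder. -/
noncomputable def BH (x y : ℝ) : ℝ := H y - H x - 2 * pr x * (y - x)

theorem ident (v1 v2 v3 d1 d2 d3 t e q q' pi1 pi2 pi3 S2 SR R2 sb rb a1 a2 a3 b1 b2 b3
    h1 h2 h3 h1' h2' h3' p1 p2 p3 : ℝ) :
    ((1 - (t + e) ^ 2) * (q' - 3 / 1000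
        - (1 / 3200) * ((v1 + d1) ^ 2 + (v2 + d2) ^ 2 + (v3 + d3) ^ 2)
        - (1 / 10000) * ((S2 + 2 * SR + R2) + 35))
      + (1 / 100) * ((v1 + d1) ^ 2 + (v2 + d2) ^ 2 + (v3 + d3) ^ 2)
      + 500 * (h1' + h2' + h3') + 10 ^ 21 * ((sb + rb) - (t + e)) ^ 2)
    - ((1 - t ^ 2) * (q - 3 / 1000 - (1 / 3200) * (v1 ^ 2 + v2 ^ 2 + v3 ^ 2)
        - (1 / 10000) * (S2 + 35)) + (1 / 100) * (v1 ^ 2 + v2 ^ 2 + v3 ^ 2)
      + 500 * (h1 + h2 + h3) + 10 ^ 21 * (sb - t) ^ 2)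
    - ((((1 - t ^ 2) * (pi1 - 2 * (1 / 3200) * v1) + 2 * (1 / 100) * v1 + 2 * 500 * t * p1) * d1
        + ((1 - t ^ 2) * (pi2 - 2 * (1 / 3200) * v2) + 2 * (1 / 100) * v2 + 2 * 500 * t * p2) * d2
        + ((1 - t ^ 2) * (pi3 - 2 * (1 / 3200) * v3) + 2 * (1 / 100) * v3 + 2 * 500 * t * p3) * d3)
      + ((1 - t ^ 2) * (-2 * (1 / 10000) * SR) - 2 * 500 * (p1 * b1 + p2 * b2 + p3 * b3)
          + 2 * 10 ^ 21 * (sb - t) * rb)
      + (-2 * t * (q - 3 / 1000 - (1 / 3200) * (v1 ^ 2 + v2 ^ 2 + v3 ^ 2)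
        - (1 / 10000) * (S2 + 35)) + 2 * 500 * (p1 * v1 + p2 * v2 + p3 * v3)
          - 2 * 10 ^ 21 * (sb - t)) * e) =
    (1 - (t + e) ^ 2) * ((q' - q - (pi1 * d1 + pi2 * d2 + pi3 * d3))
        - (1 / 3200) * (d1 ^ 2 + d2 ^ 2 + d3 ^ 2) - (1 / 10000) * R2)
      - (t + (t + e)) * e * ((pi1 * d1 + pi2 * d2 + pi3 * d3)
          - 2 * (1 / 3200) * (v1 * d1 + v2 * d2 + v3 * d3) - 2 * (1 / 10000) * SR)
      - e ^ 2 * (q - 3 / 1000 - (1 / 3200) * (v1 ^ 2 + v2 ^ 2 + v3 ^ 2)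
          - (1 / 10000) * (S2 + 35))
      + (1 / 100) * (d1 ^ 2 + d2 ^ 2 + d3 ^ 2)
      + 500 * ((h1' - h1 - 2 * p1 * (((t + e) * (v1 + d1) - (a1 + b1)) - (t * v1 - a1)))
        + (h2' - h2 - 2 * p2 * (((t + e) * (v2 + d2) - (a2 + b2)) - (t * v2 - a2)))
        + (h3' - h3 - 2 * p3 * (((t + e) * (v3 + d3) - (a3 + b3)) - (t * v3 - a3))))
      + 2 * 500 * e * (p1 * d1 + p2 * d2 + p3 * d3) + 10 ^ 21 * (rb - e) ^ 2 := by
  ring

theorem As_add (s r : Fin 7 → ℝ) (i : Fin 3) : As (s + r) i = As s i + As r i := by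
  unfold As
  rw [← sum_add_distrib]
  exact sum_congr rfl (fun k _ => by simp only [Pi.add_apply]; ring)

theorem sum_sq_add (s r : Fin 7 → ℝ) :
    ∑ k, (s + r) k ^ 2 = ∑ k, s k ^ 2 + 2 * ∑ k, s k * r k + ∑ k, r k ^ 2 := by
  rw [mul_sum, ← sum_add_distrib, ← sum_add_distrib]
  exact sum_congr rfl (fun k _ => by simp only [Pi.add_apply]; ring)

theorem sum_ps (v : Fin 3 → ℝ) (s r : Fin 7 → ℝ) (t : ℝ) :
    ∑ k, ps v s t k * r k = (1 - t ^ 2) * (-2 * (1 / 10000) * ∑ k, s k * r k)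
      - 2 * 500 * (pr (t * v 0 - As s 0) * As r 0 + pr (t * v 1 - As s 1) * As r 1
        + pr (t * v 2 - As s 2) * As r 2)
      + 2 * 10 ^ 21 * ((∑ k, s k) - t) * ∑ k, r k := by
  unfold ps As
  simp only [Fin.sum_univ_three, mul_sum, ← sum_sub_distrib, ← sum_add_distrib]
  refine sum_congr rfl (fun k _ => ?_)
  ring

theorem Rem_eq (v d : Fin 3 → ℝ) (s r : Fin 7 → ℝ) (t e : ℝ) :
    Rem v d s r t e =
    (1 - (t + e) ^ 2) * ((g0 (v 0 + d 0) (v 1 + d 1) (v 2 + d 2) - g0 (v 0) (v 1) (v 2)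
          - (sl (v 0) (v 1) (v 2) * d 0 + sl (v 1) (v 0) (v 2) * d 1
            + sl (v 2) (v 0) (v 1) * d 2))
        - (1 / 3200) * (d 0 ^ 2 + d 1 ^ 2 + d 2 ^ 2) - (1 / 10000) * ∑ k, r k ^ 2)
      - (t + (t + e)) * e * ((sl (v 0) (v 1) (v 2) * d 0 + sl (v 1) (v 0) (v 2) * d 1
            + sl (v 2) (v 0) (v 1) * d 2)
          - 2 * (1 / 3200) * (v 0 * d 0 + v 1 * d 1 + v 2 * d 2)
          - 2 * (1 / 10000) * ∑ k, s k * r k)
      - e ^ 2 * (g0 (v 0) (v 1) (v 2) - 3 / 1000 - (1 / 3200) * (v 0 ^ 2 + v 1 ^ 2 + v 2 ^ 2)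
          - (1 / 10000) * ((∑ k, s k ^ 2) + 35))
      + (1 / 100) * (d 0 ^ 2 + d 1 ^ 2 + d 2 ^ 2)
      + 500 * (BH (t * v 0 - As s 0) ((t + e) * (v 0 + d 0) - (As s 0 + As r 0))
        + BH (t * v 1 - As s 1) ((t + e) * (v 1 + d 1) - (As s 1 + As r 1))
        + BH (t * v 2 - As s 2) ((t + e) * (v 2 + d 2) - (As s 2 + As r 2)))
      + 2 * 500 * e * (pr (t * v 0 - As s 0) * d 0 + pr (t * v 1 - As s 1) * d 1
        + pr (t * v 2 - As s 2) * d 2)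
      + 10 ^ 21 * ((∑ k, r k) - e) ^ 2 := by
  unfold Rem BH
  rw [← ident (sb := ∑ k, s k), sum_ps]
  unfold Gc pv pt sv gh
  rw [sum_sq_add]
  simp only [As_add, Fin.sum_univ_three, Pi.add_apply, sum_add_distrib]
  simp only [if_true, Fin.isValue, one_ne_zero, if_false,
    show ((2 : Fin 3) = 0) = False by simp, show ((2 : Fin 3) = 1) = False by simp]

theorem gsub (v d : Fin 3 → ℝ) :
    -(|d 0| * |d 1| + |d 0| * |d 2| + |d 1| * |d 2|) ≤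
      g0 (v 0 + d 0) (v 1 + d 1) (v 2 + d 2) - g0 (v 0) (v 1) (v 2)
          - (sl (v 0) (v 1) (v 2) * d 0 + sl (v 1) (v 0) (v 2) * d 1
            + sl (v 2) (v 0) (v 1) * d 2) := g0_sub _ _ _ _ _ _

theorem cs_le (f g : Fin 7 → ℝ) (S : Finset (Fin 7)) :
    (∑ k ∈ S, f k * g k) ^ 2 ≤ (∑ k, f k ^ 2) * ∑ k ∈ S, g k ^ 2 := by
  refine (sum_mul_sq_le_sq_mul_sq S f g).trans ?_
  refine mul_le_mul_of_nonneg_right ?_ (sum_nonneg (fun _ _ => sq_nonneg _))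
  exact sum_le_sum_of_subset_of_nonneg (subset_univ _) (fun _ _ _ => sq_nonneg _)

theorem sum_one_sq : ∑ _k : Fin 7, (1 : ℝ) ^ 2 = 7 := by simp

theorem sum_sq_le7 (r : Fin 7 → ℝ) (S : Finset (Fin 7)) :
    (∑ k ∈ S, r k) ^ 2 ≤ 7 * ∑ k ∈ S, r k ^ 2 := by
  have := cs_le (fun _ => 1) r S
  rw [sum_one_sq] at this
  simpa using this

theorem sum_well_sq_le (i : Fin 3) (r : Fin 7 → ℝ) (S : Finset (Fin 7)) :
    (∑ k ∈ S, well k i * r k) ^ 2 ≤ 7 * ∑ k ∈ S, r k ^ 2 := by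
  have h := cs_le (fun k => well k i) r S
  refine h.trans ?_
  refine mul_le_mul_of_nonneg_right ?_ (sum_nonneg (fun _ _ => sq_nonneg _))
  calc ∑ k, well k i ^ 2 ≤ ∑ _k : Fin 7, (1 : ℝ) := sum_le_sum (fun k _ => by
        rcases well_cases k i with h | h <;> rw [h] <;> norm_num)
    _ = 7 := by simp

theorem Rem_V (v d : Fin 3 → ℝ) (s r : Fin 7 → ℝ) (t e : ℝ) (ht : |t| ≤ 1)
    (ht' : |t + e| ≤ 1) :
    -(|d 0| * |d 1| + |d 0| * |d 2| + |d 1| * |d 2|) + (1 / 200) * (d 0 ^ 2 + d 1 ^ 2 + d 2 ^ 2)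
      - 10 ^ 22 * ∑ k, r k ^ 2 ≤ Rem v d s r t e := by
  rw [Rem_eq]
  refine stepV (v 0) (v 1) (v 2) (d 0) (d 1) (d 2) t e _ _ _ _ _ _ _ _ _ _ _ _ _ ht ht'
    (gsub v d) (sl_abs _ _ _) (sl_abs _ _ _) (sl_abs _ _ _) (g0_le _ _ _)
    (sum_nonneg (fun _ _ => sq_nonneg _)) (sum_nonneg (fun _ _ => sq_nonneg _))
    ?_ ?_ ?_ (pr_abs _) (pr_abs _) (pr_abs _)
  · exact cs_le s r univ
  · exact sum_sq_le7 r univ
  · have := H_sub_nonneg
    unfold BH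
    exact add_nonneg (add_nonneg (this _ _) (this _ _)) (this _ _)

theorem Rem_S (v d : Fin 3 → ℝ) (s r : Fin 7 → ℝ) (t e : ℝ) (ht : |t| ≤ 1)
    (ht' : |t + e| ≤ 1) (k : Fin 7) :
    -(3 * 10 ^ 22 * (d 0 ^ 2 + d 1 ^ 2 + d 2 ^ 2 + ∑ j ∈ univ.erase k, r j ^ 2)) ≤
      Rem v d s r t e := by
  rw [Rem_eq]
  have he : |e| ≤ 2 := by
    have h1 : e = (t + e) + (-t) := by ring
    rw [h1]
    calc |(t + e) + (-t)| ≤ |t + e| + |(-t)| := abs_add_le _ _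
      _ ≤ 2 := by rw [abs_neg]; linarith
  have s1 : ∑ j, r j ^ 2 = r k ^ 2 + ∑ j ∈ univ.erase k, r j ^ 2 :=
    (add_sum_erase univ (fun j => r j ^ 2) (mem_univ k)).symm
  have s2 : ∑ j, s j * r j = s k * r k + ∑ j ∈ univ.erase k, s j * r j :=
    (add_sum_erase univ (fun j => s j * r j) (mem_univ k)).symm
  have s3 : ∑ j, r j = r k + ∑ j ∈ univ.erase k, r j :=
    (add_sum_erase univ (fun j => r j) (mem_univ k)).symm
  have s4 : ∀ i, As r i = well k i * r k + ∑ j ∈ univ.erase k, well j i * r j := fun i =>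
    (add_sum_erase univ (fun j => well j i * r j) (mem_univ k)).symm
  have hstar : ∀ i, e ^ 2 * (|v i - well k i| - 1 / 1000)
      - 500 * (well k i * (r k - e) - (t + e) * d i + ∑ j ∈ univ.erase k, well j i * r j) ^ 2 ≤
      500 * BH (t * v i - As s i) ((t + e) * (v i + d i) - (As s i + As r i))
        + e ^ 2 * ((1 / 6400) * v i ^ 2 + (1 / 420000) * As s i ^ 2) := by
    intro i
    have h := star (x' := (t + e) * (v i + d i) - (As s i + As r i)) ht he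
      (well_cases k i) (rfl : t * v i - As s i = t * v i - As s i)
    have h2 : e * (v i - well k i) - ((t + e) * (v i + d i) - (As s i + As r i)
        - (t * v i - As s i)) =
        well k i * (r k - e) - (t + e) * d i + ∑ j ∈ univ.erase k, well j i * r j := by
      rw [s4 i]; ring
    rw [h2] at h
    exact h
  rw [s1, s2, s3]
  refine stepS (v 0) (v 1) (v 2) (d 0) (d 1) (d 2) t e _ _ _ _ _ _ _ _ _ _ _
    (well k 0) (well k 1) (well k 2) (As s 0) (As s 1) (As s 2) _ _ _ _ _ _ _ _ _ ht ht'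
    (gsub v d) (sl_abs _ _ _) (sl_abs _ _ _) (sl_abs _ _ _)
    (g0_well _ _ _ _ _ _ (well_cases k 0) (well_cases k 1) (well_cases k 2) (well_zero k))
    (sum_nonneg (fun _ _ => sq_nonneg _)) (sum_nonneg (fun _ _ => sq_nonneg _))
    (cs_le s r _) (sum_sq_le7 r _) ?_ (well_abs _ _) (well_abs _ _) (well_abs _ _)
    (sum_well_sq_le 0 s univ) (sum_well_sq_le 1 s univ) (sum_well_sq_le 2 s univ)
    (sum_well_sq_le 0 r _) (sum_well_sq_le 1 r _) (sum_well_sq_le 2 r _)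
    (hstar 0) (hstar 1) (hstar 2) (pr_abs _) (pr_abs _) (pr_abs _)
  exact single_le_sum (f := fun j => s j ^ 2) (fun _ _ => sq_nonneg _) (mem_univ k)

/-- Steps whose main direction is that of the column `a ∈ {0,1,2}`. -/
theorem Rem_V' (v d : Fin 3 → ℝ) (s r : Fin 7 → ℝ) (t e : ℝ) (ht : |t| ≤ 1)
    (ht' : |t + e| ≤ 1) (a : Fin 3) :
    -(10 ^ 23 * ((∑ i ∈ univ.erase a, d i ^ 2) + ∑ k, r k ^ 2)) ≤ Rem v d s r t e := by
  have h := Rem_V v d s r t e ht ht'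
  have hr : 0 ≤ ∑ k, r k ^ 2 := sum_nonneg (fun _ _ => sq_nonneg _)
  have key : ∀ x y z : ℝ, -(200 * (y ^ 2 + z ^ 2)) ≤
      -(|x| * |y| + |x| * |z| + |y| * |z|) + (1 / 200) * (x ^ 2 + y ^ 2 + z ^ 2) := by
    intro x y z
    rw [← sq_abs x, ← sq_abs y, ← sq_abs z]
    nlinarith [sq_nonneg (|x| - 200 * |y|), sq_nonneg (|x| - 200 * |z|),
      sq_nonneg (|y| - |z|), sq_nonneg |x|, sq_nonneg |y|, sq_nonneg |z|]
  have hsum : ∀ f : Fin 3 → ℝ, ∑ i ∈ univ.erase a, f i = (∑ i, f i) - f a := by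
    intro f
    rw [← add_sum_erase univ f (mem_univ a)]; ring
  rw [hsum, Fin.sum_univ_three]
  fin_cases a
  · have := key (d 0) (d 1) (d 2)
    simp only [Fin.zero_eta, Fin.isValue]
    nlinarith [sq_nonneg (d 1), sq_nonneg (d 2)]
  · have := key (d 1) (d 0) (d 2)
    simp only [Fin.mk_one, Fin.isValue]
    nlinarith [sq_nonneg (d 0), sq_nonneg (d 2)]
  · have := key (d 2) (d 0) (d 1)
    simp only [Fin.reduceFinMk, Fin.isValue]
    nlinarith [sq_nonneg (d 0), sq_nonneg (d 1)]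

end Pool.Agent.Lib.MP_393ee6_an
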