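import Mathlib

/-!
Definitions for MP_393ee6_an: effective tensors of periodic two-phase microstructures in the
plane, the G-closure, multiple-rank laminates and their closure.

`Sn n` is the space of real 2 x n matrices, written as functions on `Fin 2 × Fin n`; the entry
`(a, j)` is the `a`-th component of the `j`-th field. `Tens n` is the space of linear maps of
`Sn n` (as matrices).
-/

open MeasureTheory Matrix

namespace Pool.Agent.Lib.MP_393ee6_an

/-- The space of real `2 × n` matrices. -/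
abbrev Sn (n : ℕ) := Fin 2 × Fin n → ℝ

/-- Linear maps of `Sn n`, written as matrices. -/
abbrev Tens (n : ℕ) := Matrix (Fin 2 × Fin n) (Fin 2 × Fin n) ℝ

/-- The unit cell `[0,1) × [0,1)`. -/
def cell : Set (ℝ × ℝ) := Set.Ico (0 : ℝ) 1 ×ˢ Set.Ico (0 : ℝ) 1

/-- A periodic potential (of class `C¹`): it has period 1 in both variables. -/
structure Pot (V : ℝ × ℝ → ℝ) : Prop where
  smooth : ContDiff ℝ 1 V
  periodic : ∀ (x : ℝ × ℝ) (p q : ℤ), V (x.1 + p, x.2 + q) = V x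

/-- The field whose `j`-th column is the gradient of the potential `V j`. -/
noncomputable def gradF {n : ℕ} (V : Fin n → ℝ × ℝ → ℝ) (x : ℝ × ℝ) : Sn n :=
  fun i => fderiv ℝ (V i.2) x (if i.1 = 0 then ((1 : ℝ), (0 : ℝ)) else ((0 : ℝ), (1 : ℝ)))

open Classical in
/-- The local tensor `L(x)`: it is `L₁` on the phase-1 region `D` and `L₂` off it. -/
noncomputable def locT {n : ℕ} (L₁ L₂ : Tens n) (D : Set (ℝ × ℝ)) (x : ℝ × ℝ) : Tens n :=
  if x ∈ D then L₁ else L₂

/-- `E` solves the cell problem with mean field `e₀`: `E` is square integrable over the cell,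
`E - e₀` is a limit in `L²(cell)` of gradients of periodic potentials, and `J = L(x) E` is
divergence free (in the weak sense). -/
structure IsCellSolution {n : ℕ} (L₁ L₂ : Tens n) (D : Set (ℝ × ℝ)) (e₀ : Sn n)
    (E : ℝ × ℝ → Sn n) : Prop where
  memL2 : MemLp E 2 (volume.restrict cell)
  isField : ∀ ε : ℝ, 0 < ε → ∃ V : Fin n → ℝ × ℝ → ℝ, (∀ j, Pot (V j)) ∧
    ∫ x in cell, ∑ i, (E x i - e₀ i - gradF V x i) ^ 2 < ε
  divFree : ∀ V : Fin n → ℝ × ℝ → ℝ, (∀ j, Pot (V j)) →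
    ∫ x in cell, gradF V x ⬝ᵥ (locT L₁ L₂ D x *ᵥ E x) = 0

/-- `A` is the effective tensor of the microstructure with phase-1 region `D`: for every mean
field `e₀` the mean of `J = L(x) E` is `A e₀`, where `E` solves the cell problem. -/
def IsEffective {n : ℕ} (L₁ L₂ : Tens n) (D : Set (ℝ × ℝ)) (A : Tens n) : Prop :=
  ∀ e₀ : Sn n, ∃ E : ℝ × ℝ → Sn n, IsCellSolution L₁ L₂ D e₀ E ∧
    ∀ i, (A *ᵥ e₀) i = ∫ x in cell, (locT L₁ L₂ D x *ᵥ E x) i

/-- The G-closure with volume fraction `f` of phase 1. -/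
def Gclosure {n : ℕ} (f : ℝ) (L₁ L₂ : Tens n) : Set (Tens n) :=
  closure {A | ∃ D : Set (ℝ × ℝ), MeasurableSet D ∧
    (∀ (x : ℝ × ℝ) (p q : ℤ), (x.1 + (p : ℝ), x.2 + (q : ℝ)) ∈ D ↔ x ∈ D) ∧
    (volume (D ∩ cell)).toReal = f ∧ IsEffective L₁ L₂ D A}

/-- `C` is the effective tensor of the simple layering, with layers normal to `ν`, of the
tensor `A` (volume fraction `θ`) and the tensor `B` (volume fraction `1 - θ`): for every mean
field `F` there are constant fields `F₁` (in `A`) and `F₂` (in `B`) with mean `F`, whose columns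
jump only along `ν`, such that the normal component of the flux does not jump, and `C F` is the
mean flux. -/
def IsLayering {n : ℕ} (θ : ℝ) (ν : Fin 2 → ℝ) (A B C : Tens n) : Prop :=
  ∀ F : Sn n, ∃ (F₁ F₂ : Sn n) (c : Fin n → ℝ),
    F = θ • F₁ + (1 - θ) • F₂ ∧
    (∀ i, F₁ i - F₂ i = ν i.1 * c i.2) ∧
    (∀ j, ∑ a, ν a * ((A *ᵥ F₁) (a, j) - (B *ᵥ F₂) (a, j)) = 0) ∧
    C *ᵥ F = θ • (A *ᵥ F₁) + (1 - θ) • (B *ᵥ F₂)

/-- Effective tensors of multiple-rank laminates with volume fraction `f` of phase 1. -/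
inductive IsLaminate {n : ℕ} (L₁ L₂ : Tens n) : ℝ → Tens n → Prop
  | phase1 : IsLaminate L₁ L₂ 1 L₁
  | phase2 : IsLaminate L₁ L₂ 0 L₂
  | layer {f₁ f₂ θ : ℝ} {ν : Fin 2 → ℝ} {A B C : Tens n} :
      IsLaminate L₁ L₂ f₁ A → IsLaminate L₁ L₂ f₂ B → 0 ≤ θ → θ ≤ 1 → ν ≠ 0 →
      IsLayering θ ν A B C → IsLaminate L₁ L₂ (θ * f₁ + (1 - θ) * f₂) C

/-- The closure of the set of laminates with volume fraction `f` of phase 1. -/
def Lclosure {n : ℕ} (f : ℝ) (L₁ L₂ : Tens n) : Set (Tens n) :=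
  closure {A | IsLaminate L₁ L₂ f A}

end Pool.Agent.Lib.MP_393ee6_an
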