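import Pool.Agent.Lib.MP_393ee6_an.Data

/-!
Piece EFF of MP_393ee6_an: existence of the effective tensor of a periodic microstructure
(Lax-Milgram on the closure of periodic gradients) and the variational upper bound.
-/

open MeasureTheory Matrix
open scoped InnerProductSpace ENNReal

namespace Pool.Agent.Lib.MP_393ee6_an

namespace Eff

variable {n : ℕ}

/-- Euclidean version of `Sn n`. -/
abbrev En (n : ℕ) := EuclideanSpace ℝ (Fin 2 × Fin n)

/-- Lebesgue measure on the cell. -/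
noncomputable abbrev μc : Measure (ℝ × ℝ) := volume.restrict cell

lemma measurableSet_cell : MeasurableSet cell := measurableSet_Ico.prod measurableSet_Ico

lemma volume_cell : volume cell = 1 := by
  rw [cell, Measure.volume_eq_prod, Measure.prod_prod]; simp

instance : IsProbabilityMeasure μc := ⟨by simp [μc, volume_cell]⟩

/-- The Hilbert space of square integrable fields on the cell. -/
noncomputable abbrev Hn (n : ℕ) := Lp (En n) 2 μc

/-- A tensor as a continuous linear map. -/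
noncomputable def tensL (L : Tens n) : En n →L[ℝ] En n :=
  LinearMap.toContinuousLinearMap (Matrix.toEuclideanLin L)

lemma tensL_apply (L : Tens n) (x : En n) : tensL L x = WithLp.toLp 2 (L *ᵥ x.ofLp) := rfl

lemma inner_eq_dot (x y : En n) : ⟪x, y⟫_ℝ = x.ofLp ⬝ᵥ y.ofLp := by
  rw [EuclideanSpace.inner_eq_star_dotProduct, dotProduct_comm]; simp

lemma inner_tensL (L : Tens n) (x y : En n) : ⟪y, tensL L x⟫_ℝ = y.ofLp ⬝ᵥ (L *ᵥ x.ofLp) := by
  rw [inner_eq_dot, tensL_apply]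

/-- The operator of pointwise multiplication by the local tensor. -/
noncomputable def TT (L₁ L₂ : Tens n) (D : Set (ℝ × ℝ)) : Hn n →L[ℝ] Hn n :=
  (LpToLpRestrictCLM (ℝ × ℝ) (En n) ℝ μc 2 D).adjoint ∘L ((tensL L₁).compLpL 2 _) ∘L
      (LpToLpRestrictCLM (ℝ × ℝ) (En n) ℝ μc 2 D) +
    (LpToLpRestrictCLM (ℝ × ℝ) (En n) ℝ μc 2 Dᶜ).adjoint ∘L ((tensL L₂).compLpL 2 _) ∘L
      (LpToLpRestrictCLM (ℝ × ℝ) (En n) ℝ μc 2 Dᶜ)

lemma inner_piece (L : Tens n) (D : Set (ℝ × ℝ)) (f g : Hn n) :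
    ⟪g, ((LpToLpRestrictCLM (ℝ × ℝ) (En n) ℝ μc 2 D).adjoint ∘L ((tensL L).compLpL 2 _) ∘L
      (LpToLpRestrictCLM (ℝ × ℝ) (En n) ℝ μc 2 D)) f⟫_ℝ =
      ∫ x in D, (g x).ofLp ⬝ᵥ (L *ᵥ (f x).ofLp) ∂μc := by
  simp only [ContinuousLinearMap.comp_apply]
  rw [ContinuousLinearMap.adjoint_inner_right, L2.inner_def]
  apply integral_congr_ae
  filter_upwards [LpToLpRestrictCLM_coeFn ℝ D g, LpToLpRestrictCLM_coeFn ℝ D f,
    ContinuousLinearMap.coeFn_compLpL (μ := μc.restrict D) (p := 2) (tensL L)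
      (LpToLpRestrictCLM (ℝ × ℝ) (En n) ℝ μc 2 D f)] with x h1 h2 h3
  rw [h3, h1, h2, inner_tensL]

lemma integrable_piece (L : Tens n) (f g : Hn n) :
    Integrable (fun x => (g x).ofLp ⬝ᵥ (L *ᵥ (f x).ofLp)) μc := by
  have h := L2.integrable_inner (𝕜 := ℝ) g ((tensL L).compLpL 2 μc f)
  refine h.congr ?_
  filter_upwards [ContinuousLinearMap.coeFn_compLpL (μ := μc) (p := 2) (tensL L) f] with x h3
  rw [h3, inner_tensL]

open Classical in
lemma dot_eq_piecewise (L₁ L₂ : Tens n) (D : Set (ℝ × ℝ)) (F G : ℝ × ℝ → Sn n) :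
    (fun x => G x ⬝ᵥ (locT L₁ L₂ D x *ᵥ F x)) =
      D.piecewise (fun x => G x ⬝ᵥ (L₁ *ᵥ F x)) (fun x => G x ⬝ᵥ (L₂ *ᵥ F x)) := by
  funext x
  by_cases hx : x ∈ D <;> simp [locT, hx]

lemma inner_TT (L₁ L₂ : Tens n) {D : Set (ℝ × ℝ)} (hD : MeasurableSet D) (f g : Hn n) :
    ⟪g, TT L₁ L₂ D f⟫_ℝ = ∫ x, (g x).ofLp ⬝ᵥ (locT L₁ L₂ D x *ᵥ (f x).ofLp) ∂μc := by
  classical
  rw [TT, _root_.add_apply, inner_add_right, inner_piece, inner_piece]
  rw [dot_eq_piecewise, integral_piecewise hD]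
  · exact (integrable_piece L₁ f g).integrableOn
  · exact (integrable_piece L₂ f g).integrableOn

/-- The class in `Hn n` of a field. -/
noncomputable def cls (F : ℝ × ℝ → Sn n) (hF : MemLp F 2 μc) : Hn n :=
  MemLp.toLp (fun x => (WithLp.toLp 2 (F x) : En n))
    ((PiLp.continuousLinearEquiv 2 ℝ (fun _ : Fin 2 × Fin n => ℝ)).symm.toContinuousLinearMap.comp_memLp' hF)

lemma coe_cls (F : ℝ × ℝ → Sn n) (hF : MemLp F 2 μc) :
    (cls F hF : ℝ × ℝ → En n) =ᵐ[μc] fun x => (WithLp.toLp 2 (F x) : En n) :=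
  MemLp.coeFn_toLp _

lemma inner_TT_cls (L₁ L₂ : Tens n) {D : Set (ℝ × ℝ)} (hD : MeasurableSet D)
    (F G : ℝ × ℝ → Sn n) (hF : MemLp F 2 μc) (hG : MemLp G 2 μc) :
    ⟪cls G hG, TT L₁ L₂ D (cls F hF)⟫_ℝ = ∫ x, G x ⬝ᵥ (locT L₁ L₂ D x *ᵥ F x) ∂μc := by
  rw [inner_TT L₁ L₂ hD]
  apply integral_congr_ae
  filter_upwards [coe_cls F hF, coe_cls G hG] with x h1 h2
  rw [h1, h2]

/-! ### Symmetry and coercivity -/

lemma dot_symm {L : Tens n} (h : L.PosDef) (x y : Sn n) : y ⬝ᵥ (L *ᵥ x) = x ⬝ᵥ (L *ᵥ y) := by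
  have hs : Lᵀ = L := by
    have := h.1
    rw [Matrix.IsHermitian, Matrix.conjTranspose_eq_transpose_of_trivial] at this
    exact this
  rw [Matrix.dotProduct_mulVec, ← Matrix.mulVec_transpose, hs, dotProduct_comm]

lemma exists_coercive {L : Tens n} (h : L.PosDef) :
    ∃ c : ℝ, 0 < c ∧ ∀ x : En n, c * ‖x‖ ^ 2 ≤ x.ofLp ⬝ᵥ (L *ᵥ x.ofLp) := by
  have hcont : Continuous fun x : En n => x.ofLp ⬝ᵥ (L *ᵥ x.ofLp) := by
    have : (fun x : En n => x.ofLp ⬝ᵥ (L *ᵥ x.ofLp)) = fun x : En n => ⟪x, tensL L x⟫_ℝ := by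
      funext x; rw [inner_tensL]
    rw [this]
    exact continuous_id.inner (tensL L).continuous
  by_cases hne : (Metric.sphere (0 : En n) 1).Nonempty
  · obtain ⟨x₀, hx₀, hmin⟩ := (isCompact_sphere (0 : En n) 1).exists_isMinOn hne hcont.continuousOn
    have hx₀' : ‖x₀‖ = 1 := by simpa using hx₀
    have hne0 : x₀.ofLp ≠ 0 := by
      intro h0
      have : x₀ = 0 := by
        ext i; simpa using congrFun h0 i
      rw [this] at hx₀'; simp at hx₀'
    refine ⟨x₀.ofLp ⬝ᵥ (L *ᵥ x₀.ofLp), ?_, ?_⟩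
    · have := h.dotProduct_mulVec_pos hne0
      simpa using this
    · intro x
      by_cases hx : x = 0
      · subst hx; simp
      · have hxn : ‖x‖ ≠ 0 := norm_ne_zero_iff.mpr hx
        have hu : ‖x‖⁻¹ • x ∈ Metric.sphere (0 : En n) 1 := by
          simp [norm_smul, hxn]
        have h1 := hmin hu
        simp only [Set.mem_ofPred_eq, WithLp.ofLp_smul, Matrix.mulVec_smul, dotProduct_smul,
          smul_dotProduct, smul_eq_mul] at h1
        have h2 : 0 < ‖x‖ ^ 2 := by positivity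
        calc x₀.ofLp ⬝ᵥ (L *ᵥ x₀.ofLp) * ‖x‖ ^ 2
            ≤ (‖x‖⁻¹ * (‖x‖⁻¹ * (x.ofLp ⬝ᵥ (L *ᵥ x.ofLp)))) * ‖x‖ ^ 2 :=
              mul_le_mul_of_nonneg_right h1 h2.le
          _ = x.ofLp ⬝ᵥ (L *ᵥ x.ofLp) := by field_simp
  · refine ⟨1, one_pos, fun x => ?_⟩
    have hx : x = 0 := by
      by_contra hx
      apply hne
      refine ⟨‖x‖⁻¹ • x, ?_⟩
      have hxn : ‖x‖ ≠ 0 := norm_ne_zero_iff.mpr hx
      simp [norm_smul, hxn]
    subst hx; simp

lemma TT_symm {L₁ L₂ : Tens n} (h₁ : L₁.PosDef) (h₂ : L₂.PosDef) {D : Set (ℝ × ℝ)}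
    (hD : MeasurableSet D) (f g : Hn n) : ⟪g, TT L₁ L₂ D f⟫_ℝ = ⟪f, TT L₁ L₂ D g⟫_ℝ := by
  rw [inner_TT _ _ hD, inner_TT _ _ hD]
  apply integral_congr_ae
  filter_upwards with x
  by_cases hx : x ∈ D
  · simp only [locT, hx, if_true]; exact dot_symm h₁ _ _
  · simp only [locT, hx, if_false]; exact dot_symm h₂ _ _

lemma integrable_loc (L₁ L₂ : Tens n) {D : Set (ℝ × ℝ)} (hD : MeasurableSet D) (f g : Hn n) :
    Integrable (fun x => (g x).ofLp ⬝ᵥ (locT L₁ L₂ D x *ᵥ (f x).ofLp)) μc := by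
  classical
  rw [dot_eq_piecewise]
  exact Integrable.piecewise hD (integrable_piece L₁ f g).integrableOn
    (integrable_piece L₂ f g).integrableOn

lemma TT_coercive {L₁ L₂ : Tens n} (h₁ : L₁.PosDef) (h₂ : L₂.PosDef) {D : Set (ℝ × ℝ)}
    (hD : MeasurableSet D) : ∃ c : ℝ, 0 < c ∧ ∀ f : Hn n, c * ‖f‖ ^ 2 ≤ ⟪f, TT L₁ L₂ D f⟫_ℝ := by
  obtain ⟨c₁, hc₁, H₁⟩ := exists_coercive h₁
  obtain ⟨c₂, hc₂, H₂⟩ := exists_coercive h₂
  refine ⟨min c₁ c₂, lt_min hc₁ hc₂, fun f => ?_⟩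
  rw [inner_TT _ _ hD, ← real_inner_self_eq_norm_sq, L2.inner_def, ← integral_const_mul]
  apply integral_mono
  · exact (L2.integrable_inner (𝕜 := ℝ) f f).const_mul _
  · exact integrable_loc L₁ L₂ hD f f
  · intro x
    simp only
    rw [real_inner_self_eq_norm_sq]
    by_cases hx : x ∈ D
    · simp only [locT, hx, if_true]
      exact (mul_le_mul_of_nonneg_right (min_le_left _ _) (by positivity)).trans (H₁ _)
    · simp only [locT, hx, if_false]
      exact (mul_le_mul_of_nonneg_right (min_le_right _ _) (by positivity)).trans (H₂ _)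

/-! ### Gradients -/

lemma pot_add {V W : ℝ × ℝ → ℝ} (hV : Pot V) (hW : Pot W) : Pot (fun x => V x + W x) :=
  ⟨hV.smooth.add hW.smooth, fun x p q => by simp [hV.periodic, hW.periodic]⟩

lemma pot_smul {V : ℝ × ℝ → ℝ} (c : ℝ) (hV : Pot V) : Pot (fun x => c * V x) :=
  ⟨contDiff_const.mul hV.smooth, fun x p q => by simp [hV.periodic]⟩

lemma pot_zero : Pot (fun _ => 0) := ⟨contDiff_const, fun _ _ _ => rfl⟩

lemma gradF_add {V W : Fin n → ℝ × ℝ → ℝ} (hV : ∀ j, Pot (V j)) (hW : ∀ j, Pot (W j))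
    (x : ℝ × ℝ) : gradF (fun j x => V j x + W j x) x = gradF V x + gradF W x := by
  funext i
  simp only [gradF, Pi.add_apply]
  rw [fderiv_fun_add ((hV _).smooth.differentiable one_ne_zero x)
    ((hW _).smooth.differentiable one_ne_zero x)]
  simp

lemma gradF_smul {V : Fin n → ℝ × ℝ → ℝ} (c : ℝ) (hV : ∀ j, Pot (V j))
    (x : ℝ × ℝ) : gradF (fun j x => c * V j x) x = c • gradF V x := by
  funext i
  simp only [gradF, Pi.smul_apply, smul_eq_mul]
  rw [fderiv_const_mul ((hV _).smooth.differentiable one_ne_zero x)]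
  simp

lemma gradF_zero (x : ℝ × ℝ) : gradF (fun (_ : Fin n) (_ : ℝ × ℝ) => (0 : ℝ)) x = 0 := by
  funext i
  simp [gradF]

lemma continuous_gradF {V : Fin n → ℝ × ℝ → ℝ} (hV : ∀ j, Pot (V j)) : Continuous (gradF V) := by
  apply continuous_pi
  intro i
  exact ((hV i.2).smooth.continuous_fderiv one_ne_zero).clm_apply continuous_const

lemma memLp_gradF {V : Fin n → ℝ × ℝ → ℝ} (hV : ∀ j, Pot (V j)) : MemLp (gradF V) 2 μc := by
  have hc := continuous_gradF hV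
  obtain ⟨C, hC⟩ := ((isCompact_Icc (a := (0 : ℝ)) (b := 1)).prod
    (isCompact_Icc (a := (0 : ℝ)) (b := 1))).exists_bound_of_continuousOn hc.continuousOn
  apply MemLp.of_bound hc.aestronglyMeasurable C
  filter_upwards [ae_restrict_mem measurableSet_cell] with x hx
  exact hC x ⟨Set.Ico_subset_Icc_self hx.1, Set.Ico_subset_Icc_self hx.2⟩

/-- The submodule of classes of gradients. -/
noncomputable def GG (n : ℕ) : Submodule ℝ (Hn n) where
  carrier := {f | ∃ (V : Fin n → ℝ × ℝ → ℝ) (hV : ∀ j, Pot (V j)), f = cls (gradF V) (memLp_gradF hV)}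
  zero_mem' := by
    refine ⟨fun _ _ => 0, fun _ => pot_zero, ?_⟩
    symm
    apply Lp.ext
    refine (coe_cls _ _).trans ?_
    filter_upwards [Lp.coeFn_zero (En n) 2 μc] with x hx
    rw [hx, gradF_zero]; rfl
  add_mem' := by
    rintro f g ⟨V, hV, rfl⟩ ⟨W, hW, rfl⟩
    refine ⟨fun j x => V j x + W j x, fun j => pot_add (hV j) (hW j), ?_⟩
    apply Lp.ext
    filter_upwards [coe_cls (gradF V) (memLp_gradF hV), coe_cls (gradF W) (memLp_gradF hW),
      coe_cls (gradF fun j x => V j x + W j x) (memLp_gradF fun j => pot_add (hV j) (hW j)),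
      Lp.coeFn_add (cls (gradF V) (memLp_gradF hV)) (cls (gradF W) (memLp_gradF hW))]
      with x h1 h2 h3 h4
    rw [h4, h3, Pi.add_apply, h1, h2, gradF_add hV hW]; rfl
  smul_mem' := by
    rintro c f ⟨V, hV, rfl⟩
    refine ⟨fun j x => c * V j x, fun j => pot_smul c (hV j), ?_⟩
    apply Lp.ext
    filter_upwards [coe_cls (gradF V) (memLp_gradF hV),
      coe_cls (gradF fun j x => c * V j x) (memLp_gradF fun j => pot_smul c (hV j)),
      Lp.coeFn_smul c (cls (gradF V) (memLp_gradF hV))] with x h1 h3 h4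
    rw [h4, h3, Pi.smul_apply, h1, gradF_smul c hV]; rfl

/-- The closed subspace of limits of gradients. -/
noncomputable def UU (n : ℕ) : Submodule ℝ (Hn n) := (GG n).topologicalClosure

/-! ### Classes of constants and of differences -/

lemma memLp_const' (e₀ : Sn n) : MemLp (fun _ : ℝ × ℝ => e₀) 2 μc := memLp_const e₀

lemma cls_sub {F G : ℝ × ℝ → Sn n} (hF : MemLp F 2 μc) (hG : MemLp G 2 μc) :
    cls F hF - cls G hG = cls (fun x => F x - G x) (hF.sub hG) := by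
  apply Lp.ext
  filter_upwards [coe_cls F hF, coe_cls G hG, coe_cls (fun x => F x - G x) (hF.sub hG),
    Lp.coeFn_sub (cls F hF) (cls G hG)] with x h1 h2 h3 h4
  rw [h4, h3, Pi.sub_apply, h1, h2]; rfl

lemma cls_add {F G : ℝ × ℝ → Sn n} (hF : MemLp F 2 μc) (hG : MemLp G 2 μc) :
    cls F hF + cls G hG = cls (fun x => F x + G x) (hF.add hG) := by
  apply Lp.ext
  filter_upwards [coe_cls F hF, coe_cls G hG, coe_cls (fun x => F x + G x) (hF.add hG),
    Lp.coeFn_add (cls F hF) (cls G hG)] with x h1 h2 h3 h4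
  rw [h4, h3, Pi.add_apply, h1, h2]; rfl

lemma norm_sq_cls {F : ℝ × ℝ → Sn n} (hF : MemLp F 2 μc) :
    ‖cls F hF‖ ^ 2 = ∫ x, ∑ i, (F x i) ^ 2 ∂μc := by
  rw [← real_inner_self_eq_norm_sq, L2.inner_def]
  apply integral_congr_ae
  filter_upwards [coe_cls F hF] with x h1
  rw [h1, inner_eq_dot]
  simp [dotProduct, sq]

/-- A field coming from an element of `Hn`. -/
noncomputable def fn (f : Hn n) : ℝ × ℝ → Sn n := fun x => (f x).ofLp

lemma memLp_fn (f : Hn n) : MemLp (fn f) 2 μc :=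
  (PiLp.continuousLinearEquiv 2 ℝ (fun _ : Fin 2 × Fin n => ℝ)).toContinuousLinearMap.comp_memLp'
    (Lp.memLp f)

lemma cls_fn (f : Hn n) : cls (fn f) (memLp_fn f) = f := by
  apply Lp.ext
  refine (coe_cls _ _).trans ?_
  filter_upwards with x
  rfl

lemma exists_grad_of_mem {F : ℝ × ℝ → Sn n} (hF : MemLp F 2 μc) (h : cls F hF ∈ UU n)
    {ε : ℝ} (hε : 0 < ε) : ∃ V : Fin n → ℝ × ℝ → ℝ, (∀ j, Pot (V j)) ∧
    ∫ x in cell, ∑ i, (F x i - gradF V x i) ^ 2 < ε := by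
  have h' : cls F hF ∈ closure (GG n : Set (Hn n)) := h
  rw [Metric.mem_closure_iff] at h'
  obtain ⟨g, ⟨V, hV, rfl⟩, hg⟩ := h' (Real.sqrt ε) (Real.sqrt_pos.mpr hε)
  refine ⟨V, hV, ?_⟩
  rw [dist_eq_norm, cls_sub hF (memLp_gradF hV)] at hg
  have h2 := norm_sq_cls (F := fun x => F x - gradF V x) (hF.sub (memLp_gradF hV))
  have h3 : ‖cls (fun x => F x - gradF V x) (hF.sub (memLp_gradF hV))‖ ^ 2 < ε := by
    calc _ < Real.sqrt ε ^ 2 := by
          exact pow_lt_pow_left₀ hg (norm_nonneg _) two_ne_zero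
      _ = ε := Real.sq_sqrt hε.le
  rw [h2] at h3
  exact h3

lemma mem_of_exists_grad {F : ℝ × ℝ → Sn n} (hF : MemLp F 2 μc)
    (h : ∀ ε : ℝ, 0 < ε → ∃ V : Fin n → ℝ × ℝ → ℝ, (∀ j, Pot (V j)) ∧
      ∫ x in cell, ∑ i, (F x i - gradF V x i) ^ 2 < ε) : cls F hF ∈ UU n := by
  change cls F hF ∈ closure (GG n : Set (Hn n))
  rw [Metric.mem_closure_iff]
  intro ε hε
  obtain ⟨V, hV, hlt⟩ := h (ε ^ 2) (by positivity)
  refine ⟨cls (gradF V) (memLp_gradF hV), ⟨V, hV, rfl⟩, ?_⟩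
  rw [dist_eq_norm, cls_sub hF (memLp_gradF hV)]
  have h2 := norm_sq_cls (F := fun x => F x - gradF V x) (hF.sub (memLp_gradF hV))
  have h3 : ‖cls (fun x => F x - gradF V x) (hF.sub (memLp_gradF hV))‖ ^ 2 < ε ^ 2 := by
    rw [h2]; exact hlt
  exact lt_of_pow_lt_pow_left₀ 2 hε.le h3

lemma gradF_mem {V : Fin n → ℝ × ℝ → ℝ} (hV : ∀ j, Pot (V j)) :
    cls (gradF V) (memLp_gradF hV) ∈ UU n :=
  (GG n).le_topologicalClosure ⟨V, hV, rfl⟩

/-- The linear map of constants. -/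
noncomputable def cst (n : ℕ) : Sn n →ₗ[ℝ] Hn n where
  toFun e₀ := cls (fun _ => e₀) (memLp_const' e₀)
  map_add' a b := by rw [cls_add]
  map_smul' c a := by
    apply Lp.ext
    filter_upwards [coe_cls (fun _ : ℝ × ℝ => a) (memLp_const' a),
      coe_cls (fun _ : ℝ × ℝ => c • a) (memLp_const' (c • a)),
      Lp.coeFn_smul c (cls (fun _ : ℝ × ℝ => a) (memLp_const' a))] with x h1 h2 h3
    rw [h2, RingHom.id_apply, h3, Pi.smul_apply, h1]; rfl

/-- Lax-Milgram: the correction. -/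
lemma exists_correction {L₁ L₂ : Tens n} (h₁ : L₁.PosDef) (h₂ : L₂.PosDef) {D : Set (ℝ × ℝ)}
    (hD : MeasurableSet D) : ∃ R : Hn n →ₗ[ℝ] Hn n, (∀ f, R f ∈ UU n) ∧
      ∀ f, ∀ w ∈ UU n, ⟪w, TT L₁ L₂ D (f + R f)⟫_ℝ = 0 := by
  obtain ⟨c, hc, H⟩ := TT_coercive h₁ h₂ hD
  have : CompleteSpace (UU n) := (Submodule.isClosed_topologicalClosure _).completeSpace_coe
  have : (UU n).HasOrthogonalProjection := inferInstance
  let S : UU n →L[ℝ] UU n := (UU n).orthogonalProjectionOnto ∘L (TT L₁ L₂ D) ∘L (UU n).subtypeL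
  let B : UU n →L[ℝ] UU n →L[ℝ] ℝ :=
    LinearMap.mkContinuous₂ (LinearMap.mk₂ ℝ (fun u w => ⟪S u, w⟫_ℝ)
      (fun a b w => by simp [inner_add_left]) (fun r a w => by simp [inner_smul_left])
      (fun a b w => by simp [inner_add_right]) (fun r a w => by simp [inner_smul_right])) ‖S‖
      (fun u w => by
        exact (norm_inner_le_norm _ _).trans
          (mul_le_mul_of_nonneg_right (S.le_opNorm u) (norm_nonneg _)))
  have hB : ∀ u w, B u w = ⟪S u, w⟫_ℝ := fun u w => rfl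
  have hS : ∀ (u : UU n) (w : UU n), ⟪S u, w⟫_ℝ = ⟪(w : Hn n), TT L₁ L₂ D (u : Hn n)⟫_ℝ := by
    intro u w
    rw [real_inner_comm]
    change ⟪w, (UU n).orthogonalProjectionOnto (TT L₁ L₂ D (u : Hn n))⟫_ℝ = _
    rw [Submodule.inner_orthogonalProjectionOnto_eq_of_mem_left]
  have hcoer : IsCoercive B := by
    refine ⟨c, hc, fun u => ?_⟩
    rw [hB, hS]
    have := H (u : Hn n)
    calc c * ‖u‖ * ‖u‖ = c * ‖(u : Hn n)‖ ^ 2 := by rw [Submodule.coe_norm]; ring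
      _ ≤ _ := this
  let Eq := hcoer.continuousLinearEquivOfBilin
  refine ⟨-((UU n).subtype ∘ₗ (Eq.symm : UU n →ₗ[ℝ] UU n) ∘ₗ
    ((UU n).orthogonalProjectionOnto ∘L (TT L₁ L₂ D) : Hn n →L[ℝ] UU n).toLinearMap), ?_, ?_⟩
  · intro f
    simp only [LinearMap.neg_apply]
    exact (UU n).neg_mem (Subtype.mem _)
  · intro f w hw
    set u : UU n := Eq.symm ((UU n).orthogonalProjectionOnto (TT L₁ L₂ D f)) with hu
    have e1 : (f + (-((UU n).subtype ∘ₗ (Eq.symm : UU n →ₗ[ℝ] UU n) ∘ₗ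
      ((UU n).orthogonalProjectionOnto ∘L (TT L₁ L₂ D) : Hn n →L[ℝ] UU n).toLinearMap)) f) =
        f - (u : Hn n) := by
      rw [sub_eq_add_neg]; rfl
    rw [e1, map_sub, inner_sub_right]
    have e2 : ⟪Eq u, (⟨w, hw⟩ : UU n)⟫_ℝ = B u ⟨w, hw⟩ :=
      hcoer.continuousLinearEquivOfBilin_apply u ⟨w, hw⟩
    rw [hB, hS, hu, ContinuousLinearEquiv.apply_symm_apply, ← hu, real_inner_comm,
      Submodule.inner_orthogonalProjectionOnto_eq_of_mem_left] at e2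
    simp only at e2
    rw [e2, sub_self]

end Eff

/-- Piece EFF (1): existence of the effective tensor. -/
theorem exists_effective {n : ℕ} {L₁ L₂ : Tens n} (h₁ : L₁.PosDef) (h₂ : L₂.PosDef)
    {D : Set (ℝ × ℝ)} (hD : MeasurableSet D) : ∃ A : Tens n, IsEffective L₁ L₂ D A := by
  obtain ⟨R, hR, hR'⟩ := Eff.exists_correction h₁ h₂ hD
  let Φ : Sn n →ₗ[ℝ] Sn n :=
    { toFun := fun e₀ i => ⟪Eff.cst n (Pi.single i 1),
        Eff.TT L₁ L₂ D (Eff.cst n e₀ + R (Eff.cst n e₀))⟫_ℝ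
      map_add' := by
        intro a b; funext i
        simp only [map_add, inner_add_right, Pi.add_apply]; ring
      map_smul' := by
        intro c a; funext i
        simp only [map_smul, map_add, inner_add_right, inner_smul_right, Pi.smul_apply,
          RingHom.id_apply, smul_eq_mul]; ring }
  refine ⟨LinearMap.toMatrix' Φ, fun e₀ => ?_⟩
  set f : Eff.Hn n := Eff.cst n e₀ + R (Eff.cst n e₀) with hf
  have hcl : Eff.cls (Eff.fn f) (Eff.memLp_fn f) = f := Eff.cls_fn f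
  refine ⟨Eff.fn f, ⟨Eff.memLp_fn f, ?_, ?_⟩, ?_⟩
  · intro ε hε
    have hmem : Eff.cls (fun x => Eff.fn f x - e₀)
        ((Eff.memLp_fn f).sub (Eff.memLp_const' e₀)) ∈ Eff.UU n := by
      rw [← Eff.cls_sub (Eff.memLp_fn f) (Eff.memLp_const' e₀), hcl, hf]
      change Eff.cst n e₀ + R (Eff.cst n e₀) - Eff.cst n e₀ ∈ Eff.UU n
      rw [add_sub_cancel_left]; exact hR _
    exact Eff.exists_grad_of_mem _ hmem hε
  · intro V hV
    have h := hR' (Eff.cst n e₀) _ (Eff.gradF_mem hV)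
    rw [← hf, ← hcl, Eff.inner_TT_cls L₁ L₂ hD] at h
    exact h
  · intro i
    rw [LinearMap.toMatrix'_mulVec]
    change ⟪Eff.cst n (Pi.single i 1), Eff.TT L₁ L₂ D f⟫_ℝ = _
    conv_lhs => rw [← hcl]
    change ⟪Eff.cls (fun _ => Pi.single i 1) (Eff.memLp_const' _), Eff.TT L₁ L₂ D _⟫_ℝ = _
    rw [Eff.inner_TT_cls L₁ L₂ hD]
    simp

/-- Piece EFF (2): the variational upper bound. -/
theorem effective_le {n : ℕ} {L₁ L₂ : Tens n} (h₁ : L₁.PosDef) (h₂ : L₂.PosDef)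
    {D : Set (ℝ × ℝ)} (hD : MeasurableSet D) {A : Tens n} (hA : IsEffective L₁ L₂ D A)
    (e₀ : Sn n) (V : Fin n → ℝ × ℝ → ℝ) (hV : ∀ j, Pot (V j)) :
    e₀ ⬝ᵥ (A *ᵥ e₀) ≤
      ∫ x in cell, (e₀ + gradF V x) ⬝ᵥ (locT L₁ L₂ D x *ᵥ (e₀ + gradF V x)) := by
  obtain ⟨E, ⟨hE2, hEf, hEd⟩, hEA⟩ := hA e₀
  obtain ⟨c, hc, H⟩ := Eff.TT_coercive h₁ h₂ hD
  set e := Eff.cls E hE2 with he
  set k := Eff.cls (fun _ => e₀) (Eff.memLp_const' e₀) with hk
  set g := Eff.cls (gradF V) (Eff.memLp_gradF hV) with hg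
  have hmem : e - k ∈ Eff.UU n := by
    rw [he, hk, Eff.cls_sub]
    exact Eff.mem_of_exists_grad _ hEf
  have horth : ∀ w ∈ Eff.UU n, ⟪w, Eff.TT L₁ L₂ D e⟫_ℝ = 0 := by
    intro w hw
    have hcl : IsClosed {w : Eff.Hn n | ⟪w, Eff.TT L₁ L₂ D e⟫_ℝ = 0} :=
      isClosed_eq (continuous_id.inner continuous_const) continuous_const
    have hsub : (Eff.GG n : Set (Eff.Hn n)) ⊆ {w : Eff.Hn n | ⟪w, Eff.TT L₁ L₂ D e⟫_ℝ = 0} := by
      rintro _ ⟨W, hW, rfl⟩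
      change ⟪_, _⟫_ℝ = 0
      rw [he, Eff.inner_TT_cls L₁ L₂ hD]
      exact hEd W hW
    exact closure_minimal hsub hcl hw
  have hflux : e₀ ⬝ᵥ (A *ᵥ e₀) = ⟪k, Eff.TT L₁ L₂ D e⟫_ℝ := by
    have hi : ∀ i, ⟪Eff.cst n (Pi.single i 1), Eff.TT L₁ L₂ D e⟫_ℝ = (A *ᵥ e₀) i := by
      intro i
      rw [hEA i, he]
      change ⟪Eff.cls (fun _ => Pi.single i 1) (Eff.memLp_const' _), Eff.TT L₁ L₂ D _⟫_ℝ = _
      rw [Eff.inner_TT_cls L₁ L₂ hD]
      simp
    have hsum : e₀ = ∑ i, e₀ i • (Pi.single i (1 : ℝ) : Sn n) := by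
      conv_lhs => rw [← Finset.univ_sum_single e₀]
      refine Finset.sum_congr rfl fun i _ => ?_
      rw [← Pi.single_smul', smul_eq_mul, mul_one]
    have hk' : k = Eff.cst n e₀ := rfl
    rw [hk']
    conv_rhs => rw [hsum]
    rw [map_sum, sum_inner]
    simp only [map_smul, inner_smul_left, hi]
    simp [dotProduct]
  have hF : ∫ x in cell, (e₀ + gradF V x) ⬝ᵥ (locT L₁ L₂ D x *ᵥ (e₀ + gradF V x)) =
      ⟪k + g, Eff.TT L₁ L₂ D (k + g)⟫_ℝ := by
    rw [hk, hg, Eff.cls_add, Eff.inner_TT_cls L₁ L₂ hD]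
  rw [hF, hflux]
  have h0 := horth _ hmem
  rw [inner_sub_left] at h0
  have hd : k + g - e ∈ Eff.UU n := by
    have : k + g - e = g - (e - k) := by abel
    rw [this]; exact (Eff.UU n).sub_mem (Eff.gradF_mem hV) hmem
  have h1 := horth _ hd
  have h2 := H (k + g - e)
  have h3 : 0 ≤ ⟪k + g - e, Eff.TT L₁ L₂ D (k + g - e)⟫_ℝ := le_trans (by positivity) h2
  have h4 := Eff.TT_symm h₁ h₂ hD (k + g) e
  rw [map_sub, inner_sub_right, h1, sub_zero, inner_sub_left, h4] at h3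
  rw [inner_sub_left] at h1
  linarith

end Pool.Agent.Lib.MP_393ee6_an
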