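import Pool.Agent.Lib.MP_393ee6_an.Phase

/-!
The full certificate on `Sn 11 × [-1,1]` and the two phases.
-/

open Finset Matrix

namespace Pool.Agent.Lib.MP_393ee6_an

/-- index of the `i`-th `v`-column -/
def iv (i : Fin 3) : Fin 11 := ⟨i.val, by omega⟩
/-- index of the `k`-th `s`-column -/
def is (k : Fin 7) : Fin 11 := ⟨3 + k.val, by omega⟩

theorem sum_split (f : Fin 11 → ℝ) :
    ∑ j, f j = (∑ i : Fin 3, f (iv i)) + (∑ k : Fin 7, f (is k)) + f 10 := by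
  simp only [Fin.sum_univ_succ, Fin.sum_univ_zero, iv, is, Fin.val_zero, Fin.val_succ]
  simp
  ring_nf

/-- `v`-coordinates -/
noncomputable def vc (F : Sn 11) : Fin 3 → ℝ := fun i => yv (iv i) ⬝ᵥ F
/-- `s`-coordinates -/
noncomputable def sc (F : Sn 11) : Fin 7 → ℝ := fun k => yv (is k) ⬝ᵥ F
/-- last coordinate -/
noncomputable def tc (F : Sn 11) : ℝ := yv 10 ⬝ᵥ F

/-- The full certificate. -/
noncomputable def Gf (F : Sn 11) (t : ℝ) : ℝ :=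
  10 ^ 46 + 2 * (10 ^ 21 + 10 ^ 46) * (tc F - 1) + Gc (vc F) (sc F) t
    + 10 ^ 28 * ∑ j, (zv j ⬝ᵥ F) ^ 2

theorem vc_add (F y : Sn 11) : vc (F + y) = vc F + vc y := by
  funext i; simp only [vc, dotProduct_add, Pi.add_apply]

theorem sc_add (F y : Sn 11) : sc (F + y) = sc F + sc y := by
  funext i; simp only [sc, dotProduct_add, Pi.add_apply]

theorem tc_add (F y : Sn 11) : tc (F + y) = tc F + tc y := by
  simp only [tc, dotProduct_add]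

theorem sum_erase_eq {ι : Type*} [Fintype ι] [DecidableEq ι] (f : ι → ℝ) (a : ι) :
    ∑ i ∈ univ.erase a, f i = (∑ i, f i) - f a := by
  rw [← add_sum_erase univ f (mem_univ a)]; ring

/-- Lower bound for the remainder in terms of the coordinates other than the main one. -/
theorem Rem_main (F y : Sn 11) (t e : ℝ) (ht : |t| ≤ 1) (ht' : |t + e| ≤ 1) (j₀ : Fin 11) :
    -(10 ^ 23 * ((∑ j, (yv j ⬝ᵥ y) ^ 2) - (yv j₀ ⬝ᵥ y) ^ 2)) ≤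
      Rem (vc F) (vc y) (sc F) (sc y) t e := by
  have hs := sum_split (fun j => (yv j ⬝ᵥ y) ^ 2)
  have hv : ∑ i : Fin 3, (yv (iv i) ⬝ᵥ y) ^ 2 = ∑ i, vc y i ^ 2 := rfl
  have hs' : ∑ k : Fin 7, (yv (is k) ⬝ᵥ y) ^ 2 = ∑ k, sc y k ^ 2 := rfl
  rw [hv, hs'] at hs
  have hcase : (∃ i : Fin 3, j₀ = iv i) ∨ (∃ k : Fin 7, j₀ = is k) ∨ j₀ = 10 := by
    revert j₀; decide
  rcases hcase with ⟨i, rfl⟩ | ⟨k, rfl⟩ | rfl
  · have h := Rem_V' (vc F) (vc y) (sc F) (sc y) t e ht ht' i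
    rw [sum_erase_eq] at h
    have : (yv (iv i) ⬝ᵥ y) = vc y i := rfl
    rw [this]
    have h10 : 0 ≤ (yv 10 ⬝ᵥ y) ^ 2 := sq_nonneg _
    linarith
  · have h := Rem_S (vc F) (vc y) (sc F) (sc y) t e ht ht' k
    rw [sum_erase_eq] at h
    have : (yv (is k) ⬝ᵥ y) = sc y k := rfl
    rw [this]
    have h10 : 0 ≤ (yv 10 ⬝ᵥ y) ^ 2 := sq_nonneg _
    have h3 : ∑ i, vc y i ^ 2 = vc y 0 ^ 2 + vc y 1 ^ 2 + vc y 2 ^ 2 := by
      rw [Fin.sum_univ_three]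
    have h4 : sc y k ^ 2 ≤ ∑ j, sc y j ^ 2 :=
      single_le_sum (f := fun j => sc y j ^ 2) (fun _ _ => sq_nonneg _) (mem_univ k)
    have h5 : 0 ≤ vc y 0 ^ 2 + vc y 1 ^ 2 + vc y 2 ^ 2 := by positivity
    rw [h3] at hs
    linarith
  · have h := Rem_V' (vc F) (vc y) (sc F) (sc y) t e ht ht' 0
    rw [sum_erase_eq] at h
    have h0 : 0 ≤ vc y 0 ^ 2 := sq_nonneg _
    linarith

/-- coefficients of the supporting functional -/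
noncomputable def cf (F : Sn 11) (t : ℝ) (j : Fin 11) : ℝ :=
  if h : j.val < 3 then pv (vc F) (sc F) t ⟨j.val, h⟩
  else if h' : j.val < 10 then ps (vc F) (sc F) t ⟨j.val - 3, by omega⟩
  else 2 * (10 ^ 21 + 10 ^ 46)

theorem cf_v (F : Sn 11) (t : ℝ) (i : Fin 3) : cf F t (iv i) = pv (vc F) (sc F) t i := by
  unfold cf iv
  simp

theorem cf_s (F : Sn 11) (t : ℝ) (k : Fin 7) : cf F t (is k) = ps (vc F) (sc F) t k := by
  unfold cf is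
  have h1 : ¬ (3 + k.val < 3) := by omega
  have h2 : 3 + k.val < 10 := by omega
  simp [h2]

theorem cf_t (F : Sn 11) (t : ℝ) : cf F t 10 = 2 * (10 ^ 21 + 10 ^ 46) := by
  unfold cf
  simp

/-- the supporting functional -/
noncomputable def pf (F : Sn 11) (t : ℝ) : Sn 11 :=
  (∑ j, cf F t j • yv j) + ∑ j, (2 * 10 ^ 28 * (zv j ⬝ᵥ F)) • zv j

theorem pf_dot (F y : Sn 11) (t : ℝ) : pf F t ⬝ᵥ y =
    (∑ i, pv (vc F) (sc F) t i * vc y i) + (∑ k, ps (vc F) (sc F) t k * sc y k)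
      + 2 * (10 ^ 21 + 10 ^ 46) * tc y
      + ∑ j, 2 * 10 ^ 28 * (zv j ⬝ᵥ F) * (zv j ⬝ᵥ y) := by
  unfold pf
  rw [add_dotProduct, sum_dotProduct, sum_dotProduct]
  simp only [smul_dotProduct, smul_eq_mul]
  rw [sum_split (fun j => cf F t j * (yv j ⬝ᵥ y))]
  simp only [cf_v, cf_s, cf_t]
  rfl

/-- The rank-one inequality for the full certificate. -/
theorem Gf_step (F : Sn 11) (t : ℝ) (ht : |t| ≤ 1) (y : Sn 11) (e : ℝ) (hy : IsRankOne y)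
    (ht' : |t + e| ≤ 1) :
    Gf F t + pf F t ⬝ᵥ y + pt (vc F) (sc F) t * e ≤ Gf (F + y) (t + e) := by
  obtain ⟨j₀, hj₀⟩ := rankOne_main hy
  have hR := Rem_main F y t e ht ht' j₀
  have hz : ∑ j, (zv j ⬝ᵥ (F + y)) ^ 2 = ∑ j, (zv j ⬝ᵥ F) ^ 2
      + 2 * ∑ j, (zv j ⬝ᵥ F) * (zv j ⬝ᵥ y) + ∑ j, (zv j ⬝ᵥ y) ^ 2 := by
    rw [mul_sum, ← sum_add_distrib, ← sum_add_distrib]
    exact sum_congr rfl (fun j _ => by rw [dotProduct_add]; ring)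
  have hzz : ∑ j, 2 * 10 ^ 28 * (zv j ⬝ᵥ F) * (zv j ⬝ᵥ y) =
      2 * 10 ^ 28 * ∑ j, (zv j ⬝ᵥ F) * (zv j ⬝ᵥ y) := by
    rw [mul_sum]; exact sum_congr rfl (fun j _ => by ring)
  have hoth : (∑ j, (yv j ⬝ᵥ y) ^ 2) - (yv j₀ ⬝ᵥ y) ^ 2 ≤ 10 ^ 5 * ∑ j, (zv j ⬝ᵥ y) ^ 2 := by
    rw [← sum_erase_eq (fun j => (yv j ⬝ᵥ y) ^ 2) j₀, mul_sum]
    calc ∑ j ∈ univ.erase j₀, (yv j ⬝ᵥ y) ^ 2
        ≤ ∑ j ∈ univ.erase j₀, 10 ^ 5 * (zv j ⬝ᵥ y) ^ 2 :=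
          sum_le_sum (fun j hj => hj₀ j (mem_erase.mp hj).1)
      _ ≤ ∑ j, 10 ^ 5 * (zv j ⬝ᵥ y) ^ 2 :=
          sum_le_sum_of_subset_of_nonneg (erase_subset _ _) (fun _ _ _ => by positivity)
  have hrem : Rem (vc F) (vc y) (sc F) (sc y) t e =
      Gc (vc F + vc y) (sc F + sc y) (t + e) - Gc (vc F) (sc F) t
      - ((∑ i, pv (vc F) (sc F) t i * vc y i) + (∑ k, ps (vc F) (sc F) t k * sc y k)
        + pt (vc F) (sc F) t * e) := rfl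
  unfold Gf
  rw [vc_add, sc_add, tc_add, hz, pf_dot, hzz]
  rw [hrem] at hR
  generalize Gc (vc F + vc y) (sc F + sc y) (t + e) = X1 at *
  generalize Gc (vc F) (sc F) t = X2 at *
  generalize (∑ i, pv (vc F) (sc F) t i * vc y i) = X3 at *
  generalize (∑ k, ps (vc F) (sc F) t k * sc y k) = X4 at *
  generalize pt (vc F) (sc F) t * e = X5 at *
  generalize ∑ j, (zv j ⬝ᵥ F) ^ 2 = X6 at *
  generalize ∑ j, (zv j ⬝ᵥ F) * (zv j ⬝ᵥ y) = X7 at *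
  generalize ∑ j, (zv j ⬝ᵥ y) ^ 2 = X8 at *
  generalize (∑ j, (yv j ⬝ᵥ y) ^ 2) - (yv j₀ ⬝ᵥ y) ^ 2 = X9 at *
  linarith

/-! ### The phases -/

/-- energy of the phase `σ = ± 1` -/
noncomputable def Ph (σ : ℝ) (F : Sn 11) : ℝ :=
  500 * ∑ i, (vc F i - σ * As (sc F) i) ^ 2 + (1 / 100) * ∑ i, vc F i ^ 2
    + 10 ^ 21 * ((∑ k, sc F k) - σ * tc F) ^ 2 + 10 ^ 46 * tc F ^ 2
    + (1 / 1000) * ∑ k, sc F k ^ 2 + 10 ^ 28 * ∑ j, (zv j ⬝ᵥ F) ^ 2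

theorem Gf_le_Ph (σ : ℝ) (hσ : σ = 1 ∨ σ = -1) (F : Sn 11) : Gf F σ ≤ Ph σ F := by
  have hσ2 : σ ^ 2 = 1 := by rcases hσ with rfl | rfl <;> norm_num
  have hH : ∀ i, H (σ * vc F i - As (sc F) i) ≤ (vc F i - σ * As (sc F) i) ^ 2 := by
    intro i
    refine (H_le _).trans (le_of_eq ?_)
    linear_combination (vc F i ^ 2 - As (sc F) i ^ 2) * hσ2
  have h7 := sum_sq_le7 (sc F) univ
  unfold Gf Gc Ph
  rw [hσ2, Fin.sum_univ_three, Fin.sum_univ_three]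
  have h0 := hH 0
  have h1 := hH 1
  have h2 := hH 2
  have hsq : 0 ≤ (10 ^ 46 * (tc F - 1) - σ * 10 ^ 21 * ∑ k, sc F k) ^ 2 := sq_nonneg _
  have key : 10 ^ 21 * ((∑ k, sc F k) - σ) ^ 2 + 10 ^ 46 + 2 * (10 ^ 21 + 10 ^ 46) * (tc F - 1) ≤
      10 ^ 21 * ((∑ k, sc F k) - σ * tc F) ^ 2 + 10 ^ 46 * tc F ^ 2
        + (1 / 1000) * ∑ k, sc F k ^ 2 := by
    set S := ∑ k, sc F k with hS
    set Q := ∑ k, sc F k ^ 2 with hQ
    set τ := tc F with hτ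
    have e1 : 10 ^ 21 * (S - σ * τ) ^ 2 + 10 ^ 46 * τ ^ 2 + (1 / 1000) * Q
        - (10 ^ 21 * (S - σ) ^ 2 + 10 ^ 46 + 2 * (10 ^ 21 + 10 ^ 46) * (τ - 1)) =
        (10 ^ 21 + 10 ^ 46) * (τ - 1) ^ 2 - 2 * 10 ^ 21 * σ * S * (τ - 1) + (1 / 1000) * Q := by
      linear_combination (10 ^ 21 * τ ^ 2 - 10 ^ 21) * hσ2
    have e2 : (10 ^ 46 * (τ - 1) - σ * 10 ^ 21 * S) ^ 2 =
        10 ^ 46 * (10 ^ 46 * (τ - 1) ^ 2 - 2 * 10 ^ 21 * σ * S * (τ - 1)) + 10 ^ 42 * S ^ 2 := by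
      linear_combination (10 ^ 42 * S ^ 2) * hσ2
    have e3 : 0 ≤ (τ - 1) ^ 2 := sq_nonneg _
    have hQ0 : 0 ≤ Q := sum_nonneg (fun _ _ => sq_nonneg _)
    rw [e2] at hsq
    linarith
  linarith

end Pool.Agent.Lib.MP_393ee6_an
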