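import Pool.Agent.Lib.MP_393ee6_an.Ineq

/-!
The scalar functions used in the certificate.
-/

namespace Pool.Agent.Lib.MP_393ee6_an

/-- Truncation to `[0,1]`. -/
noncomputable def T (a : ℝ) : ℝ := max 0 (min 1 a)
/-- Positive part of `a - 1`. -/
noncomputable def U (a : ℝ) : ℝ := max 0 (a - 1)
open Classical in
/-- A slope of `T`. -/
noncomputable def sD (a : ℝ) : ℝ := if 0 < a ∧ a ≤ 1 then 1 else 0
open Classical in
/-- A slope of `U`. -/
noncomputable def sE (a : ℝ) : ℝ := if 1 < a then 1 else 0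
/-- Truncation to `[-10^6, 10^6]`. -/
noncomputable def pr (x : ℝ) : ℝ := max (-10 ^ 6) (min (10 ^ 6) x)
/-- Huber function. -/
noncomputable def H (x : ℝ) : ℝ := 2 * pr x * x - pr x ^ 2

theorem T_nonneg (a : ℝ) : 0 ≤ T a := le_max_left _ _
theorem T_le_one (a : ℝ) : T a ≤ 1 := max_le (by norm_num) (min_le_left _ _)
theorem U_nonneg (a : ℝ) : 0 ≤ U a := le_max_left _ _

theorem T_add_U (a : ℝ) : T a + U a = max 0 a := by
  unfold T U
  rcases le_total a 0 with h | h
  · rw [min_eq_right (by linarith), max_eq_left h, max_eq_left (by linarith)]; ring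
  · rcases le_total a 1 with h1 | h1
    · rw [min_eq_right h1, max_eq_right h, max_eq_left (by linarith)]; ring
    · rw [min_eq_left h1, max_eq_right (by norm_num), max_eq_right (by linarith),
        max_eq_right h]; ring

theorem U_le_abs (a : ℝ) : U a ≤ |a| := by
  unfold U
  exact max_le (abs_nonneg _) (by linarith [le_abs_self a])

theorem T_lip (a b : ℝ) : |T b - T a| ≤ |b - a| := by
  unfold T
  calc |max 0 (min 1 b) - max 0 (min 1 a)| ≤ |min 1 b - min 1 a| := by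
        have := abs_max_sub_max_le_max (0 : ℝ) (min 1 b) 0 (min 1 a)
        simpa using this
    _ ≤ |b - a| := by
        have := abs_min_sub_min_le_max (1 : ℝ) b 1 a
        simpa using this

theorem posPart_sub (a b : ℝ) : 0 ≤ max 0 b - max 0 a - (if 0 < a then 1 else 0) * (b - a) := by
  split_ifs with h
  · rw [max_eq_right h.le]
    have := le_max_right 0 b
    linarith
  · rw [max_eq_left (not_lt.mp h)]
    have := le_max_left 0 b
    linarith

theorem U_sub (a b : ℝ) : 0 ≤ U b - U a - sE a * (b - a) := by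
  unfold U sE
  have := posPart_sub (a - 1) (b - 1)
  simp only [sub_pos] at this
  calc (0 : ℝ) ≤ _ := this
    _ = _ := by ring_nf

theorem sD_eq (a : ℝ) : sD a = (if 0 < a then 1 else 0) - sE a := by
  unfold sD sE
  by_cases h1 : 0 < a
  · by_cases h2 : 1 < a
    · simp [h1, h2, not_le.mpr h2]
    · simp [h1, h2, not_lt.mp h2]
  · have h2 : ¬ 1 < a := fun h => h1 (by linarith)
    simp [h1, h2]

theorem TU_sub (a b τ : ℝ) (h0 : 0 ≤ τ) (h1 : τ ≤ 1) :
    0 ≤ τ * (T b - T a - sD a * (b - a)) + (U b - U a - sE a * (b - a)) := by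
  have e1 : T b = max 0 b - U b := by linarith [T_add_U b]
  have e2 : T a = max 0 a - U a := by linarith [T_add_U a]
  have hp := posPart_sub a b
  have hu := U_sub a b
  rw [e1, e2, sD_eq]
  have h3 : τ * (max 0 b - U b - (max 0 a - U a) - ((if 0 < a then 1 else 0) - sE a) * (b - a)) +
      (U b - U a - sE a * (b - a)) =
      τ * (max 0 b - max 0 a - (if 0 < a then 1 else 0) * (b - a)) +
      (1 - τ) * (U b - U a - sE a * (b - a)) := by ring
  rw [h3]
  have := mul_nonneg h0 hp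
  have := mul_nonneg (sub_nonneg.mpr h1) hu
  linarith

/-- The trilinear-type function. -/
noncomputable def g0 (v1 v2 v3 : ℝ) : ℝ := T v1 * T v2 * T v3 + U v1 + U v2 + U v3

/-- The slope of `g0` in the first variable. -/
noncomputable def sl (a b c : ℝ) : ℝ := sD a * (T b * T c) + sE a

theorem sl_abs (a b c : ℝ) : |sl a b c| ≤ 1 := by
  unfold sl sD sE
  have h1 : 0 ≤ T b * T c := mul_nonneg (T_nonneg _) (T_nonneg _)
  have h2 : T b * T c ≤ 1 := mul_le_one₀ (T_le_one _) (T_nonneg _) (T_le_one _)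
  by_cases h : 1 < a
  · have : ¬ (0 < a ∧ a ≤ 1) := fun h' => absurd h'.2 (not_le.mpr h)
    simp [h, this]
  · by_cases h' : 0 < a ∧ a ≤ 1
    · simp only [h', h, if_true, if_false, and_self]
      rw [abs_le]; constructor <;> linarith
    · simp [h, h']

theorem prod3_le {x y z a b : ℝ} (hx : |x| ≤ a) (hy : |y| ≤ b) (hz0 : 0 ≤ z) (hz1 : z ≤ 1) :
    -(a * b) ≤ x * y * z := by
  have ha : 0 ≤ a := (abs_nonneg _).trans hx
  have h1 : |x * y * z| ≤ a * b := by
    rw [abs_mul, abs_mul, abs_of_nonneg hz0]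
    have hb : 0 ≤ b := (abs_nonneg _).trans hy
    have hab : 0 ≤ a * b := mul_nonneg ha hb
    calc |x| * |y| * z ≤ a * b * 1 := by gcongr
      _ = a * b := by ring
  exact (abs_le.mp h1).1

theorem g0_sub (v1 v2 v3 d1 d2 d3 : ℝ) :
    -(|d1| * |d2| + |d1| * |d3| + |d2| * |d3|) ≤ g0 (v1 + d1) (v2 + d2) (v3 + d3)
      - g0 v1 v2 v3 - (sl v1 v2 v3 * d1 + sl v2 v1 v3 * d2 + sl v3 v1 v2 * d3) := by
  unfold g0 sl
  have l1 : |T (v1 + d1) - T v1| ≤ |d1| := by
    have := T_lip v1 (v1 + d1); rwa [show v1 + d1 - v1 = d1 by ring] at this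
  have l2 : |T (v2 + d2) - T v2| ≤ |d2| := by
    have := T_lip v2 (v2 + d2); rwa [show v2 + d2 - v2 = d2 by ring] at this
  have l3 : |T (v3 + d3) - T v3| ≤ |d3| := by
    have := T_lip v3 (v3 + d3); rwa [show v3 + d3 - v3 = d3 by ring] at this
  have m : ∀ x y : ℝ, 0 ≤ T x * T y ∧ T x * T y ≤ 1 := fun x y =>
    ⟨mul_nonneg (T_nonneg _) (T_nonneg _), mul_le_one₀ (T_le_one _) (T_nonneg _) (T_le_one _)⟩
  have k1 := TU_sub v1 (v1 + d1) (T v2 * T v3) (m _ _).1 (m _ _).2
  have k2 := TU_sub v2 (v2 + d2) (T v1 * T v3) (m _ _).1 (m _ _).2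
  have k3 := TU_sub v3 (v3 + d3) (T v1 * T v2) (m _ _).1 (m _ _).2
  have p1 := prod3_le l1 l2 (T_nonneg (v3 + d3)) (T_le_one _)
  have p2 := prod3_le l1 l3 (T_nonneg v2) (T_le_one _)
  have p3 := prod3_le l2 l3 (T_nonneg v1) (T_le_one _)
  linarith

theorem g0_le (v1 v2 v3 : ℝ) : g0 v1 v2 v3 ≤ 1 + |v1| + |v2| + |v3| := by
  unfold g0
  have h : T v1 * T v2 * T v3 ≤ 1 :=
    mul_le_one₀ (mul_le_one₀ (T_le_one _) (T_nonneg _) (T_le_one _)) (T_nonneg _) (T_le_one _)
  linarith [U_le_abs v1, U_le_abs v2, U_le_abs v3]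

theorem U_le_sub (v A : ℝ) (hA : A = 0 ∨ A = 1) : U v ≤ |v - A| := by
  rcases hA with rfl | rfl
  · simpa using U_le_abs v
  · unfold U; exact max_le (abs_nonneg _) (le_abs_self _)

theorem TU_le_abs (v : ℝ) : T v + U v ≤ |v - 0| := by
  rw [T_add_U, sub_zero]
  exact max_le (abs_nonneg _) (le_abs_self _)

theorem g0_well (v1 v2 v3 A1 A2 A3 : ℝ) (h1 : A1 = 0 ∨ A1 = 1) (h2 : A2 = 0 ∨ A2 = 1)
    (h3 : A3 = 0 ∨ A3 = 1) (h : A1 = 0 ∨ A2 = 0 ∨ A3 = 0) :
    g0 v1 v2 v3 ≤ |v1 - A1| + |v2 - A2| + |v3 - A3| := by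
  unfold g0
  have u1 := U_le_sub v1 A1 h1
  have u2 := U_le_sub v2 A2 h2
  have u3 := U_le_sub v3 A3 h3
  have m : ∀ x y : ℝ, 0 ≤ T x * T y ∧ T x * T y ≤ 1 := fun x y =>
    ⟨mul_nonneg (T_nonneg _) (T_nonneg _), mul_le_one₀ (T_le_one _) (T_nonneg _) (T_le_one _)⟩
  rcases h with h | h | h
  · have b : T v1 * T v2 * T v3 ≤ T v1 := by
      rw [mul_assoc]; exact mul_le_of_le_one_right (T_nonneg _) (m v2 v3).2
    have := TU_le_abs v1
    rw [h]
    linarith
  · have b : T v1 * T v2 * T v3 ≤ T v2 := by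
      rw [show T v1 * T v2 * T v3 = T v2 * (T v1 * T v3) by ring]
      exact mul_le_of_le_one_right (T_nonneg _) (m v1 v3).2
    have := TU_le_abs v2
    rw [h]
    linarith
  · have b : T v1 * T v2 * T v3 ≤ T v3 := by
      rw [show T v1 * T v2 * T v3 = T v3 * (T v1 * T v2) by ring]
      exact mul_le_of_le_one_right (T_nonneg _) (m v1 v2).2
    have := TU_le_abs v3
    rw [h]
    linarith

/-! ### The Huber function -/

theorem pr_abs (x : ℝ) : |pr x| ≤ 10 ^ 6 := by
  unfold pr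
  rw [abs_le]
  exact ⟨le_max_left _ _, max_le (by norm_num) (min_le_left _ _)⟩

theorem pr_cases (x : ℝ) : (x ≤ -10 ^ 6 ∧ pr x = -10 ^ 6) ∨ (|x| ≤ 10 ^ 6 ∧ pr x = x) ∨
    (10 ^ 6 ≤ x ∧ pr x = 10 ^ 6) := by
  unfold pr
  rcases le_total x (-10 ^ 6) with h | h
  · left
    exact ⟨h, by rw [min_eq_right (by linarith), max_eq_left h]⟩
  · rcases le_total x (10 ^ 6) with h1 | h1
    · right; left
      exact ⟨abs_le.mpr ⟨h, h1⟩, by rw [min_eq_right h1, max_eq_right h]⟩
    · right; right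
      exact ⟨h1, by rw [min_eq_left h1, max_eq_right (by norm_num)]⟩

theorem H_le (x : ℝ) : H x ≤ x ^ 2 := by
  unfold H
  linarith [sq_nonneg (x - pr x)]

theorem pr_neg (x : ℝ) : pr (-x) = -pr x := by
  rcases pr_cases x with ⟨h, h'⟩ | ⟨h, h'⟩ | ⟨h, h'⟩
  · rcases pr_cases (-x) with ⟨k, k'⟩ | ⟨k, k'⟩ | ⟨k, k'⟩
    · linarith
    · rw [abs_le] at k; rw [k', h']; linarith [k.2]
    · rw [k', h']; ring
  · rcases pr_cases (-x) with ⟨k, k'⟩ | ⟨k, k'⟩ | ⟨k, k'⟩
    · rw [abs_le] at h; rw [k', h']; linarith [h.2]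
    · rw [k', h']
    · rw [abs_le] at h; rw [k', h']; linarith [h.1]
  · rcases pr_cases (-x) with ⟨k, k'⟩ | ⟨k, k'⟩ | ⟨k, k'⟩
    · rw [k', h']
    · rw [abs_le] at k; rw [k', h']; linarith [k.1]
    · linarith

theorem H_neg (x : ℝ) : H (-x) = H x := by
  unfold H; rw [pr_neg]; ring

theorem H_sub (x y : ℝ) : (pr y - pr x) ^ 2 ≤ H y - H x - 2 * pr x * (y - x) := by
  have h : 0 ≤ (pr y - pr x) * (y - pr y) := by
    rcases pr_cases y with ⟨k, k'⟩ | ⟨k, k'⟩ | ⟨k, k'⟩
    · have := (abs_le.mp (pr_abs x)).1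
      rw [k']
      exact mul_nonneg_of_nonpos_of_nonpos (by linarith) (by linarith)
    · rw [k']; simp
    · have := (abs_le.mp (pr_abs x)).2
      rw [k']
      exact mul_nonneg (by linarith) (by linarith)
  unfold H
  linarith

theorem H_sub_nonneg (x y : ℝ) : 0 ≤ H y - H x - 2 * pr x * (y - x) :=
  (sq_nonneg _).trans (H_sub x y)

theorem H_nonneg (x : ℝ) : 0 ≤ H x := by
  have h := H_sub_nonneg 0 x
  have h0 : pr 0 = 0 := by
    rcases pr_cases 0 with ⟨k, k'⟩ | ⟨k, k'⟩ | ⟨k, k'⟩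
    · norm_num at k
    · exact k'
    · norm_num at k
  have h1 : H 0 = 0 := by unfold H; rw [h0]; ring
  rw [h0, h1] at h
  linarith

/-- The key well inequality. -/
theorem star {t v a e A x x' : ℝ} (ht : |t| ≤ 1) (he : |e| ≤ 2) (hA : A = 0 ∨ A = 1)
    (hx : x = t * v - a) :
    e ^ 2 * (|v - A| - 1 / 1000) - 500 * (e * (v - A) - (x' - x)) ^ 2 ≤
      500 * (H x' - H x - 2 * pr x * (x' - x)) +
        e ^ 2 * ((1 / 6400) * v ^ 2 + (1 / 420000) * a ^ 2) := by
  have hB := H_sub x x'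
  have hE : 0 ≤ e ^ 2 := sq_nonneg e
  have hvA : |v - A| ≤ |v| + 1 := by
    rcases hA with rfl | rfl
    · simp
    · have := abs_sub v 1; simpa using this
  have hv2 : |v| ≤ (1 / 6400) * v ^ 2 + 1600 := by
    have h5 : |v| ^ 2 = v ^ 2 := sq_abs v
    have h6 : 0 ≤ (|v| - 3200) ^ 2 := sq_nonneg _
    have h7 : (|v| - 3200) ^ 2 = v ^ 2 - 6400 * |v| + 3200 ^ 2 := by rw [← h5]; ring
    rw [h7] at h6
    linarith
  by_cases hc : |x| ≤ 500000
  · by_cases hc' : |x'| ≤ 10 ^ 6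
    · -- quadratic region
      have p1 : pr x = x := by
        rcases pr_cases x with ⟨k, k'⟩ | ⟨k, k'⟩ | ⟨k, k'⟩
        · have := (abs_le.mp hc).1; linarith
        · exact k'
        · have := (abs_le.mp hc).2; linarith
      have p2 : pr x' = x' := by
        rcases pr_cases x' with ⟨k, k'⟩ | ⟨k, k'⟩ | ⟨k, k'⟩
        · have := (abs_le.mp hc').1; rw [k']; linarith
        · exact k'
        · have := (abs_le.mp hc').2; rw [k']; linarith
      rw [p1, p2] at hB
      rw [p1]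
      set W := x' - x with hW
      set ν := e * (v - A) - W with hν
      have h1 : e ^ 2 * |v - A| = |e| * |e * (v - A)| := by
        rw [abs_mul, ← mul_assoc, ← sq, sq_abs]
      have h2 : |e * (v - A)| ≤ |W| + |ν| := by
        have : e * (v - A) = W + ν := by rw [hν]; ring
        rw [this]; exact abs_add_le _ _
      have h3 : |e| * |e * (v - A)| ≤ |e| * (|W| + |ν|) :=
        mul_le_mul_of_nonneg_left h2 (abs_nonneg _)
      have h4 := abs_mul_le_half e W 500 (by norm_num)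
      have h5 := abs_mul_le_half e ν 500 (by norm_num)
      have h6 : 0 ≤ e ^ 2 * ((1 / 6400) * v ^ 2 + (1 / 420000) * a ^ 2) := by positivity
      linarith
    · -- far step
      push Not at hc'
      have p1 : pr x = x := by
        rcases pr_cases x with ⟨k, k'⟩ | ⟨k, k'⟩ | ⟨k, k'⟩
        · have := (abs_le.mp hc).1; linarith
        · exact k'
        · have := (abs_le.mp hc).2; linarith
      have h1 : (500000 : ℝ) ^ 2 ≤ (pr x' - pr x) ^ 2 := by
        rw [p1]
        have hx1 := (abs_le.mp hc).1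
        have hx2 := (abs_le.mp hc).2
        rcases pr_cases x' with ⟨k, k'⟩ | ⟨k, k'⟩ | ⟨k, k'⟩
        · rw [k']
          have : (500000 : ℝ) ≤ 10 ^ 6 + x := by linarith
          calc (500000 : ℝ) ^ 2 ≤ (10 ^ 6 + x) ^ 2 := by gcongr
            _ = _ := by ring
        · linarith
        · rw [k']
          have : (500000 : ℝ) ≤ 10 ^ 6 - x := by linarith
          gcongr
      have h2 : e ^ 2 ≤ 4 := by
        calc e ^ 2 = |e| ^ 2 := (sq_abs e).symm
          _ ≤ 2 ^ 2 := by gcongr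
          _ = 4 := by norm_num
      have h3 : e ^ 2 * |v - A| ≤ e ^ 2 * ((1 / 6400) * v ^ 2 + 1601) :=
        mul_le_mul_of_nonneg_left (by linarith) hE
      have h6 : 0 ≤ e ^ 2 * ((1 / 420000) * a ^ 2) := by positivity
      have h7 : 0 ≤ (e * (v - A) - (x' - x)) ^ 2 := sq_nonneg _
      linarith
  · -- x is large
    push Not at hc
    have h1 : 250000 ≤ |v| ∨ 250000 ≤ |a| := by
      by_contra hcon
      push Not at hcon
      have : |x| ≤ |v| + |a| := by
        rw [hx]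
        calc |t * v - a| ≤ |t * v| + |a| := abs_sub _ _
          _ ≤ 1 * |v| + |a| := by rw [abs_mul]; gcongr
          _ = |v| + |a| := by ring
      linarith [hcon.1, hcon.2]
    have h2 : |v - A| ≤ (1 / 6400) * v ^ 2 + (1 / 420000) * a ^ 2 := by
      rcases h1 with h1 | h1
      · have h5 : |v| ^ 2 = v ^ 2 := sq_abs v
        have h6 : 250000 * |v| ≤ |v| ^ 2 := by
          rw [sq]; exact mul_le_mul_of_nonneg_right h1 (abs_nonneg _)
        have h7 : 0 ≤ (1 / 420000 : ℝ) * a ^ 2 := by positivity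
        linarith
      · have h5 : |a| ^ 2 = a ^ 2 := sq_abs a
        have h6 : (250000 : ℝ) ^ 2 ≤ |a| ^ 2 := by gcongr
        linarith
    have h3 : e ^ 2 * |v - A| ≤ e ^ 2 * ((1 / 6400) * v ^ 2 + (1 / 420000) * a ^ 2) :=
      mul_le_mul_of_nonneg_left h2 hE
    have h4 := H_sub_nonneg x x'
    have h7 : 0 ≤ (e * (v - A) - (x' - x)) ^ 2 := sq_nonneg _
    linarith

end Pool.Agent.Lib.MP_393ee6_an
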