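import Mathlib

/-!
Real inequalities behind the certificate (steps in the directions of the columns 0, 1, 2, and
steps in the directions of the columns 3, ..., 9).
-/

namespace Pool.Agent.Lib.MP_393ee6_an

theorem abs_mul_le_half (e x k : ℝ) (hk : 0 < k) : |e| * |x| ≤ k * x ^ 2 + e ^ 2 / (4 * k) := by
  have h : 0 ≤ (2 * k * |x| - |e|) ^ 2 / (4 * k) := by positivity
  have h2 : (2 * k * |x| - |e|) ^ 2 / (4 * k) = k * x ^ 2 + e ^ 2 / (4 * k) - |e| * |x| := by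
    have h3 : |x| ^ 2 = x ^ 2 := sq_abs x
    have h4 : |e| ^ 2 = e ^ 2 := sq_abs e
    rw [← h3, ← h4]
    field_simp
    ring
  linarith

theorem pair_le {t e : ℝ} (ht : |t| ≤ 1) (ht' : |t + e| ≤ 1) : |t + (t + e)| ≤ 2 := by
  have := abs_add_le t (t + e); linarith

theorem mul_pair_le {T e x X : ℝ} (hT : |T| ≤ 2) (hx : |x| ≤ X) : |T * e * x| ≤ 2 * |e| * X := by
  rw [abs_mul, abs_mul]
  gcongr

/-- (c) -/
theorem stepc {T e pi d : ℝ} (hT : |T| ≤ 2) (hpi : |pi| ≤ 1) :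
    T * e * (pi * d) ≤ 2 * (|e| * |d|) := by
  have h1 : |pi * d| ≤ |d| := by
    rw [abs_mul]
    calc |pi| * |d| ≤ 1 * |d| := by gcongr
      _ = |d| := one_mul _
  have := (abs_le.mp (mul_pair_le (e := e) hT h1)).2
  linarith

/-- (d) with a weight -/
theorem stepd {T e v d : ℝ} (hT : |T| ≤ 2) :
    -((1 / 2) * (e ^ 2 * v ^ 2) + 8 * d ^ 2) ≤ T * e * (2 * (v * d)) := by
  have h1 : |2 * (v * d)| ≤ 2 * (|v| * |d|) := by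
    rw [abs_mul, abs_mul, abs_two]
  have h2 := (abs_le.mp (mul_pair_le (e := e) hT h1)).1
  have h3 : 0 ≤ (|e| * |v| - 4 * |d|) ^ 2 := sq_nonneg _
  have h4 : |e| ^ 2 = e ^ 2 := sq_abs e
  have h5 : |v| ^ 2 = v ^ 2 := sq_abs v
  have h6 : |d| ^ 2 = d ^ 2 := sq_abs d
  have h7 : (|e| * |v| - 4 * |d|) ^ 2 = e ^ 2 * v ^ 2 - 8 * (|e| * |v| * |d|) + 16 * d ^ 2 := by
    rw [← h4, ← h5, ← h6]; ring
  rw [h7] at h3
  linarith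

/-- (e) -/
theorem stepe {T e S2 SR R2 : ℝ} (hT : |T| ≤ 2) (hS2 : 0 ≤ S2) (hR2 : 0 ≤ R2)
    (hSR : SR ^ 2 ≤ S2 * R2) : -(e ^ 2 * S2 + 4 * R2) ≤ T * e * (2 * SR) := by
  have h1 : |2 * SR| ≤ 2 * |SR| := by
    rw [abs_mul, abs_two]
  have h2 := (abs_le.mp (mul_pair_le (e := e) hT h1)).1
  have h3 : (4 * |e| * |SR|) ^ 2 ≤ (e ^ 2 * S2 + 4 * R2) ^ 2 := by
    have h4 : (4 * |e| * |SR|) ^ 2 = 16 * e ^ 2 * SR ^ 2 := by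
      rw [mul_pow, mul_pow, sq_abs, sq_abs]; norm_num
    have h5 : 16 * e ^ 2 * SR ^ 2 ≤ 16 * e ^ 2 * (S2 * R2) :=
      mul_le_mul_of_nonneg_left hSR (by positivity)
    have h6 : 0 ≤ (e ^ 2 * S2 - 4 * R2) ^ 2 := sq_nonneg _
    rw [h4]
    linarith
  have h6 : 0 ≤ e ^ 2 * S2 + 4 * R2 := by positivity
  have h7 := abs_le_of_sq_le_sq h3 h6
  have h8 := (abs_le.mp h7).2
  linarith

/-- (g) -/
theorem stepg (e v : ℝ) : e ^ 2 * |v| ≤ e ^ 2 * ((1 / 6400) * v ^ 2 + 1600) := by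
  have h1 : |v| ≤ (1 / 6400) * v ^ 2 + 1600 := by
    have h5 : |v| ^ 2 = v ^ 2 := sq_abs v
    have h6 : 0 ≤ (|v| - 3200) ^ 2 := sq_nonneg _
    have h7 : (|v| - 3200) ^ 2 = v ^ 2 - 6400 * |v| + 3200 ^ 2 := by rw [← h5]; ring
    rw [h7] at h6
    linarith
  exact mul_le_mul_of_nonneg_left h1 (sq_nonneg e)

/-- (h) -/
theorem steph {e p d : ℝ} (hp : |p| ≤ 10 ^ 6) :
    -(10 ^ 9 * (|e| * |d|)) ≤ 2 * 500 * e * (p * d) := by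
  have h1 : |2 * 500 * e * (p * d)| ≤ 10 ^ 9 * (|e| * |d|) := by
    have h0 : 2 * 500 * e * (p * d) = 1000 * (e * (p * d)) := by ring
    rw [h0, abs_mul, abs_mul, abs_mul]
    have : |(1000 : ℝ)| = 1000 := by norm_num
    rw [this]
    calc 1000 * (|e| * (|p| * |d|)) ≤ 1000 * (|e| * (10 ^ 6 * |d|)) := by gcongr
      _ = 10 ^ 9 * (|e| * |d|) := by ring
  exact (abs_le.mp h1).1

/-- (j) -/
theorem stepj (e d : ℝ) :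
    (10 ^ 9 + 2) * (|e| * |d|) ≤ (2 / 1000) * d ^ 2 + 10 ^ 20 * (13 / 10) * e ^ 2 := by
  have := abs_mul_le_half e d (2 / 1000 / (10 ^ 9 + 2)) (by norm_num)
  have h2 : (10 ^ 9 + 2) * (|e| * |d|) ≤ (10 ^ 9 + 2) *
      (2 / 1000 / (10 ^ 9 + 2) * d ^ 2 + e ^ 2 / (4 * (2 / 1000 / (10 ^ 9 + 2)))) :=
    mul_le_mul_of_nonneg_left this (by norm_num)
  have h3 : (10 ^ 9 + 2 : ℝ) * (2 / 1000 / (10 ^ 9 + 2) * d ^ 2 +
      e ^ 2 / (4 * (2 / 1000 / (10 ^ 9 + 2)))) =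
      (2 / 1000) * d ^ 2 + (125 * (10 ^ 9 + 2) ^ 2) * e ^ 2 := by
    field_simp; ring
  rw [h3] at h2
  have h4 : (125 * (10 ^ 9 + 2) ^ 2 : ℝ) * e ^ 2 ≤ 10 ^ 20 * (13 / 10) * e ^ 2 :=
    mul_le_mul_of_nonneg_right (by norm_num) (sq_nonneg e)
  linarith

theorem stepV (v1 v2 v3 d1 d2 d3 t e q DB pi1 pi2 pi3 S2 SR R2 rb BH p1 p2 p3 : ℝ)
    (ht : |t| ≤ 1) (ht' : |t + e| ≤ 1)
    (hDB : -(|d1| * |d2| + |d1| * |d3| + |d2| * |d3|) ≤ DB)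
    (hpi1 : |pi1| ≤ 1) (hpi2 : |pi2| ≤ 1) (hpi3 : |pi3| ≤ 1)
    (hq : q ≤ 1 + |v1| + |v2| + |v3|) (hS2 : 0 ≤ S2) (hR2 : 0 ≤ R2)
    (hSR : SR ^ 2 ≤ S2 * R2) (hrb : rb ^ 2 ≤ 7 * R2) (hBH : 0 ≤ BH)
    (hp1 : |p1| ≤ 10 ^ 6) (hp2 : |p2| ≤ 10 ^ 6) (hp3 : |p3| ≤ 10 ^ 6) :
    -(|d1| * |d2| + |d1| * |d3| + |d2| * |d3|) + (1 / 200) * (d1 ^ 2 + d2 ^ 2 + d3 ^ 2)
      - 10 ^ 22 * R2 ≤
    (1 - (t + e) ^ 2) * (DB - (1 / 3200) * (d1 ^ 2 + d2 ^ 2 + d3 ^ 2) - (1 / 10000) * R2)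
      - (t + (t + e)) * e * ((pi1 * d1 + pi2 * d2 + pi3 * d3)
          - 2 * (1 / 3200) * (v1 * d1 + v2 * d2 + v3 * d3) - 2 * (1 / 10000) * SR)
      - e ^ 2 * (q - 3 / 1000 - (1 / 3200) * (v1 ^ 2 + v2 ^ 2 + v3 ^ 2)
          - (1 / 10000) * (S2 + 35))
      + (1 / 100) * (d1 ^ 2 + d2 ^ 2 + d3 ^ 2) + 500 * BH
      + 2 * 500 * e * (p1 * d1 + p2 * d2 + p3 * d3) + 10 ^ 21 * (rb - e) ^ 2 := by
  set P := |d1| * |d2| + |d1| * |d3| + |d2| * |d3| with hP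
  have hP0 : 0 ≤ P := by positivity
  have hT1 : 1 - (t + e) ^ 2 ≤ 1 := by linarith [sq_nonneg (t + e)]
  have hT0 : 0 ≤ 1 - (t + e) ^ 2 := by
    have : (t + e) ^ 2 ≤ 1 := by
      rw [sq_le_one_iff_abs_le_one]; exact ht'
    linarith
  have htt := pair_le ht ht'
  have ha : -P ≤ (1 - (t + e) ^ 2) * DB := by
    have h1 : (1 - (t + e) ^ 2) * (-P) ≤ (1 - (t + e) ^ 2) * DB :=
      mul_le_mul_of_nonneg_left hDB hT0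
    have h2 : (1 - (t + e) ^ 2) * P ≤ 1 * P := mul_le_mul_of_nonneg_right hT1 hP0
    linarith
  have hb1 : (1 - (t + e) ^ 2) * ((1 / 3200) * (d1 ^ 2 + d2 ^ 2 + d3 ^ 2)) ≤
      1 * ((1 / 3200) * (d1 ^ 2 + d2 ^ 2 + d3 ^ 2)) :=
    mul_le_mul_of_nonneg_right hT1 (by positivity)
  have hb2 : (1 - (t + e) ^ 2) * ((1 / 10000) * R2) ≤ 1 * ((1 / 10000) * R2) :=
    mul_le_mul_of_nonneg_right hT1 (by positivity)
  have hc1 := stepc (e := e) (d := d1) htt hpi1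
  have hc2 := stepc (e := e) (d := d2) htt hpi2
  have hc3 := stepc (e := e) (d := d3) htt hpi3
  have hd1 := stepd (e := e) (v := v1) (d := d1) htt
  have hd2 := stepd (e := e) (v := v2) (d := d2) htt
  have hd3 := stepd (e := e) (v := v3) (d := d3) htt
  have he := stepe (e := e) htt hS2 hR2 hSR
  have hg1 := stepg e v1
  have hg2 := stepg e v2
  have hg3 := stepg e v3
  have hf : e ^ 2 * q ≤ e ^ 2 * (1 + |v1| + |v2| + |v3|) :=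
    mul_le_mul_of_nonneg_left hq (sq_nonneg e)
  have hh1 := steph (e := e) (d := d1) hp1
  have hh2 := steph (e := e) (d := d2) hp2
  have hh3 := steph (e := e) (d := d3) hp3
  have hi : 10 ^ 21 * (1 / 2 * e ^ 2) - 10 ^ 21 * (7 * R2) ≤ 10 ^ 21 * (rb - e) ^ 2 := by
    have h1 : 0 ≤ (2 * rb - e) ^ 2 := sq_nonneg _
    have h2 : (rb - e) ^ 2 = 1 / 2 * e ^ 2 - rb ^ 2 + (2 * rb - e) ^ 2 / 2 := by ring
    rw [h2]
    linarith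
  have hj1 := stepj e d1
  have hj2 := stepj e d2
  have hj3 := stepj e d3
  have hE : 0 ≤ e ^ 2 := sq_nonneg e
  have hD1 : 0 ≤ d1 ^ 2 := sq_nonneg d1
  have hD2 : 0 ≤ d2 ^ 2 := sq_nonneg d2
  have hD3 : 0 ≤ d3 ^ 2 := sq_nonneg d3
  clear_value P
  clear hT1 hT0 htt hDB hSR hrb hpi1 hpi2 hpi3 hq ht ht' hp1 hp2 hp3 hP0 hP
  have e1 : (1 - (t + e) ^ 2) * (DB - (1 / 3200) * (d1 ^ 2 + d2 ^ 2 + d3 ^ 2) - (1 / 10000) * R2)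
      = (1 - (t + e) ^ 2) * DB - (1 - (t + e) ^ 2) * ((1 / 3200) * (d1 ^ 2 + d2 ^ 2 + d3 ^ 2))
        - (1 - (t + e) ^ 2) * ((1 / 10000) * R2) := by ring
  have e2 : (t + (t + e)) * e * ((pi1 * d1 + pi2 * d2 + pi3 * d3)
          - 2 * (1 / 3200) * (v1 * d1 + v2 * d2 + v3 * d3) - 2 * (1 / 10000) * SR) =
      (t + (t + e)) * e * (pi1 * d1) + (t + (t + e)) * e * (pi2 * d2)
      + (t + (t + e)) * e * (pi3 * d3) - (1 / 3200) * ((t + (t + e)) * e * (2 * (v1 * d1)))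
      - (1 / 3200) * ((t + (t + e)) * e * (2 * (v2 * d2)))
      - (1 / 3200) * ((t + (t + e)) * e * (2 * (v3 * d3)))
      - (1 / 10000) * ((t + (t + e)) * e * (2 * SR)) := by ring
  have e3 : 2 * 500 * e * (p1 * d1 + p2 * d2 + p3 * d3) =
      2 * 500 * e * (p1 * d1) + 2 * 500 * e * (p2 * d2) + 2 * 500 * e * (p3 * d3) := by ring
  have e4 : e ^ 2 * (q - 3 / 1000 - (1 / 3200) * (v1 ^ 2 + v2 ^ 2 + v3 ^ 2)
          - (1 / 10000) * (S2 + 35)) = e ^ 2 * q - (3 / 1000) * e ^ 2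
      - (1 / 3200) * (e ^ 2 * v1 ^ 2 + e ^ 2 * v2 ^ 2 + e ^ 2 * v3 ^ 2)
      - (1 / 10000) * (e ^ 2 * S2) - (35 / 10000) * e ^ 2 := by ring
  have e5 : e ^ 2 * (1 + |v1| + |v2| + |v3|) = e ^ 2 + e ^ 2 * |v1| + e ^ 2 * |v2| + e ^ 2 * |v3| := by
    ring
  rw [e1, e2, e3, e4]
  rw [e5] at hf
  generalize (1 - (t + e) ^ 2) * DB = X1 at *
  generalize (1 - (t + e) ^ 2) * ((1 / 3200) * (d1 ^ 2 + d2 ^ 2 + d3 ^ 2)) = X2 at *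
  generalize (1 - (t + e) ^ 2) * ((1 / 10000) * R2) = X3 at *
  generalize (t + (t + e)) * e * (pi1 * d1) = X4 at *
  generalize (t + (t + e)) * e * (pi2 * d2) = X5 at *
  generalize (t + (t + e)) * e * (pi3 * d3) = X6 at *
  generalize (t + (t + e)) * e * (2 * (v1 * d1)) = X7 at *
  generalize (t + (t + e)) * e * (2 * (v2 * d2)) = X8 at *
  generalize (t + (t + e)) * e * (2 * (v3 * d3)) = X9 at *
  generalize (t + (t + e)) * e * (2 * SR) = X10 at *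
  generalize 2 * 500 * e * (p1 * d1) = X11 at *
  generalize 2 * 500 * e * (p2 * d2) = X12 at *
  generalize 2 * 500 * e * (p3 * d3) = X13 at *
  generalize 10 ^ 21 * (rb - e) ^ 2 = X14 at *
  generalize e ^ 2 * q = X15 at *
  generalize e ^ 2 * |v1| = X16 at *
  generalize e ^ 2 * |v2| = X17 at *
  generalize e ^ 2 * |v3| = X18 at *
  have f1 : e ^ 2 * ((1 / 6400) * v1 ^ 2 + 1600) = (1 / 6400) * (e ^ 2 * v1 ^ 2) + 1600 * e ^ 2 := by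
    ring
  have f2 : e ^ 2 * ((1 / 6400) * v2 ^ 2 + 1600) = (1 / 6400) * (e ^ 2 * v2 ^ 2) + 1600 * e ^ 2 := by
    ring
  have f3 : e ^ 2 * ((1 / 6400) * v3 ^ 2 + 1600) = (1 / 6400) * (e ^ 2 * v3 ^ 2) + 1600 * e ^ 2 := by
    ring
  rw [f1] at hg1
  rw [f2] at hg2
  rw [f3] at hg3
  generalize e ^ 2 * v1 ^ 2 = Y1 at *
  generalize e ^ 2 * v2 ^ 2 = Y2 at *
  generalize e ^ 2 * v3 ^ 2 = Y3 at *
  generalize e ^ 2 * S2 = Y4 at *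
  generalize |e| * |d1| = Y5 at *
  generalize |e| * |d2| = Y6 at *
  generalize |e| * |d3| = Y7 at *
  generalize e ^ 2 = Y8 at *
  generalize d1 ^ 2 = Y9 at *
  generalize d2 ^ 2 = Y10 at *
  generalize d3 ^ 2 = Y11 at *
  linarith

/-- (d') -/
theorem stepd' {T e v d : ℝ} (hT : |T| ≤ 2) :
    -((1 / 4) * (e ^ 2 * v ^ 2) + 16 * d ^ 2) ≤ T * e * (2 * (v * d)) := by
  have h1 : |2 * (v * d)| ≤ 2 * (|v| * |d|) := by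
    rw [abs_mul, abs_mul, abs_two]
  have h2 := (abs_le.mp (mul_pair_le (e := e) hT h1)).1
  have h3 : 0 ≤ (|e| * |v| / 2 - 4 * |d|) ^ 2 := sq_nonneg _
  have h4 : |e| ^ 2 = e ^ 2 := sq_abs e
  have h5 : |v| ^ 2 = v ^ 2 := sq_abs v
  have h6 : |d| ^ 2 = d ^ 2 := sq_abs d
  have h7 : (|e| * |v| / 2 - 4 * |d|) ^ 2 =
      (1 / 4) * (e ^ 2 * v ^ 2) - 4 * (|e| * |v| * |d|) + 16 * d ^ 2 := by
    rw [← h4, ← h5, ← h6]; ring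
  rw [h7] at h3
  linarith

/-- (e') -/
theorem stepe' {T e S2 SR R2 : ℝ} (hT : |T| ≤ 2) (hS2 : 0 ≤ S2) (hR2 : 0 ≤ R2)
    (hSR : SR ^ 2 ≤ S2 * R2) : -((1 / 4) * (e ^ 2 * S2) + 16 * R2) ≤ T * e * (2 * SR) := by
  have h1 : |2 * SR| ≤ 2 * |SR| := by
    rw [abs_mul, abs_two]
  have h2 := (abs_le.mp (mul_pair_le (e := e) hT h1)).1
  have h3 : (4 * |e| * |SR|) ^ 2 ≤ ((1 / 4) * (e ^ 2 * S2) + 16 * R2) ^ 2 := by
    have h4 : (4 * |e| * |SR|) ^ 2 = 16 * e ^ 2 * SR ^ 2 := by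
      rw [mul_pow, mul_pow, sq_abs, sq_abs]; norm_num
    have h5 : 16 * e ^ 2 * SR ^ 2 ≤ 16 * e ^ 2 * (S2 * R2) :=
      mul_le_mul_of_nonneg_left hSR (by positivity)
    have h6 : 0 ≤ ((1 / 4) * (e ^ 2 * S2) - 16 * R2) ^ 2 := sq_nonneg _
    rw [h4]
    linarith
  have h6 : 0 ≤ (1 / 4) * (e ^ 2 * S2) + 16 * R2 := by positivity
  have h7 := abs_le_of_sq_le_sq h3 h6
  have h8 := (abs_le.mp h7).2
  linarith

/-- (j') -/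
theorem stepj' (e d : ℝ) :
    (10 ^ 9 + 2) * (|e| * |d|) ≤ (1 / 30000) * e ^ 2 + 10 ^ 22 * d ^ 2 := by
  have := abs_mul_le_half d e (1 / 30000 / (10 ^ 9 + 2)) (by norm_num)
  have h2 : (10 ^ 9 + 2) * (|d| * |e|) ≤ (10 ^ 9 + 2) *
      (1 / 30000 / (10 ^ 9 + 2) * e ^ 2 + d ^ 2 / (4 * (1 / 30000 / (10 ^ 9 + 2)))) :=
    mul_le_mul_of_nonneg_left this (by norm_num)
  have h3 : (10 ^ 9 + 2 : ℝ) * (1 / 30000 / (10 ^ 9 + 2) * e ^ 2 +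
      d ^ 2 / (4 * (1 / 30000 / (10 ^ 9 + 2)))) =
      (1 / 30000) * e ^ 2 + (7500 * (10 ^ 9 + 2) ^ 2) * d ^ 2 := by
    field_simp; ring
  rw [h3] at h2
  have h4 : (7500 * (10 ^ 9 + 2) ^ 2 : ℝ) * d ^ 2 ≤ 10 ^ 22 * d ^ 2 :=
    mul_le_mul_of_nonneg_right (by norm_num) (sq_nonneg d)
  have h5 : |e| * |d| = |d| * |e| := mul_comm _ _
  rw [h5]
  linarith

theorem nu_sq_le {A t' f rb d b : ℝ} (hA : |A| ≤ 1) (ht' : |t'| ≤ 1) :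
    (A * (f - rb) - t' * d + b) ^ 2 ≤ 4 * (f ^ 2 + rb ^ 2 + d ^ 2 + b ^ 2) := by
  have h1 : (A * (f - rb)) ^ 2 ≤ (f - rb) ^ 2 := by
    rw [mul_pow]
    have : A ^ 2 ≤ 1 := by rw [sq_le_one_iff_abs_le_one]; exact hA
    calc A ^ 2 * (f - rb) ^ 2 ≤ 1 * (f - rb) ^ 2 := by gcongr
      _ = _ := one_mul _
  have h2 : (t' * d) ^ 2 ≤ d ^ 2 := by
    rw [mul_pow]
    have : t' ^ 2 ≤ 1 := by rw [sq_le_one_iff_abs_le_one]; exact ht'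
    calc t' ^ 2 * d ^ 2 ≤ 1 * d ^ 2 := by gcongr
      _ = _ := one_mul _
  have h3 : (A * (f - rb) - t' * d + b) ^ 2 ≤ 2 * (A * (f - rb)) ^ 2 + 4 * (t' * d) ^ 2 + 4 * b ^ 2 := by
    have i1 : 0 ≤ (A * (f - rb) + (t' * d - b)) ^ 2 := sq_nonneg _
    have i2 : 0 ≤ (t' * d + b) ^ 2 := sq_nonneg _
    linarith
  have h4 : 2 * (f - rb) ^ 2 ≤ 4 * f ^ 2 + 4 * rb ^ 2 := by
    have i1 : 0 ≤ (f + rb) ^ 2 := sq_nonneg _
    linarith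
  linarith

theorem pairs_le (d1 d2 d3 : ℝ) :
    |d1| * |d2| + |d1| * |d3| + |d2| * |d3| ≤ d1 ^ 2 + d2 ^ 2 + d3 ^ 2 := by
  have h1 := sq_nonneg (|d1| - |d2|)
  have h2 := sq_nonneg (|d1| - |d3|)
  have h3 := sq_nonneg (|d2| - |d3|)
  rw [← sq_abs d1, ← sq_abs d2, ← sq_abs d3]
  linarith

theorem stepS (v1 v2 v3 d1 d2 d3 t e q DB pi1 pi2 pi3 S2 sk SR R2 rb d A1 A2 A3 a1 a2 a3
    b1 b2 b3 B1 B2 B3 p1 p2 p3 : ℝ)
    (ht : |t| ≤ 1) (ht' : |t + e| ≤ 1)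
    (hDB : -(|d1| * |d2| + |d1| * |d3| + |d2| * |d3|) ≤ DB)
    (hpi1 : |pi1| ≤ 1) (hpi2 : |pi2| ≤ 1) (hpi3 : |pi3| ≤ 1)
    (hq : q ≤ |v1 - A1| + |v2 - A2| + |v3 - A3|) (hS2 : 0 ≤ S2) (hR2 : 0 ≤ R2)
    (hSR : SR ^ 2 ≤ S2 * R2) (hrb : rb ^ 2 ≤ 7 * R2) (hsk : sk ^ 2 ≤ S2)
    (hA1 : |A1| ≤ 1) (hA2 : |A2| ≤ 1) (hA3 : |A3| ≤ 1)
    (ha1 : a1 ^ 2 ≤ 7 * S2) (ha2 : a2 ^ 2 ≤ 7 * S2) (ha3 : a3 ^ 2 ≤ 7 * S2)
    (hb1 : b1 ^ 2 ≤ 7 * R2) (hb2 : b2 ^ 2 ≤ 7 * R2) (hb3 : b3 ^ 2 ≤ 7 * R2)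
    (hB1 : e ^ 2 * (|v1 - A1| - 1 / 1000) - 500 * (A1 * (d - e) - (t + e) * d1 + b1) ^ 2 ≤
      500 * B1 + e ^ 2 * ((1 / 6400) * v1 ^ 2 + (1 / 420000) * a1 ^ 2))
    (hB2 : e ^ 2 * (|v2 - A2| - 1 / 1000) - 500 * (A2 * (d - e) - (t + e) * d2 + b2) ^ 2 ≤
      500 * B2 + e ^ 2 * ((1 / 6400) * v2 ^ 2 + (1 / 420000) * a2 ^ 2))
    (hB3 : e ^ 2 * (|v3 - A3| - 1 / 1000) - 500 * (A3 * (d - e) - (t + e) * d3 + b3) ^ 2 ≤
      500 * B3 + e ^ 2 * ((1 / 6400) * v3 ^ 2 + (1 / 420000) * a3 ^ 2))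
    (hp1 : |p1| ≤ 10 ^ 6) (hp2 : |p2| ≤ 10 ^ 6) (hp3 : |p3| ≤ 10 ^ 6) :
    -(3 * 10 ^ 22 * (d1 ^ 2 + d2 ^ 2 + d3 ^ 2 + R2)) ≤
    (1 - (t + e) ^ 2) * (DB - (1 / 3200) * (d1 ^ 2 + d2 ^ 2 + d3 ^ 2)
        - (1 / 10000) * (d ^ 2 + R2))
      - (t + (t + e)) * e * ((pi1 * d1 + pi2 * d2 + pi3 * d3)
          - 2 * (1 / 3200) * (v1 * d1 + v2 * d2 + v3 * d3) - 2 * (1 / 10000) * (sk * d + SR))
      - e ^ 2 * (q - 3 / 1000 - (1 / 3200) * (v1 ^ 2 + v2 ^ 2 + v3 ^ 2)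
          - (1 / 10000) * (S2 + 35))
      + (1 / 100) * (d1 ^ 2 + d2 ^ 2 + d3 ^ 2) + 500 * (B1 + B2 + B3)
      + 2 * 500 * e * (p1 * d1 + p2 * d2 + p3 * d3) + 10 ^ 21 * (d + rb - e) ^ 2 := by
  have hpairs := pairs_le d1 d2 d3
  set P := |d1| * |d2| + |d1| * |d3| + |d2| * |d3| with hP
  have hP0 : 0 ≤ P := by positivity
  have hT1 : 1 - (t + e) ^ 2 ≤ 1 := by linarith [sq_nonneg (t + e)]
  have hT0 : 0 ≤ 1 - (t + e) ^ 2 := by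
    have : (t + e) ^ 2 ≤ 1 := by
      rw [sq_le_one_iff_abs_le_one]; exact ht'
    linarith
  have htt := pair_le ht ht'
  have ha : -P ≤ (1 - (t + e) ^ 2) * DB := by
    have h1 : (1 - (t + e) ^ 2) * (-P) ≤ (1 - (t + e) ^ 2) * DB :=
      mul_le_mul_of_nonneg_left hDB hT0
    have h2 : (1 - (t + e) ^ 2) * P ≤ 1 * P := mul_le_mul_of_nonneg_right hT1 hP0
    linarith
  have hb1' : (1 - (t + e) ^ 2) * ((1 / 3200) * (d1 ^ 2 + d2 ^ 2 + d3 ^ 2)) ≤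
      1 * ((1 / 3200) * (d1 ^ 2 + d2 ^ 2 + d3 ^ 2)) :=
    mul_le_mul_of_nonneg_right hT1 (by positivity)
  have hb2' : (1 - (t + e) ^ 2) * ((1 / 10000) * (d ^ 2 + R2)) ≤
      1 * ((1 / 10000) * (d ^ 2 + R2)) :=
    mul_le_mul_of_nonneg_right hT1 (by positivity)
  have hc1 := stepc (e := e) (d := d1) htt hpi1
  have hc2 := stepc (e := e) (d := d2) htt hpi2
  have hc3 := stepc (e := e) (d := d3) htt hpi3
  have hd1 := stepd (e := e) (v := v1) (d := d1) htt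
  have hd2 := stepd (e := e) (v := v2) (d := d2) htt
  have hd3 := stepd (e := e) (v := v3) (d := d3) htt
  have hd4 := stepd' (e := e) (v := sk) (d := d) htt
  have he := stepe' (e := e) htt hS2 hR2 hSR
  have hf : e ^ 2 * q ≤ e ^ 2 * (|v1 - A1| + |v2 - A2| + |v3 - A3|) :=
    mul_le_mul_of_nonneg_left hq (sq_nonneg e)
  have hh1 := steph (e := e) (d := d1) hp1
  have hh2 := steph (e := e) (d := d2) hp2
  have hh3 := steph (e := e) (d := d3) hp3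
  have hj1 := stepj' e d1
  have hj2 := stepj' e d2
  have hj3 := stepj' e d3
  have hn1 := nu_sq_le (f := d + rb - e) (rb := rb) (d := d1) (b := b1) hA1 ht'
  have hn2 := nu_sq_le (f := d + rb - e) (rb := rb) (d := d2) (b := b2) hA2 ht'
  have hn3 := nu_sq_le (f := d + rb - e) (rb := rb) (d := d3) (b := b3) hA3 ht'
  have hde : d + rb - e - rb = d - e := by ring
  rw [hde] at hn1 hn2 hn3
  have hdd : d ^ 2 ≤ 2 * e ^ 2 + 4 * (d + rb - e) ^ 2 + 4 * rb ^ 2 := by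
    have i1 : 0 ≤ ((d + rb - e) - rb - e) ^ 2 := sq_nonneg _
    have i2 : 0 ≤ ((d + rb - e) + rb) ^ 2 := sq_nonneg _
    have i3 : d = (d + rb - e) - rb + e := by ring
    have i4 : d ^ 2 = ((d + rb - e) - rb + e) ^ 2 := by rw [← i3]
    linarith
  have hS2e : e ^ 2 * sk ^ 2 ≤ e ^ 2 * S2 := mul_le_mul_of_nonneg_left hsk (sq_nonneg e)
  have ha1e : e ^ 2 * a1 ^ 2 ≤ e ^ 2 * (7 * S2) := mul_le_mul_of_nonneg_left ha1 (sq_nonneg e)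
  have ha2e : e ^ 2 * a2 ^ 2 ≤ e ^ 2 * (7 * S2) := mul_le_mul_of_nonneg_left ha2 (sq_nonneg e)
  have ha3e : e ^ 2 * a3 ^ 2 ≤ e ^ 2 * (7 * S2) := mul_le_mul_of_nonneg_left ha3 (sq_nonneg e)
  have hE : 0 ≤ e ^ 2 := sq_nonneg e
  have hD1 : 0 ≤ d1 ^ 2 := sq_nonneg d1
  have hD2 : 0 ≤ d2 ^ 2 := sq_nonneg d2
  have hD3 : 0 ≤ d3 ^ 2 := sq_nonneg d3
  have hF : 0 ≤ (d + rb - e) ^ 2 := sq_nonneg _
  clear_value P
  clear hT1 hT0 htt hDB hSR hpi1 hpi2 hpi3 hq ht ht' hp1 hp2 hp3 hP0 hP hA1 hA2 hA3 ha1 ha2 ha3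
    hsk hde
  have e1 : (1 - (t + e) ^ 2) * (DB - (1 / 3200) * (d1 ^ 2 + d2 ^ 2 + d3 ^ 2)
        - (1 / 10000) * (d ^ 2 + R2))
      = (1 - (t + e) ^ 2) * DB - (1 - (t + e) ^ 2) * ((1 / 3200) * (d1 ^ 2 + d2 ^ 2 + d3 ^ 2))
        - (1 - (t + e) ^ 2) * ((1 / 10000) * (d ^ 2 + R2)) := by ring
  have e2 : (t + (t + e)) * e * ((pi1 * d1 + pi2 * d2 + pi3 * d3)
          - 2 * (1 / 3200) * (v1 * d1 + v2 * d2 + v3 * d3)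
          - 2 * (1 / 10000) * (sk * d + SR)) =
      (t + (t + e)) * e * (pi1 * d1) + (t + (t + e)) * e * (pi2 * d2)
      + (t + (t + e)) * e * (pi3 * d3) - (1 / 3200) * ((t + (t + e)) * e * (2 * (v1 * d1)))
      - (1 / 3200) * ((t + (t + e)) * e * (2 * (v2 * d2)))
      - (1 / 3200) * ((t + (t + e)) * e * (2 * (v3 * d3)))
      - (1 / 10000) * ((t + (t + e)) * e * (2 * (sk * d)))
      - (1 / 10000) * ((t + (t + e)) * e * (2 * SR)) := by ring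
  have e3 : 2 * 500 * e * (p1 * d1 + p2 * d2 + p3 * d3) =
      2 * 500 * e * (p1 * d1) + 2 * 500 * e * (p2 * d2) + 2 * 500 * e * (p3 * d3) := by ring
  have e4 : e ^ 2 * (q - 3 / 1000 - (1 / 3200) * (v1 ^ 2 + v2 ^ 2 + v3 ^ 2)
          - (1 / 10000) * (S2 + 35)) = e ^ 2 * q - (3 / 1000) * e ^ 2
      - (1 / 3200) * (e ^ 2 * v1 ^ 2 + e ^ 2 * v2 ^ 2 + e ^ 2 * v3 ^ 2)
      - (1 / 10000) * (e ^ 2 * S2) - (35 / 10000) * e ^ 2 := by ring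
  have e5 : e ^ 2 * (|v1 - A1| + |v2 - A2| + |v3 - A3|) =
      e ^ 2 * |v1 - A1| + e ^ 2 * |v2 - A2| + e ^ 2 * |v3 - A3| := by ring
  have e6 : ∀ x v a : ℝ, e ^ 2 * (|x| - 1 / 1000) = e ^ 2 * |x| - (1 / 1000) * e ^ 2 ∧
      e ^ 2 * ((1 / 6400) * v ^ 2 + (1 / 420000) * a ^ 2) =
        (1 / 6400) * (e ^ 2 * v ^ 2) + (1 / 420000) * (e ^ 2 * a ^ 2) :=
    fun x v a => ⟨by ring, by ring⟩
  rw [e1, e2, e3, e4]
  rw [e5] at hf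
  rw [(e6 (v1 - A1) v1 a1).1, (e6 (v1 - A1) v1 a1).2] at hB1
  rw [(e6 (v2 - A2) v2 a2).1, (e6 (v2 - A2) v2 a2).2] at hB2
  rw [(e6 (v3 - A3) v3 a3).1, (e6 (v3 - A3) v3 a3).2] at hB3
  generalize (1 - (t + e) ^ 2) * DB = X1 at *
  generalize (1 - (t + e) ^ 2) * ((1 / 3200) * (d1 ^ 2 + d2 ^ 2 + d3 ^ 2)) = X2 at *
  generalize (1 - (t + e) ^ 2) * ((1 / 10000) * (d ^ 2 + R2)) = X3 at *
  generalize (t + (t + e)) * e * (pi1 * d1) = X4 at *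
  generalize (t + (t + e)) * e * (pi2 * d2) = X5 at *
  generalize (t + (t + e)) * e * (pi3 * d3) = X6 at *
  generalize (t + (t + e)) * e * (2 * (v1 * d1)) = X7 at *
  generalize (t + (t + e)) * e * (2 * (v2 * d2)) = X8 at *
  generalize (t + (t + e)) * e * (2 * (v3 * d3)) = X9 at *
  generalize (t + (t + e)) * e * (2 * (sk * d)) = X9' at *
  generalize (t + (t + e)) * e * (2 * SR) = X10 at *
  generalize 2 * 500 * e * (p1 * d1) = X11 at *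
  generalize 2 * 500 * e * (p2 * d2) = X12 at *
  generalize 2 * 500 * e * (p3 * d3) = X13 at *
  generalize (d + rb - e) ^ 2 = X14 at *
  generalize e ^ 2 * q = X15 at *
  generalize e ^ 2 * |v1 - A1| = X16 at *
  generalize e ^ 2 * |v2 - A2| = X17 at *
  generalize e ^ 2 * |v3 - A3| = X18 at *
  generalize (A1 * (d - e) - (t + e) * d1 + b1) ^ 2 = Z1 at *
  generalize (A2 * (d - e) - (t + e) * d2 + b2) ^ 2 = Z2 at *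
  generalize (A3 * (d - e) - (t + e) * d3 + b3) ^ 2 = Z3 at *
  have e7 : e ^ 2 * (7 * S2) = 7 * (e ^ 2 * S2) := by ring
  rw [e7] at ha1e ha2e ha3e
  generalize e ^ 2 * a1 ^ 2 = W1 at *
  generalize e ^ 2 * a2 ^ 2 = W2 at *
  generalize e ^ 2 * a3 ^ 2 = W3 at *
  generalize e ^ 2 * sk ^ 2 = W4 at *
  generalize e ^ 2 * v1 ^ 2 = Y1 at *
  generalize e ^ 2 * v2 ^ 2 = Y2 at *
  generalize e ^ 2 * v3 ^ 2 = Y3 at *
  generalize e ^ 2 * S2 = Y4 at *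
  generalize |e| * |d1| = Y5 at *
  generalize |e| * |d2| = Y6 at *
  generalize |e| * |d3| = Y7 at *
  generalize e ^ 2 = Y8 at *
  generalize d1 ^ 2 = Y9 at *
  generalize d2 ^ 2 = Y10 at *
  generalize d3 ^ 2 = Y11 at *
  generalize d ^ 2 = Y12 at *
  generalize rb ^ 2 = Y13 at *
  generalize b1 ^ 2 = Y14 at *
  generalize b2 ^ 2 = Y15 at *
  generalize b3 ^ 2 = Y16 at *
  linarith

end Pool.Agent.Lib.MP_393ee6_an
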