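import Pool.Agent.Lib.MP_393ee6_an.Data

/-!
Lower bounds for laminates by certificates.
-/

open MeasureTheory Matrix

namespace Pool.Agent.Lib.MP_393ee6_an

variable {n : ℕ}

/-- A field of the form `ν ⊗ c`. -/
def IsRankOne (y : Sn n) : Prop := ∃ (ν : Fin 2 → ℝ) (c : Fin n → ℝ), ∀ i, y i = ν i.1 * c i.2

theorem IsRankOne.smul {y : Sn n} (h : IsRankOne y) (r : ℝ) : IsRankOne (r • y) := by
  obtain ⟨ν, c, h⟩ := h
  refine ⟨ν, fun j => r * c j, fun i => ?_⟩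
  simp only [Pi.smul_apply, smul_eq_mul, h i]
  ring

/-- The energy identity for a simple layering. -/
theorem layering_energy {θ : ℝ} {ν : Fin 2 → ℝ} {F₁ F₂ a b : Sn n} {c : Fin n → ℝ}
    (h₁ : ∀ i, F₁ i - F₂ i = ν i.1 * c i.2)
    (h₂ : ∀ j, ∑ a', ν a' * (a (a', j) - b (a', j)) = 0) :
    (θ • F₁ + (1 - θ) • F₂) ⬝ᵥ (θ • a + (1 - θ) • b) =
      θ * (F₁ ⬝ᵥ a) + (1 - θ) * (F₂ ⬝ᵥ b) := by
  have h0 : (F₁ - F₂) ⬝ᵥ (a - b) = 0 := by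
    simp only [dotProduct, Pi.sub_apply, h₁]
    rw [Fintype.sum_prod_type, Finset.sum_comm]
    have : ∀ j : Fin n, ∑ x : Fin 2, ν x * c j * (a (x, j) - b (x, j)) = 0 := by
      intro j
      have h := h₂ j
      calc ∑ x : Fin 2, ν x * c j * (a (x, j) - b (x, j))
          = c j * ∑ x : Fin 2, ν x * (a (x, j) - b (x, j)) := by
            rw [Finset.mul_sum]; exact Finset.sum_congr rfl (fun x _ => by ring)
        _ = 0 := by rw [h, mul_zero]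
    exact Finset.sum_eq_zero (fun j _ => this j)
  have h0' : F₁ ⬝ᵥ a - F₁ ⬝ᵥ b - F₂ ⬝ᵥ a + F₂ ⬝ᵥ b = 0 := by
    rw [← h0]
    simp only [sub_dotProduct, dotProduct_sub]
    ring
  simp only [add_dotProduct, dotProduct_add, smul_dotProduct, dotProduct_smul, smul_eq_mul]
  have : F₁ ⬝ᵥ a + F₂ ⬝ᵥ b = F₁ ⬝ᵥ b + F₂ ⬝ᵥ a := by linarith
  linear_combination (-(θ * (1 - θ))) * this

/-- Lower bound for laminates: `G F t` has one-sided supporting functionals for all steps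
`(rank one, arbitrary)` and lies below the energies of the phases at `t = ± 1`. -/
theorem lam_lower {L₁ L₂ : Tens n} (G : Sn n → ℝ → ℝ)
    (hsub : ∀ (F : Sn n) (t : ℝ), |t| ≤ 1 → ∃ (p : Sn n) (pt : ℝ), ∀ (y : Sn n) (e : ℝ),
      IsRankOne y → |t + e| ≤ 1 → G F t + p ⬝ᵥ y + pt * e ≤ G (F + y) (t + e))
    (h1 : ∀ F, G F 1 ≤ F ⬝ᵥ (L₁ *ᵥ F)) (h2 : ∀ F, G F (-1) ≤ F ⬝ᵥ (L₂ *ᵥ F))
    {f : ℝ} {A : Tens n} (hA : IsLaminate L₁ L₂ f A) :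
    0 ≤ f ∧ f ≤ 1 ∧ ∀ F, G F (2 * f - 1) ≤ F ⬝ᵥ (A *ᵥ F) := by
  induction hA with
  | phase1 => exact ⟨by norm_num, le_refl _, fun F => by
      have := h1 F; norm_num; exact this⟩
  | phase2 => exact ⟨le_refl _, by norm_num, fun F => by
      have := h2 F; norm_num; exact this⟩
  | @layer f₁ f₂ θ ν A B C hA hB hθ0 hθ1 hν hlay ihA ihB =>
    obtain ⟨a0, a1, ihA⟩ := ihA
    obtain ⟨b0, b1, ihB⟩ := ihB
    refine ⟨by nlinarith, by nlinarith, fun F => ?_⟩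
    obtain ⟨F₁, F₂, c, hF, hc, hj, hC⟩ := hlay F
    have hen : F ⬝ᵥ (C *ᵥ F) = θ * (F₁ ⬝ᵥ (A *ᵥ F₁)) + (1 - θ) * (F₂ ⬝ᵥ (B *ᵥ F₂)) := by
      rw [hC, hF]
      exact layering_energy hc hj
    rw [hen]
    set t := 2 * (θ * f₁ + (1 - θ) * f₂) - 1 with ht
    have htabs : |t| ≤ 1 := by
      rw [abs_le]; constructor <;> nlinarith
    obtain ⟨p, pt, hp⟩ := hsub F t htabs
    have hr : IsRankOne (F₁ - F₂) := ⟨ν, c, fun i => by simpa using hc i⟩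
    have e1 := hp ((1 - θ) • (F₁ - F₂)) (2 * f₁ - 1 - t) (hr.smul _) (by
      rw [abs_le]; constructor <;> linarith)
    have e2 := hp ((-θ) • (F₁ - F₂)) (2 * f₂ - 1 - t) (hr.smul _) (by
      rw [abs_le]; constructor <;> linarith)
    have q1 : F + (1 - θ) • (F₁ - F₂) = F₁ := by
      rw [hF]; ext i
      simp only [Pi.add_apply, Pi.smul_apply, Pi.sub_apply, smul_eq_mul]; ring
    have q2 : F + (-θ) • (F₁ - F₂) = F₂ := by
      rw [hF]; ext i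
      simp only [Pi.add_apply, Pi.smul_apply, Pi.sub_apply, smul_eq_mul]; ring
    rw [q1, show t + (2 * f₁ - 1 - t) = 2 * f₁ - 1 by ring] at e1
    rw [q2, show t + (2 * f₂ - 1 - t) = 2 * f₂ - 1 by ring] at e2
    rw [dotProduct_smul, smul_eq_mul] at e1 e2
    have i1 := ihA F₁
    have i2 := ihB F₂
    have hs : θ * (G F t + (1 - θ) * (p ⬝ᵥ (F₁ - F₂)) + pt * (2 * f₁ - 1 - t)) +
        (1 - θ) * (G F t + (-θ) * (p ⬝ᵥ (F₁ - F₂)) + pt * (2 * f₂ - 1 - t)) = G F t := by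
      rw [ht]; ring
    calc G F t = θ * (G F t + (1 - θ) * (p ⬝ᵥ (F₁ - F₂)) + pt * (2 * f₁ - 1 - t)) +
        (1 - θ) * (G F t + (-θ) * (p ⬝ᵥ (F₁ - F₂)) + pt * (2 * f₂ - 1 - t)) := hs.symm
      _ ≤ θ * (F₁ ⬝ᵥ (A *ᵥ F₁)) + (1 - θ) * (F₂ ⬝ᵥ (B *ᵥ F₂)) := by
        have h1' := mul_le_mul_of_nonneg_left (e1.trans i1) hθ0
        have h2' := mul_le_mul_of_nonneg_left (e2.trans i2) (sub_nonneg.mpr hθ1)
        linarith

end Pool.Agent.Lib.MP_393ee6_an
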