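import Pool.Agent.Lib.MP_393ee6_an.Defs

/-!
Existence of the effective tensor of a simple layering of two positive definite tensors, and of
laminates with every volume fraction.
-/

open Matrix Finset

namespace Pool.Agent.Lib.MP_393ee6_an

variable {n : ℕ}

/-- the field `ν ⊗ c` as a linear function of `c` -/
def tens (ν : Fin 2 → ℝ) : (Fin n → ℝ) →ₗ[ℝ] Sn n where
  toFun c := fun i => ν i.1 * c i.2
  map_add' c c' := by funext i; simp only [Pi.add_apply]; ring
  map_smul' r c := by funext i; simp only [Pi.smul_apply, smul_eq_mul, RingHom.id_apply]; ring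

/-- normal component of a flux -/
def norc (ν : Fin 2 → ℝ) : Sn n →ₗ[ℝ] (Fin n → ℝ) where
  toFun J := fun j => ∑ a, ν a * J (a, j)
  map_add' J J' := by
    funext j; simp only [Pi.add_apply, mul_add, sum_add_distrib]
  map_smul' r J := by
    funext j; simp only [Pi.smul_apply, smul_eq_mul, RingHom.id_apply, mul_sum]
    exact sum_congr rfl (fun a _ => by ring)

theorem dot_norc (ν : Fin 2 → ℝ) (c : Fin n → ℝ) (J : Sn n) :
    c ⬝ᵥ norc ν J = tens ν c ⬝ᵥ J := by
  simp only [norc, tens, dotProduct, LinearMap.coe_mk, AddHom.coe_mk, mul_sum]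
  rw [Fintype.sum_prod_type, sum_comm]
  exact sum_congr rfl (fun a _ => sum_congr rfl (fun j _ => by ring))

/-- A simple layering of two positive definite tensors has an effective tensor. -/
theorem exists_layering {A B : Tens n} (hA : A.PosDef) (hB : B.PosDef) {θ : ℝ} (h0 : 0 ≤ θ)
    (h1 : θ ≤ 1) {ν : Fin 2 → ℝ} (hν : ν ≠ 0) : ∃ C : Tens n, IsLayering θ ν A B C := by
  set M : Sn n →ₗ[ℝ] Sn n := (1 - θ) • A.mulVecLin + θ • B.mulVecLin with hM
  set N : (Fin n → ℝ) →ₗ[ℝ] (Fin n → ℝ) := (norc ν) ∘ₗ M ∘ₗ (tens ν) with hN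
  have hinj : Function.Injective N := by
    rw [← LinearMap.ker_eq_bot, LinearMap.ker_eq_bot']
    intro c hc
    by_contra hcne
    have ht : tens ν c ≠ 0 := by
      intro h
      obtain ⟨a, ha⟩ := Function.ne_iff.mp hν
      obtain ⟨j, hj⟩ := Function.ne_iff.mp hcne
      have := congrFun h (a, j)
      simp only [tens, LinearMap.coe_mk, AddHom.coe_mk, Pi.zero_apply, mul_eq_zero] at this
      rcases this with h' | h'
      · exact ha h'
      · exact hj h'
    have e1 : c ⬝ᵥ N c = (1 - θ) * (tens ν c ⬝ᵥ (A *ᵥ tens ν c))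
        + θ * (tens ν c ⬝ᵥ (B *ᵥ tens ν c)) := by
      simp only [hN, hM, LinearMap.comp_apply, dot_norc, LinearMap.add_apply,
        LinearMap.smul_apply, mulVecLin_apply, dotProduct_add, dotProduct_smul, smul_eq_mul]
    have pA := hA.dotProduct_mulVec_pos ht
    have pB := hB.dotProduct_mulVec_pos ht
    rw [star_trivial] at pA pB
    rw [hc, dotProduct_zero] at e1
    rcases h0.eq_or_lt with h | h
    · rw [← h] at e1; linarith
    · have := mul_pos h pB
      have := mul_nonneg (sub_nonneg.mpr h1) pA.le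
      linarith
  set Ne := LinearEquiv.ofInjectiveEndo N hinj with hNe
  -- jump amplitude as a linear function of `F`
  set cc : Sn n →ₗ[ℝ] (Fin n → ℝ) :=
    Ne.symm.toLinearMap ∘ₗ (norc ν) ∘ₗ (B.mulVecLin - A.mulVecLin) with hcc
  set G1 : Sn n →ₗ[ℝ] Sn n := LinearMap.id + (1 - θ) • ((tens ν) ∘ₗ cc) with hG1
  set G2 : Sn n →ₗ[ℝ] Sn n := LinearMap.id - θ • ((tens ν) ∘ₗ cc) with hG2
  set Φ : Sn n →ₗ[ℝ] Sn n := θ • (A.mulVecLin ∘ₗ G1) + (1 - θ) • (B.mulVecLin ∘ₗ G2) with hΦ
  refine ⟨LinearMap.toMatrix' Φ, fun F => ⟨G1 F, G2 F, cc F, ?_, ?_, ?_, ?_⟩⟩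
  · simp only [hG1, hG2, LinearMap.add_apply, LinearMap.sub_apply, LinearMap.smul_apply,
      LinearMap.id_apply, LinearMap.comp_apply]
    funext i
    simp only [Pi.add_apply, Pi.smul_apply, Pi.sub_apply, smul_eq_mul]
    ring
  · intro i
    simp only [hG1, hG2, LinearMap.add_apply, LinearMap.sub_apply, LinearMap.smul_apply,
      LinearMap.id_apply, LinearMap.comp_apply, Pi.add_apply, Pi.smul_apply, Pi.sub_apply,
      smul_eq_mul]
    simp only [tens, LinearMap.coe_mk, AddHom.coe_mk]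
    ring
  · intro j
    have e1 : N (cc F) = norc ν (B *ᵥ F - A *ᵥ F) := by
      have : N (cc F) = Ne (cc F) := rfl
      rw [this, hcc]
      simp only [LinearMap.comp_apply, LinearEquiv.coe_coe, LinearEquiv.apply_symm_apply,
        LinearMap.sub_apply, mulVecLin_apply]
    have e2 : norc ν (A *ᵥ G1 F - B *ᵥ G2 F) = 0 := by
      have h3 : A *ᵥ G1 F - B *ᵥ G2 F = (A *ᵥ F - B *ᵥ F) + M (tens ν (cc F)) := by
        simp only [hG1, hG2, hM, LinearMap.add_apply, LinearMap.sub_apply,
          LinearMap.smul_apply, LinearMap.id_apply, LinearMap.comp_apply, mulVecLin_apply,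
          mulVec_add, mulVec_sub, mulVec_smul]
        abel
      rw [h3, map_add]
      have h4 : norc ν (M (tens ν (cc F))) = N (cc F) := rfl
      rw [h4, e1, ← map_add]
      have h5 : A *ᵥ F - B *ᵥ F + (B *ᵥ F - A *ᵥ F) = 0 := by abel
      rw [h5, map_zero]
    have := congrFun e2 j
    simpa only [norc, LinearMap.coe_mk, AddHom.coe_mk, Pi.sub_apply, Pi.zero_apply] using this
  · rw [LinearMap.toMatrix'_mulVec, hΦ]
    simp only [LinearMap.add_apply, LinearMap.smul_apply, LinearMap.comp_apply, mulVecLin_apply]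

/-- There are laminates of every volume fraction. -/
theorem exists_laminate {L₁ L₂ : Tens n} (h₁ : L₁.PosDef) (h₂ : L₂.PosDef) {f : ℝ} (h0 : 0 ≤ f)
    (h1 : f ≤ 1) : ∃ A, IsLaminate L₁ L₂ f A := by
  have hν : (fun _ : Fin 2 => (1 : ℝ)) ≠ 0 := by
    intro h
    have := congrFun h 0
    simp at this
  obtain ⟨C, hC⟩ := exists_layering h₁ h₂ h0 h1 hν
  have := IsLaminate.layer IsLaminate.phase1 IsLaminate.phase2 h0 h1 hν hC
  rw [mul_one, mul_zero, add_zero] at this
  exact ⟨C, this⟩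

end Pool.Agent.Lib.MP_393ee6_an
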