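import Pool.Agent.Lib.MP_393ee6_an.Cert
import Pool.Agent.Lib.MP_393ee6_an.Lam

/-!
The two phases, and the rank-one inequality for the full certificate.
-/

open Finset Matrix

namespace Pool.Agent.Lib.MP_393ee6_an

/-! ### Coordinates along and across the directions -/

/-- Integer version of the directions. -/
def dirZ (j : Fin 11) (a : Fin 2) : ℤ :=
  if j.val = 1 then (if a = 0 then 0 else 1)
  else (if a = 0 then 1 else ((j.val - 1 : ℕ) : ℤ))

theorem dir_eq (j : Fin 11) (a : Fin 2) : dir j a = (dirZ j a : ℝ) := by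
  unfold dir dirZ; split_ifs <;> simp

theorem crossZ : ∀ j j' : Fin 11, j ≠ j' →
    1 ≤ (dirZ j 0 * dirZ j' 1 - dirZ j 1 * dirZ j' 0) ^ 2 := by decide

theorem cross_sq (j j' : Fin 11) (h : j ≠ j') :
    1 ≤ (dir j 0 * dir j' 1 - dir j 1 * dir j' 0) ^ 2 := by
  simp only [dir_eq]
  exact_mod_cast crossZ j j' h

theorem normZ : ∀ j : Fin 11, 1 ≤ dirZ j 0 ^ 2 + dirZ j 1 ^ 2 ∧
    dirZ j 0 ^ 2 + dirZ j 1 ^ 2 ≤ 82 := by decide

/-- Squared length of the direction. -/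
noncomputable def nrm (j : Fin 11) : ℝ := dir j 0 ^ 2 + dir j 1 ^ 2

theorem nrm_ge (j : Fin 11) : 1 ≤ nrm j := by
  unfold nrm; simp only [dir_eq]; exact_mod_cast (normZ j).1

theorem nrm_le (j : Fin 11) : nrm j ≤ 82 := by
  unfold nrm; simp only [dir_eq]; exact_mod_cast (normZ j).2

/-- Functional giving the coordinate of the column `j` along `dir j`. -/
noncomputable def yv (j : Fin 11) : Sn 11 := fun i => if i.2 = j then dir j i.1 / nrm j else 0

/-- Functional giving the coordinate of the column `j` across `dir j`. -/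
noncomputable def zv (j : Fin 11) : Sn 11 := fun i =>
  if i.2 = j then (if i.1 = 0 then dir j 1 else -dir j 0) else 0

theorem yv_dot (j : Fin 11) (F : Sn 11) :
    yv j ⬝ᵥ F = (dir j 0 * F (0, j) + dir j 1 * F (1, j)) / nrm j := by
  unfold yv dotProduct
  rw [Fintype.sum_prod_type, Fin.sum_univ_two]
  simp only [ite_mul, zero_mul, sum_ite_eq', mem_univ, if_true]
  ring

theorem zv_dot (j : Fin 11) (F : Sn 11) :
    zv j ⬝ᵥ F = dir j 1 * F (0, j) - dir j 0 * F (1, j) := by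
  unfold zv dotProduct
  rw [Fintype.sum_prod_type, Fin.sum_univ_two]
  simp only [ite_mul, zero_mul, sum_ite_eq', mem_univ, if_true]
  simp
  ring

theorem yv_fld (j : Fin 11) (Y : Fin 11 → ℝ) : yv j ⬝ᵥ fld Y = Y j := by
  rw [yv_dot]
  have h : nrm j ≠ 0 := by have := nrm_ge j; linarith
  unfold fld
  rw [div_eq_iff h]
  unfold nrm
  ring

theorem zv_fld (j : Fin 11) (Y : Fin 11 → ℝ) : zv j ⬝ᵥ fld Y = 0 := by
  rw [zv_dot]
  unfold fld
  ring

theorem eq_zero_of_coords {F : Sn 11} (hy : ∀ j, yv j ⬝ᵥ F = 0) (hz : ∀ j, zv j ⬝ᵥ F = 0) :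
    F = 0 := by
  funext i
  obtain ⟨a, j⟩ := i
  have h : nrm j ≠ 0 := by have := nrm_ge j; linarith
  have h1 := hy j
  have h2 := hz j
  rw [yv_dot, div_eq_zero_iff] at h1
  rw [zv_dot] at h2
  have h1' : dir j 0 * F (0, j) + dir j 1 * F (1, j) = 0 := by
    rcases h1 with h1 | h1
    · exact h1
    · exact absurd h1 h
  have e0 : nrm j * F (0, j) = 0 := by
    unfold nrm
    linear_combination (dir j 0) * h1' + (dir j 1) * h2
  have e1 : nrm j * F (1, j) = 0 := by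
    unfold nrm
    linear_combination (dir j 1) * h1' - (dir j 0) * h2
  fin_cases a
  · exact (mul_eq_zero.mp e0).resolve_left h
  · exact (mul_eq_zero.mp e1).resolve_left h

/-! ### Rank-one fields -/

theorem rankOne_main {y : Sn 11} (hy : IsRankOne y) :
    ∃ j₀ : Fin 11, ∀ j, j ≠ j₀ → (yv j ⬝ᵥ y) ^ 2 ≤ 10 ^ 5 * (zv j ⬝ᵥ y) ^ 2 := by
  obtain ⟨ν, c, h⟩ := hy
  have ey : ∀ j, yv j ⬝ᵥ y = c j * (ν 0 * dir j 0 + ν 1 * dir j 1) / nrm j := by
    intro j; rw [yv_dot, h, h]; ring_nf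
  have ez : ∀ j, zv j ⬝ᵥ y = c j * (ν 0 * dir j 1 - ν 1 * dir j 0) := by
    intro j; rw [zv_dot, h, h]; ring
  by_cases hall : ∀ j, (ν 0 * dir j 0 + ν 1 * dir j 1) ^ 2 ≤
      10 ^ 5 * (ν 0 * dir j 1 - ν 1 * dir j 0) ^ 2
  · refine ⟨0, fun j _ => ?_⟩
    rw [ey, ez, div_pow, mul_pow, mul_pow]
    have hn : 1 ≤ nrm j ^ 2 := one_le_pow₀ (nrm_ge j)
    have h0 : 0 ≤ c j ^ 2 * (ν 0 * dir j 0 + ν 1 * dir j 1) ^ 2 := by positivity
    calc c j ^ 2 * (ν 0 * dir j 0 + ν 1 * dir j 1) ^ 2 / nrm j ^ 2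
        ≤ c j ^ 2 * (ν 0 * dir j 0 + ν 1 * dir j 1) ^ 2 := div_le_self h0 hn
      _ ≤ c j ^ 2 * (10 ^ 5 * (ν 0 * dir j 1 - ν 1 * dir j 0) ^ 2) := by
          gcongr; exact hall j
      _ = _ := by ring
  · push Not at hall
    obtain ⟨j₀, hj₀⟩ := hall
    refine ⟨j₀, fun j hj => ?_⟩
    by_cases hcase : (ν 0 * dir j 0 + ν 1 * dir j 1) ^ 2 ≤
      10 ^ 5 * (ν 0 * dir j 1 - ν 1 * dir j 0) ^ 2
    · rw [ey, ez, div_pow, mul_pow, mul_pow]
      have hn : 1 ≤ nrm j ^ 2 := one_le_pow₀ (nrm_ge j)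
      have h0 : 0 ≤ c j ^ 2 * (ν 0 * dir j 0 + ν 1 * dir j 1) ^ 2 := by positivity
      calc c j ^ 2 * (ν 0 * dir j 0 + ν 1 * dir j 1) ^ 2 / nrm j ^ 2
          ≤ c j ^ 2 * (ν 0 * dir j 0 + ν 1 * dir j 1) ^ 2 := div_le_self h0 hn
        _ ≤ c j ^ 2 * (10 ^ 5 * (ν 0 * dir j 1 - ν 1 * dir j 0) ^ 2) := by
            gcongr
        _ = _ := by ring
    · exfalso
      push Not at hcase
      set p := ν 0 * dir j 0 + ν 1 * dir j 1 with hp
      set q := ν 0 * dir j 1 - ν 1 * dir j 0 with hq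
      set p' := ν 0 * dir j₀ 0 + ν 1 * dir j₀ 1 with hp'
      set q' := ν 0 * dir j₀ 1 - ν 1 * dir j₀ 0 with hq'
      set n2 := ν 0 ^ 2 + ν 1 ^ 2 with hn2
      have id1 : p * q' - p' * q = n2 * (dir j 0 * dir j₀ 1 - dir j 1 * dir j₀ 0) := by
        rw [hp, hq, hp', hq', hn2]; ring
      have id2 : p ^ 2 + q ^ 2 = n2 * nrm j := by
        rw [hp, hq, hn2]; unfold nrm; ring
      have id3 : p' ^ 2 + q' ^ 2 = n2 * nrm j₀ := by
        rw [hp', hq', hn2]; unfold nrm; ring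
      have hn0 : 0 ≤ n2 := by positivity
      have hcr := cross_sq j j₀ hj
      have b1 : p ^ 2 ≤ n2 * 82 := by
        have := mul_le_mul_of_nonneg_left (nrm_le j) hn0
        linarith [sq_nonneg q]
      have b2 : p' ^ 2 ≤ n2 * 82 := by
        have := mul_le_mul_of_nonneg_left (nrm_le j₀) hn0
        linarith [sq_nonneg q']
      have hpos : 0 < p ^ 2 := lt_of_le_of_lt (by positivity) hcase
      have hpos' : 0 < p' ^ 2 := lt_of_le_of_lt (by positivity) hj₀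
      have hnpos : 0 < n2 := by
        by_contra hcon
        have : n2 = 0 := le_antisymm (not_lt.mp hcon) hn0
        rw [this] at b1; linarith
      have c1 : (p * q' - p' * q) ^ 2 ≤ 2 * (p ^ 2 * q' ^ 2) + 2 * (p' ^ 2 * q ^ 2) := by
        have := sq_nonneg (p * q' + p' * q)
        linarith
      have c2 : p ^ 2 * (10 ^ 5 * q' ^ 2) ≤ p ^ 2 * p' ^ 2 :=
        mul_le_mul_of_nonneg_left hj₀.le hpos.le
      have c3 : p' ^ 2 * (10 ^ 5 * q ^ 2) ≤ p' ^ 2 * p ^ 2 :=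
        mul_le_mul_of_nonneg_left hcase.le hpos'.le
      have c4 : p ^ 2 * p' ^ 2 ≤ (n2 * 82) * (n2 * 82) := by
        gcongr
      have c5 : n2 ^ 2 ≤ (p * q' - p' * q) ^ 2 := by
        rw [id1, mul_pow]
        have := mul_le_mul_of_nonneg_left hcr (sq_nonneg n2)
        linarith
      have c6 : 0 < n2 ^ 2 := by positivity
      linarith

end Pool.Agent.Lib.MP_393ee6_an
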