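import Pool.Agent.Lib.MP_393ee6_an.Full

/-!
The two phases as positive definite matrices.
-/

open Finset Matrix

namespace Pool.Agent.Lib.MP_393ee6_an

theorem dot_vecMulVec {n : ℕ} (b F : Sn n) : F ⬝ᵥ (vecMulVec b b *ᵥ F) = (b ⬝ᵥ F) ^ 2 := by
  have h : vecMulVec b b *ᵥ F = (b ⬝ᵥ F) • b := by
    funext i
    simp only [mulVec, vecMulVec_apply, dotProduct, Pi.smul_apply, smul_eq_mul, sum_mul]
    exact sum_congr rfl (fun j _ => by ring)
  rw [h, dotProduct_smul, smul_eq_mul, dotProduct_comm, sq]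

theorem vecMulVec_symm {n : ℕ} (b : Sn n) : (vecMulVec b b).transpose = vecMulVec b b := by
  ext i j; simp [vecMulVec_apply, mul_comm]

/-- first family of functionals -/
noncomputable def b1 (σ : ℝ) (i : Fin 3) : Sn 11 := yv (iv i) - σ • ∑ k, well k i • yv (is k)

noncomputable def b2 (σ : ℝ) : Sn 11 := (∑ k, yv (is k)) - σ • yv 10

theorem b1_dot (σ : ℝ) (i : Fin 3) (F : Sn 11) : b1 σ i ⬝ᵥ F = vc F i - σ * As (sc F) i := by
  unfold b1 As vc sc
  rw [sub_dotProduct, smul_dotProduct, sum_dotProduct, smul_eq_mul]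
  simp only [smul_dotProduct, smul_eq_mul]

theorem b2_dot (σ : ℝ) (F : Sn 11) : b2 σ ⬝ᵥ F = (∑ k, sc F k) - σ * tc F := by
  unfold b2 sc tc
  rw [sub_dotProduct, smul_dotProduct, sum_dotProduct, smul_eq_mul]

/-- The tensor of the phase `σ`. -/
noncomputable def Lm (σ : ℝ) : Tens 11 :=
  (500 : ℝ) • (∑ i, vecMulVec (b1 σ i) (b1 σ i))
    + (1 / 100 : ℝ) • (∑ i, vecMulVec (yv (iv i)) (yv (iv i)))
    + (10 ^ 21 : ℝ) • vecMulVec (b2 σ) (b2 σ)
    + (10 ^ 46 : ℝ) • vecMulVec (yv 10) (yv 10)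
    + (1 / 1000 : ℝ) • (∑ k, vecMulVec (yv (is k)) (yv (is k)))
    + (10 ^ 28 : ℝ) • (∑ j, vecMulVec (zv j) (zv j))

theorem dot_Lm (σ : ℝ) (F : Sn 11) : F ⬝ᵥ (Lm σ *ᵥ F) = Ph σ F := by
  unfold Lm Ph
  simp only [add_mulVec, smul_mulVec, dotProduct_add, dotProduct_smul, sum_mulVec,
    dotProduct_sum, dot_vecMulVec, smul_eq_mul, b1_dot, b2_dot]
  rfl

theorem Lm_symm (σ : ℝ) : (Lm σ).transpose = Lm σ := by
  unfold Lm
  simp only [transpose_add, transpose_smul, transpose_sum, vecMulVec_symm]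

theorem Lm_posDef (σ : ℝ) : (Lm σ).PosDef := by
  refine PosDef.of_dotProduct_mulVec_pos ?_ ?_
  · rw [IsHermitian, conjTranspose_eq_transpose_of_trivial, Lm_symm]
  · intro F hF
    rw [star_trivial, dot_Lm]
    by_contra hcon
    push Not at hcon
    apply hF
    unfold Ph at hcon
    have n1 : 0 ≤ ∑ i, (vc F i - σ * As (sc F) i) ^ 2 := sum_nonneg (fun _ _ => sq_nonneg _)
    have n2 : 0 ≤ ∑ i, vc F i ^ 2 := sum_nonneg (fun _ _ => sq_nonneg _)
    have n3 : 0 ≤ ((∑ k, sc F k) - σ * tc F) ^ 2 := sq_nonneg _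
    have n4 : 0 ≤ tc F ^ 2 := sq_nonneg _
    have n5 : 0 ≤ ∑ k, sc F k ^ 2 := sum_nonneg (fun _ _ => sq_nonneg _)
    have n6 : 0 ≤ ∑ j, (zv j ⬝ᵥ F) ^ 2 := sum_nonneg (fun _ _ => sq_nonneg _)
    have z2 : ∑ i, vc F i ^ 2 = 0 := by linarith
    have z4 : tc F ^ 2 = 0 := by linarith
    have z5 : ∑ k, sc F k ^ 2 = 0 := by linarith
    have z6 : ∑ j, (zv j ⬝ᵥ F) ^ 2 = 0 := by linarith
    have w2 : ∀ i, vc F i = 0 := fun i => by
      have := (sum_eq_zero_iff_of_nonneg (fun i _ => sq_nonneg (vc F i))).mp z2 i (mem_univ i)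
      exact pow_eq_zero_iff (two_ne_zero) |>.mp this
    have w5 : ∀ i, sc F i = 0 := fun i => by
      have := (sum_eq_zero_iff_of_nonneg (fun i _ => sq_nonneg (sc F i))).mp z5 i (mem_univ i)
      exact pow_eq_zero_iff (two_ne_zero) |>.mp this
    have w6 : ∀ j, zv j ⬝ᵥ F = 0 := fun j => by
      have := (sum_eq_zero_iff_of_nonneg (fun j _ => sq_nonneg (zv j ⬝ᵥ F))).mp z6 j (mem_univ j)
      exact pow_eq_zero_iff (two_ne_zero) |>.mp this
    have w4 : tc F = 0 := pow_eq_zero_iff (two_ne_zero) |>.mp z4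
    refine eq_zero_of_coords (fun j => ?_) w6
    have hcase : (∃ i : Fin 3, j = iv i) ∨ (∃ k : Fin 7, j = is k) ∨ j = 10 := by
      revert j; decide
    rcases hcase with ⟨i, rfl⟩ | ⟨k, rfl⟩ | rfl
    · exact w2 i
    · exact w5 k
    · exact w4

/-! ### Values at the special fields -/

theorem vc_fld (Y : Fin 11 → ℝ) (i : Fin 3) : vc (fld Y) i = Y (iv i) := yv_fld _ _
theorem sc_fld (Y : Fin 11 → ℝ) (k : Fin 7) : sc (fld Y) k = Y (is k) := yv_fld _ _
theorem tc_fld (Y : Fin 11 → ℝ) : tc (fld Y) = Y 10 := yv_fld _ _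

theorem goodY_v (k : Fin 7) (σ : ℝ) (i : Fin 3) : goodY k σ (iv i) = well k i := by
  unfold goodY iv; simp

theorem goodY_s (k : Fin 7) (σ : ℝ) (k' : Fin 7) : goodY k σ (is k') = if k' = k then σ else 0 := by
  unfold goodY is
  have h1 : ¬ (3 + k'.val < 3) := by omega
  by_cases h : k' = k
  · subst h; simp
  · have h2 : ¬ (k'.val = k.val) := fun h' => h (Fin.ext h')
    have h3 : ¬ (3 + k'.val = 10) := by omega
    simp [h, h2, h3]

theorem goodY_t (k : Fin 7) (σ : ℝ) : goodY k σ 10 = 1 := by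
  unfold goodY
  have h : ¬ (10 = 3 + k.val) := by omega
  simp [h]

theorem well_sq_sum (k : Fin 7) : ∑ i, well k i ^ 2 ≤ 2 := by
  rw [Fin.sum_univ_three]
  have h : ∀ i, well k i ^ 2 ≤ 1 := fun i => by
    rcases well_cases k i with h | h <;> rw [h] <;> norm_num
  have h0 := h 0
  have h1 := h 1
  have h2 := h 2
  rcases well_zero k with h | h | h <;> rw [h] <;> linarith

theorem Ph_good (k : Fin 7) (σ : ℝ) (hσ : σ = 1 ∨ σ = -1) :
    Ph σ (fld (goodY k σ)) ≤ 10 ^ 46 + 21 / 1000 := by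
  have hσ2 : σ * σ = 1 := by rcases hσ with rfl | rfl <;> norm_num
  unfold Ph
  have e1 : ∀ i, vc (fld (goodY k σ)) i - σ * As (sc (fld (goodY k σ))) i = 0 := by
    intro i
    unfold As
    simp only [vc_fld, sc_fld, goodY_v, goodY_s, mul_ite, mul_zero, sum_ite_eq', mem_univ,
      if_true]
    linear_combination (-well k i) * hσ2
  have e2 : (∑ k', sc (fld (goodY k σ)) k') - σ * tc (fld (goodY k σ)) = 0 := by
    simp only [sc_fld, goodY_s, tc_fld, goodY_t, sum_ite_eq', mem_univ, if_true]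
    ring
  have e3 : ∑ k', sc (fld (goodY k σ)) k' ^ 2 = 1 := by
    simp only [sc_fld, goodY_s]
    have : ∀ k' : Fin 7, (if k' = k then σ else 0) ^ 2 = if k' = k then σ ^ 2 else 0 := by
      intro k'; split_ifs <;> ring
    simp only [this, sum_ite_eq', mem_univ, if_true]
    rw [sq, hσ2]
  have e4 : ∑ i, vc (fld (goodY k σ)) i ^ 2 ≤ 2 := by
    simp only [vc_fld, goodY_v]; exact well_sq_sum k
  have e5 : ∑ j, (zv j ⬝ᵥ fld (goodY k σ)) ^ 2 = 0 := by
    simp only [zv_fld]; simp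
  have e6 : ∑ i, (vc (fld (goodY k σ)) i - σ * As (sc (fld (goodY k σ))) i) ^ 2 = 0 := by
    simp only [e1]; simp
  rw [e2, e3, e5, e6, tc_fld, goodY_t]
  linarith

theorem meanY_v (m : ℝ) (i : Fin 3) : meanY m (iv i) = m := by
  unfold meanY iv; simp

theorem meanY_s (m : ℝ) (k : Fin 7) : meanY m (is k) = 0 := by
  unfold meanY is
  have h1 : ¬ (3 + k.val < 3) := by omega
  have h3 : ¬ (3 + k.val = 10) := by omega
  simp [h3]

theorem meanY_t (m : ℝ) : meanY m 10 = 1 := by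
  unfold meanY; simp

theorem Gf_mean (m t : ℝ) (hm : |m - 1 / 3| < 1 / 1000) (ht : |t| ≤ 1) :
    10 ^ 46 + 32 / 1000 ≤ Gf (fld (meanY m)) t := by
  have hm1 := (abs_lt.mp hm).1
  have hm2 := (abs_lt.mp hm).2
  have hm3 : 332 / 1000 ≤ m := by linarith
  have hm4 : m ≤ 335 / 1000 := by linarith
  have ev : ∀ i, vc (fld (meanY m)) i = m := fun i => by rw [vc_fld, meanY_v]
  have es : ∀ k, sc (fld (meanY m)) k = 0 := fun k => by rw [sc_fld, meanY_s]
  have et : tc (fld (meanY m)) = 1 := by rw [tc_fld, meanY_t]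
  have ez : ∑ j, (zv j ⬝ᵥ fld (meanY m)) ^ 2 = 0 := by simp only [zv_fld]; simp
  have hT : T m = m := by
    unfold T; rw [min_eq_right (by linarith), max_eq_right (by linarith)]
  have hU : U m = 0 := by unfold U; exact max_eq_left (by linarith)
  have h1 : (332 / 1000 : ℝ) ^ 3 ≤ m * m * m := by
    calc (332 / 1000 : ℝ) ^ 3 = (332 / 1000) * (332 / 1000) * (332 / 1000) := by norm_num
      _ ≤ m * m * m := by gcongr
  have h2 : m ^ 2 ≤ (335 / 1000) ^ 2 := by gcongr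
  have h3 : (332 / 1000 : ℝ) ^ 2 ≤ m ^ 2 := by gcongr
  have ht2 : t ^ 2 ≤ 1 := by rw [sq_le_one_iff_abs_le_one]; exact ht
  have ht0 : 0 ≤ t ^ 2 := sq_nonneg t
  unfold Gf Gc gh g0
  simp only [ev, es, et, ez, hT, hU]
  have hH0 := H_nonneg (t * m - As (sc (fld (meanY m))) 0)
  have hH1 := H_nonneg (t * m - As (sc (fld (meanY m))) 1)
  have hH2 := H_nonneg (t * m - As (sc (fld (meanY m))) 2)
  have hg : 29 / 1000 ≤ m * m * m + 0 + 0 + 0 - 3 / 1000 - 1 / 3200 * (m ^ 2 + m ^ 2 + m ^ 2)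
      - 1 / 10000 * ((∑ _k : Fin 7, (0 : ℝ) ^ 2) + 35) := by
    simp only [ne_eq, OfNat.ofNat_ne_zero, not_false_eq_true, zero_pow, sum_const_zero]
    norm_num at h1 h2 h3 ⊢
    linarith
  have hg2 : (1 - t ^ 2) * (29 / 1000) ≤ (1 - t ^ 2) *
      (m * m * m + 0 + 0 + 0 - 3 / 1000 - 1 / 3200 * (m ^ 2 + m ^ 2 + m ^ 2)
      - 1 / 10000 * ((∑ _k : Fin 7, (0 : ℝ) ^ 2) + 35)) :=
    mul_le_mul_of_nonneg_left hg (by linarith)
  have hs0 : (∑ _k : Fin 7, (0 : ℝ)) = 0 := by simp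
  rw [hs0]
  have e9 : (0 - t) ^ 2 = t ^ 2 := by ring
  rw [e9]
  norm_num at h3
  linarith

end Pool.Agent.Lib.MP_393ee6_an
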