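import Pool.Agent.Lib.MP_393ee6_an.Data

/-!
Piece TRIAL of MP_393ee6_an: the explicit periodic microstructure in the plane and its trial
fields. The fields take values at the wells off a set of small measure.
-/

open MeasureTheory Matrix Set

namespace Pool.Agent.Lib.MP_393ee6_an.Trial

/-- The set where a shifted cosine of period one is `h`-close to the value `c`. -/
def strip (r c h : ℝ) : Set ℝ := {t | |Real.cos (2 * Real.pi * (t - r)) - c| ≤ h}

lemma mem_strip {r c h t : ℝ} :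
    t ∈ strip r c h ↔ |Real.cos (2 * Real.pi * (t - r)) - c| ≤ h := Iff.rfl

lemma strip_closed (r c h : ℝ) : IsClosed (strip r c h) :=
  isClosed_le (by fun_prop) continuous_const

lemma strip_periodic (r c h t : ℝ) (n : ℤ) : t + n ∈ strip r c h ↔ t ∈ strip r c h := by
  have : 2 * Real.pi * (t + n - r) = 2 * Real.pi * (t - r) + n * (2 * Real.pi) := by ring
  simp only [strip, mem_ofPred_eq, this, Real.cos_add_int_mul_two_pi]

lemma level_countable (r c : ℝ) : {t : ℝ | Real.cos (2 * Real.pi * (t - r)) = c}.Countable := by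
  by_cases h : ∃ t₀ : ℝ, Real.cos (2 * Real.pi * (t₀ - r)) = c
  · obtain ⟨t₀, h₀⟩ := h
    refine ((countable_range (fun k : ℤ => t₀ - k)).union
      (countable_range (fun k : ℤ => k + 2 * r - t₀))).mono ?_
    intro t ht
    rw [mem_ofPred_eq, ← h₀, Real.cos_eq_cos_iff] at ht
    have hpi : (2 * Real.pi) ≠ 0 := by positivity
    obtain ⟨k, hk | hk⟩ := ht
    · left
      refine ⟨k, ?_⟩
      have : 2 * Real.pi * (t₀ - r) = 2 * Real.pi * (k + (t - r)) := by linarith
      have := mul_left_cancel₀ hpi this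
      show t₀ - (k : ℝ) = t
      linarith
    · right
      refine ⟨k, ?_⟩
      have : 2 * Real.pi * (t₀ - r) = 2 * Real.pi * (k - (t - r)) := by linarith
      have := mul_left_cancel₀ hpi this
      show (k : ℝ) + 2 * r - t₀ = t
      linarith
  · have : {t : ℝ | Real.cos (2 * Real.pi * (t - r)) = c} = ∅ := by
      ext t
      simp only [mem_ofPred_eq, mem_empty_iff_false, iff_false]
      exact fun ht => h ⟨t, ht⟩
    rw [this]
    exact countable_empty

lemma exists_strip_small (r c : ℝ) {ε : ENNReal} (hε : 0 < ε) :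
    ∃ h : ℝ, 0 < h ∧ volume (Ico 0 1 ∩ strip r c h) < ε := by
  have key := tendsto_measure_iInter_atTop (μ := (volume : Measure ℝ))
    (s := fun n : ℕ => Ico (0:ℝ) 1 ∩ strip r c (1 / ((n : ℝ) + 1)))
    (fun n => (measurableSet_Ico.inter (strip_closed _ _ _).measurableSet).nullMeasurableSet)
    (by
      intro m n hmn t ht
      have h2 : |Real.cos (2 * Real.pi * (t - r)) - c| ≤ 1 / ((n : ℝ) + 1) := ht.2
      have h3 : |Real.cos (2 * Real.pi * (t - r)) - c| ≤ 1 / ((m : ℝ) + 1) :=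
        h2.trans (Nat.one_div_le_one_div hmn)
      exact ⟨ht.1, h3⟩)
    ⟨0, ne_top_of_le_ne_top (by simp) (measure_mono inter_subset_left)⟩
  have hz : volume (⋂ n : ℕ, Ico (0:ℝ) 1 ∩ strip r c (1 / ((n : ℝ) + 1))) = 0 := by
    refine measure_mono_null ?_ ((level_countable r c).measure_zero _)
    intro t ht
    rw [mem_iInter] at ht
    have h1 : ∀ n : ℕ, |Real.cos (2 * Real.pi * (t - r)) - c| ≤ 1 / ((n : ℝ) + 1) :=
      fun n => (ht n).2
    have h2 : |Real.cos (2 * Real.pi * (t - r)) - c| ≤ 0 :=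
      ge_of_tendsto' tendsto_one_div_add_atTop_nhds_zero_nat h1
    have h3 := abs_nonpos_iff.1 h2
    exact sub_eq_zero.1 h3
  rw [hz] at key
  obtain ⟨n, hn⟩ := (key.eventually (gt_mem_nhds hε)).exists
  exact ⟨1 / ((n : ℝ) + 1), by positivity, hn⟩

/-- Equidistribution of an affine image. -/
lemma volume_affine {B : Set ℝ} (hB : MeasurableSet B) (hp : ∀ (t : ℝ) (n : ℤ), t + n ∈ B ↔ t ∈ B)
    {N : ℕ} (hN : 0 < N) (r : ℝ) :
    volume (Ico 0 1 ∩ {x : ℝ | N * x + r ∈ B}) = volume (Ico 0 1 ∩ B) := by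
  have hmeas : MeasurableSet {x : ℝ | N * x + r ∈ B} := by
    have : Measurable fun x : ℝ => N * x + r := by fun_prop
    exact this hB
  have hNr : (0:ℝ) < N := by exact_mod_cast hN
  -- integrals of the indicator
  set f : ℝ → ℝ := B.indicator 1 with hf
  have hfm : Measurable f := measurable_one.indicator hB
  have hfi : ∀ a b, IntervalIntegrable f volume a b := by
    intro a b
    refine (intervalIntegrable_const (c := (1:ℝ))).mono_fun hfm.aestronglyMeasurable ?_
    refine Filter.Eventually.of_forall fun t => ?_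
    by_cases ht : t ∈ B <;> simp [hf, ht]
  have hper : Function.Periodic f 1 := by
    intro t
    have := hp t 1
    push_cast at this
    by_cases ht : t ∈ B
    · simp [hf, ht, this.2 ht]
    · have h' : t + 1 ∉ B := fun h => ht (this.1 h)
      simp [hf, ht, h']
  have e1 : ∀ S : Set ℝ, MeasurableSet S → ∫ x in (0:ℝ)..1, S.indicator (1 : ℝ → ℝ) x
      = (volume (Ico 0 1 ∩ S)).toReal := by
    intro S hS
    rw [intervalIntegral.integral_of_le zero_le_one, ← integral_Ico_eq_integral_Ioc,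
      integral_indicator_one hS, measureReal_restrict_apply hS, inter_comm]
    rfl
  have e2 : ∫ x in (0:ℝ)..1, {x : ℝ | N * x + r ∈ B}.indicator (1 : ℝ → ℝ) x
      = ∫ x in (0:ℝ)..1, f (N * x + r) := by
    refine intervalIntegral.integral_congr fun x _ => ?_
    by_cases hx : (N : ℝ) * x + r ∈ B <;> simp [hf, hx]
  have e3 : ∫ x in (0:ℝ)..1, f (N * x + r) = ∫ x in (0:ℝ)..1, f x := by
    rw [intervalIntegral.integral_comp_mul_add f hNr.ne' r]
    have h1 := hper.intervalIntegral_add_zsmul_eq N r hfi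
    have h2 := hper.intervalIntegral_add_eq r 0
    simp only [zsmul_eq_mul, Int.cast_natCast, mul_one, zero_add] at h1 h2
    rw [mul_zero, zero_add, mul_one, add_comm (N : ℝ) r, h1, h2, smul_eq_mul,
      inv_mul_cancel_left₀ hNr.ne']
  have e4 : (volume (Ico 0 1 ∩ {x : ℝ | N * x + r ∈ B})).toReal = (volume (Ico 0 1 ∩ B)).toReal := by
    rw [← e1 _ hmeas, ← e1 _ hB, e2, e3]
  refine (ENNReal.toReal_eq_toReal_iff' ?_ ?_).1 e4 <;>
  exact ne_top_of_le_ne_top (by simp) (measure_mono inter_subset_left)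

lemma volume_cell_x {B : Set ℝ} (hB : MeasurableSet B) (hp : ∀ (t : ℝ) (n : ℤ), t + n ∈ B ↔ t ∈ B)
    {N : ℕ} (hN : 0 < N) (M r : ℝ) :
    volume (cell ∩ {x : ℝ × ℝ | N * x.1 + M * x.2 + r ∈ B}) ≤ volume (Ico 0 1 ∩ B) := by
  have hmeas : MeasurableSet (cell ∩ {x : ℝ × ℝ | N * x.1 + M * x.2 + r ∈ B}) := by
    refine (measurableSet_Ico.prod measurableSet_Ico).inter ?_
    have : Measurable fun x : ℝ × ℝ => N * x.1 + M * x.2 + r := by fun_prop
    exact this hB
  rw [Measure.volume_eq_prod, Measure.prod_apply_symm hmeas]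
  have : ∀ y : ℝ, volume ((fun x => (x, y)) ⁻¹' (cell ∩ {x : ℝ × ℝ | N * x.1 + M * x.2 + r ∈ B}))
      ≤ (Ico (0:ℝ) 1).indicator (fun _ => volume (Ico 0 1 ∩ B)) y := by
    intro y
    by_cases hy : y ∈ Ico (0:ℝ) 1
    · rw [indicator_of_mem hy, ← volume_affine hB hp hN (M * y + r)]
      refine measure_mono ?_
      rintro x ⟨⟨hx, _⟩, hx2⟩
      refine ⟨hx, ?_⟩
      simpa [add_assoc] using hx2
    · rw [indicator_of_notMem hy]
      have : ((fun x => (x, y)) ⁻¹' (cell ∩ {x : ℝ × ℝ | N * x.1 + M * x.2 + r ∈ B})) = ∅ := by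
        ext x
        simp only [mem_preimage, mem_inter_iff, cell, mem_prod, mem_empty_iff_false, iff_false]
        exact fun h => hy h.1.2
      rw [this, measure_empty]
  refine (lintegral_mono this).trans ?_
  rw [lintegral_indicator measurableSet_Ico, setLIntegral_const]
  simp

lemma volume_cell_y {B : Set ℝ} (hB : MeasurableSet B) (r : ℝ) 
    (hp : ∀ (t : ℝ) (n : ℤ), t + n ∈ B ↔ t ∈ B) :
    volume (cell ∩ {x : ℝ × ℝ | x.2 + r ∈ B}) ≤ volume (Ico 0 1 ∩ B) := by
  have h1 : cell ∩ {x : ℝ × ℝ | x.2 + r ∈ B} = Ico (0:ℝ) 1 ×ˢ (Ico 0 1 ∩ {x : ℝ | (1 : ℕ) * x + r ∈ B}) := by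
    ext x
    simp only [cell, mem_inter_iff, mem_prod, mem_ofPred_eq, Nat.cast_one, one_mul]
    tauto
  rw [h1, Measure.volume_eq_prod, Measure.prod_prod, volume_affine hB hp one_pos r]
  simp

/-! ### One-dimensional profiles -/

/-- A smooth function of period one: close to the indicator of `(0, 1/3)` modulo one. -/
noncomputable def bump (h t : ℝ) : ℝ :=
  Real.smoothTransition ((Real.cos (2 * Real.pi * (t - 1 / 6)) - 1 / 2) / h)

/-- A smooth odd function of period one: close to the sign of `sin (2 π t)`. -/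
noncomputable def sgn (h t : ℝ) : ℝ :=
  Real.smoothTransition (Real.sin (2 * Real.pi * t) / h) -
    Real.smoothTransition (-(Real.sin (2 * Real.pi * t) / h))

lemma bump_contDiff (h : ℝ) : ContDiff ℝ 1 (bump h) := by
  unfold bump
  exact Real.smoothTransition.contDiff.comp
    (((Real.contDiff_cos.comp (contDiff_const.mul (contDiff_id.sub contDiff_const))).sub
      contDiff_const).div_const _)

lemma bump_nonneg (h t : ℝ) : 0 ≤ bump h t := Real.smoothTransition.nonneg _
lemma bump_le_one (h t : ℝ) : bump h t ≤ 1 := Real.smoothTransition.le_one _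

lemma bump_periodic (h t : ℝ) (n : ℤ) : bump h (t + n) = bump h t := by
  have : 2 * Real.pi * (t + n - 1 / 6) = 2 * Real.pi * (t - 1 / 6) + n * (2 * Real.pi) := by ring
  simp only [bump, this, Real.cos_add_int_mul_two_pi]

lemma bump_eq_zero {h t : ℝ} (hh : 0 < h) (ht : Real.cos (2 * Real.pi * (t - 1 / 6)) ≤ 1 / 2) :
    bump h t = 0 :=
  Real.smoothTransition.zero_of_nonpos (div_nonpos_of_nonpos_of_nonneg (by linarith) hh.le)

lemma bump_eq_one {h t : ℝ} (hh : 0 < h) (ht : 1 / 2 + h ≤ Real.cos (2 * Real.pi * (t - 1 / 6))) :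
    bump h t = 1 :=
  Real.smoothTransition.one_of_one_le (by rw [le_div_iff₀ hh]; linarith)

lemma bump_mem {h t : ℝ} (hh : 0 < h) (ht : t ∉ strip (1 / 6) (1 / 2) h) :
    bump h t = 0 ∨ bump h t = 1 := by
  by_cases h1 : Real.cos (2 * Real.pi * (t - 1 / 6)) ≤ 1 / 2
  · exact Or.inl (bump_eq_zero hh h1)
  · right
    refine bump_eq_one hh ?_
    by_contra h2
    rw [not_le] at h1 h2
    exact ht (mem_strip.2 (abs_le.2 ⟨by linarith, by linarith⟩))

/-- The three bumps are never simultaneously nonzero. -/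
lemma bump_three {h x y : ℝ} (hh : 0 < h) (hx : bump h x = 1) (hy : bump h y = 1)
    (hz : bump h (x + y + 1 / 3) = 1) : False := by
  have h1 : 1 / 2 < Real.cos (2 * Real.pi * (x - 1 / 6)) := by
    by_contra h0
    rw [bump_eq_zero hh (not_lt.1 h0)] at hx
    exact zero_ne_one hx
  have h2 : 1 / 2 < Real.cos (2 * Real.pi * (y - 1 / 6)) := by
    by_contra h0
    rw [bump_eq_zero hh (not_lt.1 h0)] at hy
    exact zero_ne_one hy
  have h3 : 1 / 2 < Real.cos (2 * Real.pi * (x + y + 1 / 3 - 1 / 6)) := by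
    by_contra h0
    rw [bump_eq_zero hh (not_lt.1 h0)] at hz
    exact zero_ne_one hz
  have e : 2 * Real.pi * (x + y + 1 / 3 - 1 / 6)
      = (2 * Real.pi * (x - 1 / 6) + 2 * Real.pi * (y - 1 / 6)) + Real.pi := by ring
  rw [e, Real.cos_add_pi, Real.cos_add] at h3
  have s1 := Real.sin_sq_add_cos_sq (2 * Real.pi * (x - 1 / 6))
  have s2 := Real.sin_sq_add_cos_sq (2 * Real.pi * (y - 1 / 6))
  set c1 := Real.cos (2 * Real.pi * (x - 1 / 6))
  set c2 := Real.cos (2 * Real.pi * (y - 1 / 6))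
  set t1 := Real.sin (2 * Real.pi * (x - 1 / 6))
  set t2 := Real.sin (2 * Real.pi * (y - 1 / 6))
  nlinarith [sq_nonneg (t1 - t2), mul_pos (sub_pos.2 h1) (sub_pos.2 h2)]

lemma sgn_continuous (h : ℝ) : Continuous (sgn h) := by
  unfold sgn
  have h1 : Continuous fun t : ℝ => Real.sin (2 * Real.pi * t) / h := by fun_prop
  exact (Real.smoothTransition.continuous.comp h1).sub
    (Real.smoothTransition.continuous.comp h1.neg)

lemma sgn_abs_le (h t : ℝ) : |sgn h t| ≤ 1 := by
  unfold sgn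
  have a1 := Real.smoothTransition.nonneg (Real.sin (2 * Real.pi * t) / h)
  have a2 := Real.smoothTransition.le_one (Real.sin (2 * Real.pi * t) / h)
  have a3 := Real.smoothTransition.nonneg (-(Real.sin (2 * Real.pi * t) / h))
  have a4 := Real.smoothTransition.le_one (-(Real.sin (2 * Real.pi * t) / h))
  exact abs_le.2 ⟨by linarith, by linarith⟩

lemma sgn_periodic (h t : ℝ) (n : ℤ) : sgn h (t + n) = sgn h t := by
  have : 2 * Real.pi * (t + n) = 2 * Real.pi * t + n * (2 * Real.pi) := by ring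
  simp only [sgn, this, Real.sin_add_int_mul_two_pi]

lemma sgn_neg (h t : ℝ) : sgn h (-t) = -sgn h t := by
  have : 2 * Real.pi * (-t) = -(2 * Real.pi * t) := by ring
  simp only [sgn, this, Real.sin_neg, neg_div, neg_neg]
  ring

lemma sgn_mem {h t : ℝ} (hh : 0 < h) (ht : t ∉ strip (1 / 4) 0 h) :
    sgn h t = 1 ∨ sgn h t = -1 := by
  have e : Real.cos (2 * Real.pi * (t - 1 / 4)) = Real.sin (2 * Real.pi * t) := by
    rw [← Real.cos_sub_pi_div_two]; congr 1; ring
  have h1 : h < |Real.sin (2 * Real.pi * t)| := by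
    by_contra h0
    refine ht ?_
    simp only [strip, mem_ofPred_eq, e, sub_zero]
    exact not_lt.1 h0
  rcases lt_abs.1 h1 with h2 | h2
  · left
    have b1 : Real.smoothTransition (Real.sin (2 * Real.pi * t) / h) = 1 :=
      Real.smoothTransition.one_of_one_le (by rw [le_div_iff₀ hh]; linarith)
    have b2 : Real.smoothTransition (-(Real.sin (2 * Real.pi * t) / h)) = 0 :=
      Real.smoothTransition.zero_of_nonpos (by
        have : 0 < Real.sin (2 * Real.pi * t) / h := div_pos (by linarith) hh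
        linarith)
    simp [sgn, b1, b2]
  · right
    have b1 : Real.smoothTransition (-(Real.sin (2 * Real.pi * t) / h)) = 1 :=
      Real.smoothTransition.one_of_one_le (by rw [← neg_div, le_div_iff₀ hh]; linarith)
    have b2 : Real.smoothTransition (Real.sin (2 * Real.pi * t) / h) = 0 :=
      Real.smoothTransition.zero_of_nonpos
        (div_nonpos_of_nonpos_of_nonneg (by linarith) hh.le)
    simp [sgn, b1, b2]

/-! ### Primitives -/

/-- The primitive vanishing at the origin. -/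
noncomputable def prim (g : ℝ → ℝ) (t : ℝ) : ℝ := ∫ s in (0:ℝ)..t, g s

lemma prim_hasDerivAt {g : ℝ → ℝ} (hg : Continuous g) (t : ℝ) : HasDerivAt (prim g) (g t) t :=
  (hg.integral_hasStrictDerivAt 0 t).hasDerivAt

lemma prim_contDiff {g : ℝ → ℝ} (hg : Continuous g) : ContDiff ℝ 1 (prim g) := by
  rw [contDiff_one_iff_deriv]
  refine ⟨fun t => (prim_hasDerivAt hg t).differentiableAt, ?_⟩
  have : deriv (prim g) = g := funext fun t => (prim_hasDerivAt hg t).deriv
  rw [this]
  exact hg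

lemma prim_periodic {g : ℝ → ℝ} (hg : Continuous g) (hp : ∀ (t : ℝ) (n : ℤ), g (t + n) = g t)
    (h0 : ∫ s in (0:ℝ)..1, g s = 0) (t : ℝ) (n : ℤ) : prim g (t + n) = prim g t := by
  have hi : ∀ a b, IntervalIntegrable g volume a b := fun a b => hg.intervalIntegrable a b
  have hper : Function.Periodic g 1 := fun t => by simpa using hp t 1
  have h1 := hper.intervalIntegral_add_zsmul_eq n t hi
  have h2 := hper.intervalIntegral_add_eq t 0
  rw [zero_add, h0] at h2
  rw [h2, smul_zero, zsmul_eq_mul, mul_one] at h1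
  unfold prim
  rw [← intervalIntegral.integral_add_adjacent_intervals (hi 0 t) (hi t (t + n)), h1, add_zero]

lemma periodic_bdd {g : ℝ → ℝ} (hg : Continuous g) (hp : ∀ (t : ℝ) (n : ℤ), g (t + n) = g t) :
    ∃ Z : ℝ, ∀ t, |g t| ≤ Z := by
  obtain ⟨Z, hZ⟩ := isCompact_Icc.exists_bound_of_continuousOn (s := Icc (0:ℝ) 1) hg.continuousOn
  refine ⟨Z, fun t => ?_⟩
  have h1 := hp (Int.fract t) ⌊t⌋
  rw [Int.fract_add_floor] at h1
  rw [h1]
  exact hZ _ ⟨Int.fract_nonneg t, (Int.fract_lt_one t).le⟩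

lemma sgn_mean (h : ℝ) : ∫ s in (0:ℝ)..1, sgn h s = 0 := by
  have hper : Function.Periodic (sgn h) 1 := fun t => by simpa using sgn_periodic h t 1
  have h1 := hper.intervalIntegral_add_eq 0 (-(1 / 2))
  have h2 : ∫ s in (-(1 / 2) : ℝ)..(1 / 2), sgn h s = -∫ s in (-(1 / 2) : ℝ)..(1 / 2), sgn h s := by
    have h3 := intervalIntegral.integral_comp_neg (sgn h) (a := -(1 / 2)) (b := 1 / 2)
    simp only [sgn_neg, neg_neg, intervalIntegral.integral_neg] at h3
    linarith
  rw [zero_add] at h1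
  rw [h1]
  have e : (-(1 / 2) + 1 : ℝ) = 1 / 2 := by norm_num
  rw [e]
  linarith

/-- The mean of the bump. -/
noncomputable def mean (h : ℝ) : ℝ := ∫ s in (0:ℝ)..1, bump h s

lemma cos_le_half {t : ℝ} (h1 : 1 / 3 ≤ t) (h2 : t ≤ 1) :
    Real.cos (2 * Real.pi * (t - 1 / 6)) ≤ 1 / 2 := by
  have e : 2 * Real.pi * (t - 1 / 6) = 2 * Real.pi * (t - 2 / 3) + Real.pi := by ring
  rw [e, Real.cos_add_pi, ← Real.cos_abs]
  have hpi := Real.pi_pos
  have h3 : |2 * Real.pi * (t - 2 / 3)| ≤ 2 * Real.pi / 3 := by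
    rw [abs_le]
    constructor <;> nlinarith
  have h4 := Real.cos_le_cos_of_nonneg_of_le_pi (abs_nonneg _) (by linarith) h3
  have h5 : Real.cos (2 * Real.pi / 3) = -(1 / 2) := by
    have : 2 * Real.pi / 3 = Real.pi - Real.pi / 3 := by ring
    rw [this, Real.cos_pi_sub, Real.cos_pi_div_three]
  rw [h5] at h4
  linarith

lemma half_le_cos {t : ℝ} (h1 : 0 ≤ t) (h2 : t ≤ 1 / 3) :
    1 / 2 ≤ Real.cos (2 * Real.pi * (t - 1 / 6)) := by
  rw [← Real.cos_abs, ← Real.cos_pi_div_three]
  have hpi := Real.pi_pos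
  refine Real.cos_le_cos_of_nonneg_of_le_pi (abs_nonneg _) (by linarith) ?_
  rw [abs_le]
  constructor <;> nlinarith

lemma mean_close {h : ℝ} (hh : 0 < h) :
    |mean h - 1 / 3| ≤ (volume (Ico 0 1 ∩ strip (1 / 6) (1 / 2) h)).toReal := by
  have hc : Continuous (bump h) := (bump_contDiff h).continuous
  have hi : ∀ a b, IntervalIntegrable (bump h) volume a b := fun a b => hc.intervalIntegrable a b
  have h1 : mean h = ∫ s in (0:ℝ)..(1/3), bump h s := by
    have : ∫ s in (1 / 3 : ℝ)..1, bump h s = 0 := by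
      rw [intervalIntegral.integral_congr (g := fun _ => (0:ℝ))]
      · simp
      · intro s hs
        rw [uIcc_of_le (by norm_num)] at hs
        exact bump_eq_zero hh (cos_le_half hs.1 hs.2)
    unfold mean
    rw [← intervalIntegral.integral_add_adjacent_intervals (hi 0 (1/3)) (hi (1/3) 1), this, add_zero]
  have h2 : 1 / 3 - mean h = ∫ s in (0:ℝ)..(1/3), (1 - bump h s) := by
    rw [intervalIntegral.integral_sub intervalIntegrable_const (hi _ _), h1]
    simp
  have h3 : 0 ≤ 1 / 3 - mean h := by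
    rw [h2]
    exact intervalIntegral.integral_nonneg (by norm_num) fun s _ => sub_nonneg.2 (bump_le_one h s)
  rw [abs_sub_comm, abs_of_nonneg h3, h2, intervalIntegral.integral_of_le (by norm_num),
    ← integral_Ico_eq_integral_Ioc]
  have hm : MeasurableSet (strip (1 / 6) (1 / 2) h) := (strip_closed _ _ _).measurableSet
  have h4 : ∫ s in Ico (0:ℝ) (1/3), (1 - bump h s) ≤
      ∫ s in Ico (0:ℝ) (1/3), (strip (1 / 6) (1 / 2) h).indicator (1 : ℝ → ℝ) s := by
    refine setIntegral_mono_on ?_ ?_ measurableSet_Ico ?_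
    · exact ((continuous_const.sub hc).integrableOn_Icc).mono_set Ico_subset_Icc_self
    · refine IntegrableOn.indicator ?_ hm
      exact integrableOn_const (by simp)
    · intro s hs
      by_cases hs2 : s ∈ strip (1 / 6) (1 / 2) h
      · rw [indicator_of_mem hs2, Pi.one_apply]
        linarith [bump_nonneg h s]
      · have h5 : bump h s = 1 := by
          refine bump_eq_one hh ?_
          have h6 := half_le_cos hs.1 hs.2.le
          by_contra h7
          rw [not_le] at h7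
          exact hs2 (mem_strip.2 (abs_le.2 ⟨by linarith, by linarith⟩))
        rw [indicator_of_notMem hs2, h5, sub_self]
  refine h4.trans ?_
  rw [integral_indicator_one hm, measureReal_restrict_apply hm, inter_comm]
  refine ENNReal.toReal_mono (ne_top_of_le_ne_top (by simp) (measure_mono inter_subset_left)) ?_
  refine measure_mono (inter_subset_inter_left _ ?_)
  exact Ico_subset_Ico_right (by norm_num)

/-! ### Indices, linear forms -/

/-- The column of the `i`-th component of the wells. -/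
def jc (i : Fin 3) : Fin 11 := ⟨i.val, by omega⟩

/-- The column of the `k`-th phase function. -/
def jk (k : Fin 7) : Fin 11 := ⟨3 + k.val, by omega⟩

lemma j_cases (j : Fin 11) : (∃ i, j = jc i) ∨ (∃ k, j = jk k) ∨ j = 10 := by
  by_cases h1 : j.val < 3
  · exact Or.inl ⟨⟨j.val, h1⟩, rfl⟩
  · by_cases h2 : j.val < 10
    · refine Or.inr (Or.inl ⟨⟨j.val - 3, by omega⟩, ?_⟩)
      apply Fin.ext
      simp only [jk]
      omega
    · refine Or.inr (Or.inr ?_)
      apply Fin.ext
      show j.val = 10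
      omega

lemma meanY_jc (m : ℝ) (i : Fin 3) : meanY m (jc i) = m := by
  simp [meanY, jc, i.isLt]

lemma meanY_jk (m : ℝ) (k : Fin 7) : meanY m (jk k) = 0 := by
  have h1 : ¬ (3 + k.val < 3) := by omega
  have h2 : ¬ (3 + k.val = 10) := by omega
  simp [meanY, jk, h2]

lemma meanY_last (m : ℝ) : meanY m 10 = 1 := by
  simp [meanY]

lemma goodY_jc (k : Fin 7) (σ : ℝ) (i : Fin 3) : goodY k σ (jc i) = well k i := by
  simp [goodY, jc, i.isLt]

lemma goodY_jk (k : Fin 7) (σ : ℝ) (l : Fin 7) : goodY k σ (jk l) = if l = k then σ else 0 := by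
  have h1 : ¬ (3 + l.val < 3) := by omega
  have h2 : ¬ (3 + l.val = 10) := by omega
  simp only [goodY, jk, h1, h2, dif_neg, not_false_eq_true, if_false]
  have h3 : (3 + l.val = 3 + k.val) ↔ l = k := by rw [Fin.ext_iff]; omega
  simp only [h3]

lemma goodY_last (k : Fin 7) (σ : ℝ) : goodY k σ 10 = 1 := by
  have h2 : ¬ (10 = 3 + k.val) := by omega
  simp [goodY, h2]

lemma dir_int (j : Fin 11) (a : Fin 2) : ∃ d : ℤ, dir j a = d := by
  unfold dir
  split_ifs
  · exact ⟨0, by simp⟩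
  · exact ⟨1, by simp⟩
  · exact ⟨1, by simp⟩
  · exact ⟨((j.val - 1 : ℕ) : ℤ), by simp⟩

lemma dir_abs (j : Fin 11) (a : Fin 2) : |dir j a| ≤ 9 := by
  unfold dir
  split_ifs
  · norm_num
  · norm_num
  · norm_num
  · rw [Nat.abs_cast]
    have : j.val - 1 ≤ 9 := by omega
    exact_mod_cast this

/-- The linear form with the coefficients `dir j`. -/
noncomputable def lin (j : Fin 11) : ℝ × ℝ →L[ℝ] ℝ :=
  dir j 0 • ContinuousLinearMap.fst ℝ ℝ ℝ + dir j 1 • ContinuousLinearMap.snd ℝ ℝ ℝ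

lemma lin_apply (j : Fin 11) (x : ℝ × ℝ) : lin j x = dir j 0 * x.1 + dir j 1 * x.2 := by
  simp [lin]

lemma lin_e (j : Fin 11) (a : Fin 2) :
    lin j (if a = 0 then ((1 : ℝ), (0 : ℝ)) else ((0 : ℝ), (1 : ℝ))) = dir j a := by
  rw [lin_apply]
  fin_cases a <;> simp

lemma lin_int (j : Fin 11) (x : ℝ × ℝ) (p q : ℤ) :
    ∃ z : ℤ, lin j (x.1 + (p : ℝ), x.2 + (q : ℝ)) = lin j x + z := by
  obtain ⟨d0, h0⟩ := dir_int j 0
  obtain ⟨d1, h1⟩ := dir_int j 1
  refine ⟨d0 * p + d1 * q, ?_⟩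
  rw [lin_apply, lin_apply, h0, h1]
  push_cast
  ring

/-! ### The phase functions -/

/-- The shift of the `i`-th bump. -/
noncomputable def shift (i : Fin 3) : ℝ := if i.val = 2 then 1 / 3 else 0

/-- The three bumps in the plane. -/
noncomputable def uu (h : ℝ) (i : Fin 3) (x : ℝ × ℝ) : ℝ := bump h (lin (jc i) x + shift i)

/-- The smoothed indicator of the `k`-th pattern. -/
noncomputable def psi (h : ℝ) (k : Fin 7) (x : ℝ × ℝ) : ℝ :=
  ∏ i : Fin 3, (well k i * uu h i x + (1 - well k i) * (1 - uu h i x))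

lemma well_mem (k : Fin 7) (i : Fin 3) : well k i = 0 ∨ well k i = 1 := by
  unfold well
  split_ifs <;> simp

lemma uu_contDiff (h : ℝ) (i : Fin 3) : ContDiff ℝ 1 (uu h i) :=
  (bump_contDiff h).comp ((lin (jc i)).contDiff.add contDiff_const)

lemma uu_nonneg (h : ℝ) (i : Fin 3) (x : ℝ × ℝ) : 0 ≤ uu h i x := bump_nonneg _ _
lemma uu_le_one (h : ℝ) (i : Fin 3) (x : ℝ × ℝ) : uu h i x ≤ 1 := bump_le_one _ _

lemma uu_periodic (h : ℝ) (i : Fin 3) (x : ℝ × ℝ) (p q : ℤ) :
    uu h i (x.1 + (p : ℝ), x.2 + (q : ℝ)) = uu h i x := by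
  obtain ⟨z, hz⟩ := lin_int (jc i) x p q
  unfold uu
  rw [hz, add_right_comm, bump_periodic]

lemma psi_contDiff (h : ℝ) (k : Fin 7) : ContDiff ℝ 1 (psi h k) := by
  unfold psi
  refine contDiff_prod fun i _ => ?_
  exact (contDiff_const.mul (uu_contDiff h i)).add
    (contDiff_const.mul (contDiff_const.sub (uu_contDiff h i)))

lemma factor_nonneg (h : ℝ) (k : Fin 7) (i : Fin 3) (x : ℝ × ℝ) :
    0 ≤ well k i * uu h i x + (1 - well k i) * (1 - uu h i x) := by
  rcases well_mem k i with hw | hw <;> rw [hw]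
  · linarith [uu_le_one h i x]
  · linarith [uu_nonneg h i x]

lemma factor_le_one (h : ℝ) (k : Fin 7) (i : Fin 3) (x : ℝ × ℝ) :
    well k i * uu h i x + (1 - well k i) * (1 - uu h i x) ≤ 1 := by
  rcases well_mem k i with hw | hw <;> rw [hw]
  · linarith [uu_nonneg h i x]
  · linarith [uu_le_one h i x]

lemma psi_nonneg (h : ℝ) (k : Fin 7) (x : ℝ × ℝ) : 0 ≤ psi h k x :=
  Finset.prod_nonneg fun i _ => factor_nonneg h k i x

lemma psi_le_one (h : ℝ) (k : Fin 7) (x : ℝ × ℝ) : psi h k x ≤ 1 :=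
  Finset.prod_le_one (fun i _ => factor_nonneg h k i x) fun i _ => factor_le_one h k i x

lemma psi_periodic (h : ℝ) (k : Fin 7) (x : ℝ × ℝ) (p q : ℤ) :
    psi h k (x.1 + (p : ℝ), x.2 + (q : ℝ)) = psi h k x := by
  unfold psi
  simp only [uu_periodic]

lemma psi_eq_one {h : ℝ} {k : Fin 7} {x : ℝ × ℝ} (hu : ∀ i, uu h i x = well k i) :
    psi h k x = 1 := by
  unfold psi
  refine Finset.prod_eq_one fun i _ => ?_
  rw [hu i]
  rcases well_mem k i with hw | hw <;> rw [hw] <;> norm_num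

lemma well_inj {k l : Fin 7} (h : ∀ i, well k i = well l i) : k = l := by
  have h0 := h 0
  have h1 := h 1
  have h2 := h 2
  revert h0 h1 h2
  fin_cases k <;> fin_cases l <;> simp [well]

lemma psi_eq_zero {h : ℝ} {k l : Fin 7} {x : ℝ × ℝ} (hu : ∀ i, uu h i x = well k i)
    (hkl : l ≠ k) : psi h l x = 0 := by
  by_contra hne
  refine hkl (well_inj fun i => ?_)
  unfold psi at hne
  have h1 := (Finset.prod_ne_zero_iff.1 hne) i (Finset.mem_univ i)
  rw [hu i] at h1
  rcases well_mem k i with hw | hw <;> rcases well_mem l i with hw' | hw' <;>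
    rw [hw, hw'] at h1 ⊢ <;> norm_num at h1

/-- A phase function has zero gradient where it is `0` or `1`. -/
lemma psi_fderiv {h : ℝ} {k : Fin 7} {x : ℝ × ℝ} (hx : psi h k x = 0 ∨ psi h k x = 1) :
    fderiv ℝ (psi h k) x = 0 := by
  rcases hx with hx | hx
  · refine IsLocalMin.fderiv_eq_zero (Filter.Eventually.of_forall fun y => ?_)
    rw [hx]
    exact psi_nonneg h k y
  · refine IsLocalMax.fderiv_eq_zero (Filter.Eventually.of_forall fun y => ?_)
    rw [hx]
    exact psi_le_one h k y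

/-- Off the strips, the three bumps show the pattern of one of the wells. -/
lemma exists_pattern {h : ℝ} (hh : 0 < h) {x : ℝ × ℝ}
    (hx : ∀ i, lin (jc i) x + shift i ∉ strip (1 / 6) (1 / 2) h) :
    ∃ k : Fin 7, ∀ i, uu h i x = well k i := by
  have hu : ∀ i, uu h i x = 0 ∨ uu h i x = 1 := fun i => bump_mem hh (hx i)
  have hbad : ¬ (uu h 0 x = 1 ∧ uu h 1 x = 1 ∧ uu h 2 x = 1) := by
    rintro ⟨h0, h1, h2⟩
    unfold uu at h0 h1 h2
    rw [lin_apply] at h0 h1 h2
    simp only [jc, dir, shift, Fin.val_zero, Fin.val_one, Fin.val_two] at h0 h1 h2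
    norm_num at h0 h1 h2
    exact bump_three hh h0 h1 h2
  have ext3 : ∀ k : Fin 7, uu h 0 x = well k 0 → uu h 1 x = well k 1 → uu h 2 x = well k 2 →
      ∃ k : Fin 7, ∀ i, uu h i x = well k i := by
    intro k h0 h1 h2
    refine ⟨k, fun i => ?_⟩
    fin_cases i
    · exact h0
    · exact h1
    · exact h2
  rcases hu 0 with h0 | h0 <;> rcases hu 1 with h1 | h1 <;> rcases hu 2 with h2 | h2
  · exact ext3 0 (by simp [h0, well]) (by simp [h1, well]) (by simp [h2, well])
  · exact ext3 4 (by simp [h0, well]) (by simp [h1, well]) (by simp [h2, well])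
  · exact ext3 2 (by simp [h0, well]) (by simp [h1, well]) (by simp [h2, well])
  · exact ext3 6 (by simp [h0, well]) (by simp [h1, well]) (by simp [h2, well])
  · exact ext3 1 (by simp [h0, well]) (by simp [h1, well]) (by simp [h2, well])
  · exact ext3 5 (by simp [h0, well]) (by simp [h1, well]) (by simp [h2, well])
  · exact ext3 3 (by simp [h0, well]) (by simp [h1, well]) (by simp [h2, well])
  · exact absurd ⟨h0, h1, h2⟩ hbad

/-! ### Potentials -/

/-- The potentials. -/
noncomputable def pot (h g : ℝ) (N : ℕ) (j : Fin 11) (x : ℝ × ℝ) : ℝ :=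
  if hj : j.val < 3 then prim (fun s => bump h s - mean h) (lin j x + shift ⟨j.val, hj⟩)
  else if hk : j.val < 10 then
    psi h ⟨j.val - 3, by omega⟩ x * (prim (sgn g) (N * lin j x) / N)
  else 0

lemma pot_jc (h g : ℝ) (N : ℕ) (i : Fin 3) :
    pot h g N (jc i) = fun x => prim (fun s => bump h s - mean h) (lin (jc i) x + shift i) := by
  funext x
  have : (jc i).val < 3 := i.isLt
  unfold pot
  rw [dif_pos this]
  rfl

lemma pot_jk (h g : ℝ) (N : ℕ) (k : Fin 7) :
    pot h g N (jk k) = fun x => psi h k x * (prim (sgn g) (N * lin (jk k) x) / N) := by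
  funext x
  have h1 : ¬ (jk k).val < 3 := by simp only [jk]; omega
  have h2 : (jk k).val < 10 := by simp only [jk]; omega
  unfold pot
  rw [dif_neg h1, dif_pos h2]
  have h3 : (⟨(jk k).val - 3, by omega⟩ : Fin 7) = k := by
    apply Fin.ext
    simp only [jk]
    omega
  rw [h3]

lemma pot_last (h g : ℝ) (N : ℕ) : pot h g N 10 = fun _ => 0 := by
  funext x
  have h1 : ¬ (10 : Fin 11).val < 3 := by decide
  have h2 : ¬ (10 : Fin 11).val < 10 := by decide
  unfold pot
  rw [dif_neg h1, dif_neg h2]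

lemma bump_sub_continuous (h : ℝ) : Continuous fun s => bump h s - mean h :=
  (bump_contDiff h).continuous.sub continuous_const

lemma bump_sub_mean (h : ℝ) : ∫ s in (0:ℝ)..1, (bump h s - mean h) = 0 := by
  rw [intervalIntegral.integral_sub ((bump_contDiff h).continuous.intervalIntegrable _ _)
    intervalIntegrable_const]
  simp [mean]

lemma pot_pot (h g : ℝ) (N : ℕ) (j : Fin 11) : Pot (pot h g N j) := by
  rcases j_cases j with ⟨i, rfl⟩ | ⟨k, rfl⟩ | rfl
  · rw [pot_jc]
    refine ⟨(prim_contDiff (bump_sub_continuous h)).comp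
      ((lin (jc i)).contDiff.add contDiff_const), ?_⟩
    intro x p q
    obtain ⟨z, hz⟩ := lin_int (jc i) x p q
    show prim _ (lin (jc i) (x.1 + (p : ℝ), x.2 + (q : ℝ)) + shift i) = _
    rw [hz, add_right_comm, prim_periodic (bump_sub_continuous h) _ (bump_sub_mean h)]
    intro t n
    rw [bump_periodic]
  · rw [pot_jk]
    refine ⟨(psi_contDiff h k).mul (((prim_contDiff (sgn_continuous g)).comp
      (contDiff_const.mul (lin (jk k)).contDiff)).div_const _), ?_⟩
    intro x p q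
    obtain ⟨z, hz⟩ := lin_int (jk k) x p q
    show psi h k (x.1 + (p : ℝ), x.2 + (q : ℝ)) *
      (prim (sgn g) (N * lin (jk k) (x.1 + (p : ℝ), x.2 + (q : ℝ))) / N) = _
    rw [hz, psi_periodic, mul_add]
    have e : (N : ℝ) * (z : ℝ) = ((N * z : ℤ) : ℝ) := by push_cast; ring
    rw [e, prim_periodic (sgn_continuous g) (sgn_periodic g) (sgn_mean g)]
  · rw [pot_last]
    exact ⟨contDiff_const, fun _ _ _ => rfl⟩

lemma grad_jc (h g : ℝ) (N : ℕ) (i : Fin 3) (a : Fin 2) (x : ℝ × ℝ) :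
    gradF (pot h g N) x (a, jc i) = (uu h i x - mean h) * dir (jc i) a := by
  have h1 : HasFDerivAt (pot h g N (jc i))
      ((bump h (lin (jc i) x + shift i) - mean h) • lin (jc i)) x := by
    rw [pot_jc]
    exact (prim_hasDerivAt (bump_sub_continuous h) _).comp_hasFDerivAt x
      ((lin (jc i)).hasFDerivAt.add_const (shift i))
  show fderiv ℝ (pot h g N (jc i)) x _ = _
  rw [h1.fderiv, _root_.smul_apply, lin_e, smul_eq_mul]
  rfl

lemma grad_jk (h g : ℝ) {N : ℕ} (hN : 0 < N) (k : Fin 7) (a : Fin 2) (x : ℝ × ℝ) :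
    gradF (pot h g N) x (a, jk k) = psi h k x * sgn g (N * lin (jk k) x) * dir (jk k) a +
      prim (sgn g) (N * lin (jk k) x) / N *
        fderiv ℝ (psi h k) x (if a = 0 then ((1 : ℝ), (0 : ℝ)) else ((0 : ℝ), (1 : ℝ))) := by
  have hNr : (N : ℝ) ≠ 0 := by exact_mod_cast hN.ne'
  have h0 : HasFDerivAt (fun x => (N : ℝ) * lin (jk k) x) ((N : ℝ) • lin (jk k)) x :=
    (lin (jk k)).hasFDerivAt.const_mul (N : ℝ)
  have h1 : HasFDerivAt (fun x => prim (sgn g) ((N : ℝ) * lin (jk k) x))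
      (sgn g ((N : ℝ) * lin (jk k) x) • ((N : ℝ) • lin (jk k))) x :=
    (prim_hasDerivAt (sgn_continuous g) _).comp_hasFDerivAt x h0
  have h2 : HasFDerivAt (fun x => prim (sgn g) ((N : ℝ) * lin (jk k) x) / N)
      ((N : ℝ)⁻¹ • (sgn g ((N : ℝ) * lin (jk k) x) • ((N : ℝ) • lin (jk k)))) x := by
    simp only [div_eq_inv_mul]
    exact h1.const_mul ((N : ℝ)⁻¹)
  have h3 : HasFDerivAt (psi h k) (fderiv ℝ (psi h k) x) x :=
    ((psi_contDiff h k).differentiable (by norm_num) x).hasFDerivAt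
  have h4 := h3.mul h2
  show fderiv ℝ (pot h g N (jk k)) x _ = _
  rw [pot_jk]
  have h5 := h4.fderiv
  refine (congrArg (fun L : ℝ × ℝ →L[ℝ] ℝ =>
    L (if a = 0 then ((1 : ℝ), (0 : ℝ)) else ((0 : ℝ), (1 : ℝ)))) h5).trans ?_
  simp only [_root_.add_apply, _root_.smul_apply, lin_e, smul_eq_mul]
  field_simp

lemma grad_last (h g : ℝ) (N : ℕ) (a : Fin 2) (x : ℝ × ℝ) :
    gradF (pot h g N) x (a, 10) = 0 := by
  show fderiv ℝ (pot h g N 10) x _ = _
  rw [pot_last]
  simp

/-- The total field of the construction. -/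
lemma field_jc (h g : ℝ) (N : ℕ) (i : Fin 3) (a : Fin 2) (x : ℝ × ℝ) :
    (fld (meanY (mean h)) + gradF (pot h g N) x) (a, jc i) = uu h i x * dir (jc i) a := by
  rw [Pi.add_apply, grad_jc]
  simp only [fld, meanY_jc]
  ring

lemma field_jk (h g : ℝ) {N : ℕ} (hN : 0 < N) (k : Fin 7) (a : Fin 2) (x : ℝ × ℝ) :
    (fld (meanY (mean h)) + gradF (pot h g N) x) (a, jk k) =
      psi h k x * sgn g (N * lin (jk k) x) * dir (jk k) a +
      prim (sgn g) (N * lin (jk k) x) / N *
        fderiv ℝ (psi h k) x (if a = 0 then ((1 : ℝ), (0 : ℝ)) else ((0 : ℝ), (1 : ℝ))) := by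
  rw [Pi.add_apply, grad_jk h g hN]
  simp only [fld, meanY_jk]
  ring

lemma field_last (h g : ℝ) (N : ℕ) (a : Fin 2) (x : ℝ × ℝ) :
    (fld (meanY (mean h)) + gradF (pot h g N) x) (a, 10) = dir 10 a := by
  rw [Pi.add_apply, grad_last]
  simp only [fld, meanY_last]
  ring

/-- Bounds for the gradients of the phase functions over the cell. -/
lemma psi_grad_bdd (h : ℝ) : ∃ M : ℝ, ∀ k, ∀ x ∈ cell, ‖fderiv ℝ (psi h k) x‖ ≤ M := by
  have key : ∀ k, ∃ M : ℝ, ∀ x ∈ Icc (0:ℝ) 1 ×ˢ Icc (0:ℝ) 1, ‖fderiv ℝ (psi h k) x‖ ≤ M := by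
    intro k
    exact (isCompact_Icc.prod isCompact_Icc).exists_bound_of_continuousOn
      ((psi_contDiff h k).continuous_fderiv (by norm_num)).continuousOn
  choose M hM using key
  refine ⟨∑ k, |M k|, fun k x hx => ?_⟩
  have hx' : x ∈ Icc (0:ℝ) 1 ×ˢ Icc (0:ℝ) 1 :=
    ⟨Ico_subset_Icc_self hx.1, Ico_subset_Icc_self hx.2⟩
  refine ((hM k x hx').trans (le_abs_self _)).trans ?_
  exact Finset.single_le_sum (f := fun k => |M k|) (fun i _ => abs_nonneg _) (Finset.mem_univ k)

/-- The bad set. -/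
def badSet (h g : ℝ) (N : ℕ) : Set (ℝ × ℝ) :=
  (⋃ i : Fin 3, cell ∩ {x | lin (jc i) x + shift i ∈ strip (1 / 6) (1 / 2) h}) ∪
  (⋃ k : Fin 7, cell ∩ {x | N * lin (jk k) x ∈ strip (1 / 4) 0 g})

lemma cell_meas : MeasurableSet cell := measurableSet_Ico.prod measurableSet_Ico

lemma badSet_meas (h g : ℝ) (N : ℕ) : MeasurableSet (badSet h g N) := by
  refine MeasurableSet.union (MeasurableSet.iUnion fun i => cell_meas.inter ?_)
    (MeasurableSet.iUnion fun k => cell_meas.inter ?_)
  · exact ((strip_closed _ _ _).preimage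
      ((lin (jc i)).continuous.add continuous_const)).measurableSet
  · exact ((strip_closed _ _ _).preimage
      (continuous_const.mul (lin (jk k)).continuous)).measurableSet

lemma vol_jc (h : ℝ) (i : Fin 3) :
    volume (cell ∩ {x | lin (jc i) x + shift i ∈ strip (1 / 6) (1 / 2) h}) ≤
      volume (Ico 0 1 ∩ strip (1 / 6) (1 / 2) h) := by
  have hB : MeasurableSet (strip (1 / 6) (1 / 2) h) := (strip_closed _ _ _).measurableSet
  by_cases hi : i = 1
  · subst hi
    refine le_trans (measure_mono ?_) (volume_cell_y hB 0 (strip_periodic _ _ h))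
    rintro x ⟨hx, hx2⟩
    refine ⟨hx, ?_⟩
    simp only [mem_ofPred_eq, lin_apply, jc, dir, shift, Fin.val_one] at hx2 ⊢
    norm_num at hx2 ⊢
    exact hx2
  · have hd : dir (jc i) 0 = 1 := by
      fin_cases i
      · simp [dir, jc]
      · exact absurd rfl hi
      · simp [dir, jc]
    refine le_trans (measure_mono ?_)
      (volume_cell_x hB (strip_periodic _ _ h) one_pos (dir (jc i) 1) (shift i))
    rintro x ⟨hx, hx2⟩
    refine ⟨hx, ?_⟩
    simp only [mem_ofPred_eq, lin_apply, hd, Nat.cast_one] at hx2 ⊢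
    exact hx2

lemma vol_jk (g : ℝ) {N : ℕ} (hN : 0 < N) (k : Fin 7) :
    volume (cell ∩ {x | N * lin (jk k) x ∈ strip (1 / 4) 0 g}) ≤
      volume (Ico 0 1 ∩ strip (1 / 4) 0 g) := by
  have hB : MeasurableSet (strip (1 / 4) 0 g) := (strip_closed _ _ _).measurableSet
  have hd : dir (jk k) 0 = 1 := by
    have h1 : ¬ (3 + k.val = 1) := by omega
    simp [dir, jk, h1]
  refine le_trans (measure_mono ?_)
    (volume_cell_x hB (strip_periodic _ _ g) hN (N * dir (jk k) 1) 0)
  rintro x ⟨hx, hx2⟩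
  refine ⟨hx, ?_⟩
  simp only [mem_ofPred_eq, lin_apply, hd] at hx2 ⊢
  have e : (N : ℝ) * x.1 + N * dir (jk k) 1 * x.2 + 0 = N * (1 * x.1 + dir (jk k) 1 * x.2) := by
    ring
  rw [e]
  exact hx2

lemma badSet_vol (h g : ℝ) {N : ℕ} (hN : 0 < N) :
    volume (badSet h g N) ≤ 3 * volume (Ico 0 1 ∩ strip (1 / 6) (1 / 2) h) +
      7 * volume (Ico 0 1 ∩ strip (1 / 4) 0 g) := by
  refine (measure_union_le _ _).trans (add_le_add ?_ ?_)
  · refine (measure_iUnion_fintype_le _ _).trans ?_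
    refine (Finset.sum_le_sum fun i _ => vol_jc h i).trans ?_
    simp
  · refine (measure_iUnion_fintype_le _ _).trans ?_
    refine (Finset.sum_le_sum fun k _ => vol_jk g hN k).trans ?_
    simp

/-- The combined signed phase function. -/
noncomputable def tot (h g : ℝ) (N : ℕ) (x : ℝ × ℝ) : ℝ :=
  ∑ k : Fin 7, psi h k x * sgn g (N * lin (jk k) x)

lemma tot_continuous (h g : ℝ) (N : ℕ) : Continuous (tot h g N) := by
  unfold tot
  refine continuous_finsetSum _ fun k _ => ?_
  exact (psi_contDiff h k).continuous.mul ((sgn_continuous g).comp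
    (continuous_const.mul (lin (jk k)).continuous))

lemma tot_periodic (h g : ℝ) (N : ℕ) (x : ℝ × ℝ) (p q : ℤ) :
    tot h g N (x.1 + (p : ℝ), x.2 + (q : ℝ)) = tot h g N x := by
  unfold tot
  refine Finset.sum_congr rfl fun k _ => ?_
  obtain ⟨z, hz⟩ := lin_int (jk k) x p q
  have e : (N : ℝ) * (z : ℝ) = ((N * z : ℤ) : ℝ) := by push_cast; ring
  rw [hz, psi_periodic, mul_add, e, sgn_periodic]

end Trial

open Trial in
/-- Piece TRIAL: the explicit microstructure and its trial fields. `C` is a universal bound. -/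
theorem exists_trial : ∃ C : ℝ, ∀ ε : ℝ, 0 < ε →
    ∃ (m : ℝ) (D : Set (ℝ × ℝ)) (V : Fin 11 → ℝ × ℝ → ℝ) (Bad : Set (ℝ × ℝ)),
      |m - 1 / 3| < ε ∧ MeasurableSet D ∧
      (∀ (x : ℝ × ℝ) (p q : ℤ), (x.1 + (p : ℝ), x.2 + (q : ℝ)) ∈ D ↔ x ∈ D) ∧
      (∀ j, Pot (V j)) ∧ MeasurableSet Bad ∧ Bad ⊆ cell ∧ (volume Bad).toReal < ε ∧
      (∀ x ∈ cell, ∀ i, |(fld (meanY m) + gradF V x) i| ≤ C) ∧
      (∀ x ∈ cell \ Bad, ∃ k : Fin 7,
        (x ∈ D → fld (meanY m) + gradF V x = fld (goodY k 1)) ∧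
        (x ∉ D → fld (meanY m) + gradF V x = fld (goodY k (-1)))) := by
  refine ⟨10, fun ε hε => ?_⟩
  have hε' : (0 : ENNReal) < ENNReal.ofReal (ε / 20) := ENNReal.ofReal_pos.2 (by positivity)
  obtain ⟨h, hh, hhs⟩ := exists_strip_small (1 / 6) (1 / 2) hε'
  obtain ⟨g, hg, hgs⟩ := exists_strip_small (1 / 4) 0 hε'
  obtain ⟨M, hM⟩ := psi_grad_bdd h
  obtain ⟨Z, hZ⟩ := periodic_bdd (prim_contDiff (sgn_continuous g)).continuous
    (prim_periodic (sgn_continuous g) (sgn_periodic g) (sgn_mean g))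
  obtain ⟨N, hN⟩ := exists_nat_gt (|Z| * |M| + 1)
  have hNr : (0 : ℝ) < N := lt_trans (by positivity) hN
  have hN0 : 0 < N := by exact_mod_cast hNr
  refine ⟨mean h, {x | 0 < tot h g N x}, pot h g N, badSet h g N, ?_, ?_, ?_, pot_pot h g N,
    badSet_meas h g N, ?_, ?_, ?_, ?_⟩
  · refine (mean_close hh).trans_lt ?_
    have h1 := (ENNReal.toReal_lt_toReal (ne_top_of_lt hhs) ENNReal.ofReal_ne_top).2 hhs
    rw [ENNReal.toReal_ofReal (by positivity)] at h1
    linarith
  · exact (isOpen_lt continuous_const (tot_continuous h g N)).measurableSet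
  · intro x p q
    simp only [mem_ofPred_eq, tot_periodic]
  · exact union_subset (iUnion_subset fun i => inter_subset_left)
      (iUnion_subset fun k => inter_subset_left)
  · have h1 : volume (badSet h g N) ≤ 10 * ENNReal.ofReal (ε / 20) := by
      refine (badSet_vol h g hN0).trans ?_
      calc 3 * volume (Ico 0 1 ∩ strip (1 / 6) (1 / 2) h) + 7 * volume (Ico 0 1 ∩ strip (1 / 4) 0 g)
          ≤ 3 * ENNReal.ofReal (ε / 20) + 7 * ENNReal.ofReal (ε / 20) := by gcongr
        _ = 10 * ENNReal.ofReal (ε / 20) := by rw [← add_mul]; norm_num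
    have h2 : 10 * ENNReal.ofReal (ε / 20) = ENNReal.ofReal (ε / 2) := by
      have : (10 : ENNReal) = ENNReal.ofReal 10 := by norm_num
      rw [this, ← ENNReal.ofReal_mul (by norm_num)]
      congr 1
      ring
    rw [h2] at h1
    have h3 := ENNReal.toReal_mono ENNReal.ofReal_ne_top h1
    rw [ENNReal.toReal_ofReal (by positivity)] at h3
    linarith
  · rintro x hx ⟨a, j⟩
    rcases j_cases j with ⟨i, rfl⟩ | ⟨k, rfl⟩ | rfl
    · rw [field_jc, abs_mul, abs_of_nonneg (uu_nonneg h i x)]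
      have h1 := dir_abs (jc i) a
      have h2 := uu_le_one h i x
      have h3 := uu_nonneg h i x
      nlinarith [abs_nonneg (dir (jc i) a)]
    · rw [field_jk h g hN0]
      have h1 := dir_abs (jk k) a
      have h2 : |psi h k x * sgn g (N * lin (jk k) x) * dir (jk k) a| ≤ 1 * 1 * 9 := by
        rw [abs_mul, abs_mul]
        gcongr
        · rw [abs_of_nonneg (psi_nonneg h k x)]
          exact psi_le_one h k x
        · exact sgn_abs_le _ _
      have h3 : ‖(if a = 0 then ((1 : ℝ), (0 : ℝ)) else ((0 : ℝ), (1 : ℝ)))‖ = 1 := by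
        split_ifs <;> simp [Prod.norm_def]
      have h4 : |fderiv ℝ (psi h k) x
          (if a = 0 then ((1 : ℝ), (0 : ℝ)) else ((0 : ℝ), (1 : ℝ)))| ≤ |M| := by
        have := (fderiv ℝ (psi h k) x).le_opNorm
          (if a = 0 then ((1 : ℝ), (0 : ℝ)) else ((0 : ℝ), (1 : ℝ)))
        rw [h3, mul_one, Real.norm_eq_abs] at this
        exact (this.trans (hM k x hx)).trans (le_abs_self M)
      have h5 : |prim (sgn g) (N * lin (jk k) x) / N *
          fderiv ℝ (psi h k) x (if a = 0 then ((1 : ℝ), (0 : ℝ)) else ((0 : ℝ), (1 : ℝ)))| ≤ 1 := by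
        rw [abs_mul, abs_div, abs_of_pos hNr, div_mul_eq_mul_div, div_le_one hNr]
        have h6 : |prim (sgn g) (N * lin (jk k) x)| ≤ |Z| := (hZ _).trans (le_abs_self Z)
        have h7 := mul_le_mul h6 h4 (abs_nonneg _) (abs_nonneg _)
        linarith
      refine (abs_add_le _ _).trans ?_
      linarith
    · rw [field_last]
      linarith [dir_abs 10 a]
  · rintro x ⟨hx, hxb⟩
    have hb1 : ∀ i, lin (jc i) x + shift i ∉ strip (1 / 6) (1 / 2) h := by
      intro i hi
      exact hxb (Or.inl (mem_iUnion.2 ⟨i, hx, hi⟩))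
    have hb2 : ∀ k : Fin 7, N * lin (jk k) x ∉ strip (1 / 4) 0 g := by
      intro k hk
      exact hxb (Or.inr (mem_iUnion.2 ⟨k, hx, hk⟩))
    obtain ⟨k, hk⟩ := exists_pattern hh hb1
    have hpk : psi h k x = 1 := psi_eq_one hk
    have hpl : ∀ l, l ≠ k → psi h l x = 0 := fun l hl => psi_eq_zero hk hl
    have htot : tot h g N x = sgn g (N * lin (jk k) x) := by
      unfold tot
      rw [Finset.sum_eq_single k]
      · rw [hpk, one_mul]
      · intro l _ hl
        rw [hpl l hl, zero_mul]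
      · intro hk
        exact absurd (Finset.mem_univ k) hk
    have hfield : ∀ σ : ℝ, sgn g (N * lin (jk k) x) = σ →
        fld (meanY (mean h)) + gradF (pot h g N) x = fld (goodY k σ) := by
      intro σ hσ
      funext ⟨a, j⟩
      rcases j_cases j with ⟨i, rfl⟩ | ⟨l, rfl⟩ | rfl
      · rw [field_jc, hk i]
        simp only [fld, goodY_jc]
      · rw [field_jk h g hN0]
        by_cases hl : l = k
        · subst hl
          rw [psi_fderiv (Or.inr hpk), hpk, hσ]
          simp [fld, goodY_jk]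
        · rw [psi_fderiv (Or.inl (hpl l hl)), hpl l hl]
          simp [fld, goodY_jk, hl]
      · rw [field_last]
        simp only [fld, goodY_last, one_mul]
    refine ⟨k, fun hxD => ?_, fun hxD => ?_⟩
    · have h1 : 0 < sgn g (N * lin (jk k) x) := by rw [← htot]; exact hxD
      rcases sgn_mem hg (hb2 k) with h2 | h2
      · exact hfield 1 h2
      · rw [h2] at h1
        norm_num at h1
    · have h1 : ¬ 0 < sgn g (N * lin (jk k) x) := by rw [← htot]; exact hxD
      rcases sgn_mem hg (hb2 k) with h2 | h2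
      · rw [h2] at h1
        norm_num at h1
      · exact hfield (-1) h2

end Pool.Agent.Lib.MP_393ee6_an
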